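import Mathlib
import Pool.Agent.Helper90.HBasis.Retract

set_option autoImplicit false

open MeasureTheory Filter Topology

namespace HBasis

open Pool.Agent.Helper90.HBasis

/-- Extension of a finite family by zero. -/
noncomputable def extFin {Y : Type*} [Zero Y] {n : ℕ} (e : Fin n → Y) (i : ℕ) : Y :=
  if h : i < n then e ⟨i, h⟩ else 0

theorem extFin_of_lt {Y : Type*} [Zero Y] {n : ℕ} (e : Fin n → Y) (i : ℕ) (h : i < n) :
    extFin e i = e ⟨i, h⟩ := by
  rw [extFin, dif_pos h]

theorem sum_extFin {X : Type} [NormedAddCommGroup X] [NormedSpace ℂ X] {n : ℕ} (e : Fin n → X)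
    (f : Fin n → X →L[ℂ] ℂ) (x : X) :
    ∑ i ∈ Finset.range n, extFin f i x • extFin e i = ∑ i : Fin n, f i x • e i := by
  rw [Finset.sum_range]
  refine Finset.sum_congr rfl ?_
  intro i _
  rw [extFin_of_lt _ _ i.2, extFin_of_lt _ _ i.2]

theorem sum_extFin_le {X : Type} [NormedAddCommGroup X] [NormedSpace ℂ X] {n : ℕ}
    (e : Fin n → X) (f : Fin n → X →L[ℂ] ℂ) (x : X) (r : ℕ) (hr : r ≤ n) :
    ∑ i ∈ Finset.range r, extFin f i x • extFin e i =
      ∑ i : Fin n with i.val < r, f i x • e i := by
  rw [Finset.sum_filter]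
  have h : ∀ i : Fin n, (if i.val < r then f i x • e i else 0) =
      (fun j : ℕ => if j < r then extFin f j x • extFin e j else 0) i.val := by
    intro i
    simp only
    rw [extFin_of_lt _ _ i.2, extFin_of_lt _ _ i.2]
  rw [Finset.sum_congr rfl (fun i _ => h i),
    Fin.sum_univ_eq_sum_range (fun j : ℕ => if j < r then extFin f j x • extFin e j else 0) n,
    ← Finset.sum_filter]
  refine Finset.sum_congr ?_ (fun _ _ => rfl)
  ext j
  simp only [Finset.mem_range, Finset.mem_filter]
  omega

theorem assembly {X : Type} [NormedAddCommGroup X] [NormedSpace ℂ X] [CompleteSpace X] (C : ℝ)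
    (T : ℕ → X →L[ℂ] X) (hT : ∀ j, ‖T j‖ ≤ C)
    (hTT : ∀ i j, i < j → (T i).comp (T j) = T i ∧ (T j).comp (T i) = T i)
    (hTlim : ∀ x, Tendsto (fun j => T j x) atTop (𝓝 x))
    (loc : ∀ j, ∃ (n : ℕ) (e : Fin n → X) (f : Fin n → X →L[ℂ] ℂ) (A B : X →L[ℂ] X), 0 < n ∧
      (∀ i i', f i (e i') = if i = i' then 1 else 0) ∧
      (∀ r : ℕ, ∀ x, ‖∑ i : Fin n with i.val < r, f i x • e i‖ ≤ C * ‖x‖) ∧
      ‖A‖ ≤ C ∧ ‖B‖ ≤ C ∧
      (∀ x, B (∑ i, f i (A x) • e i) = T j x))
    (J : lp (fun _ : ℕ => X) 1 →L[ℂ] X) (J' : X →L[ℂ] lp (fun _ : ℕ => X) 1)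
    (hJ : ∀ y, J' (J y) = y) :
    ∃ (e : ℕ → X) (f : ℕ → X →L[ℂ] ℂ),
      (∀ i j, f i (e j) = if i = j then 1 else 0) ∧
      ∀ x, Tendsto (fun N => ∑ k ∈ Finset.range N, f k x • e k) atTop (𝓝 x) := by
  have hC : 0 ≤ C := (norm_nonneg _).trans (hT 0)
  choose n e f A B hn hbi hps hA hB hBA using loc
  have hT1 : ∀ i j, i < j → ∀ x, T i (T j x) = T i x := by
    intro i j h x
    have := congrArg (fun F : X →L[ℂ] X => F x) (hTT i j h).1
    simpa using this
  have hT2 : ∀ i j, i < j → ∀ x, T j (T i x) = T i x := by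
    intro i j h x
    have := congrArg (fun F : X →L[ℂ] X => F x) (hTT i j h).2
    simpa using this
  have hTn : ∀ j x, ‖T j x‖ ≤ C * ‖x‖ := fun j x =>
    ((T j).le_opNorm x).trans (mul_le_mul_of_nonneg_right (hT j) (norm_nonneg x))
  have hAn : ∀ j x, ‖A j x‖ ≤ C * ‖x‖ := fun j x =>
    ((A j).le_opNorm x).trans (mul_le_mul_of_nonneg_right (hA j) (norm_nonneg x))
  have hBn : ∀ j x, ‖B j x‖ ≤ C * ‖x‖ := fun j x =>
    ((B j).le_opNorm x).trans (mul_le_mul_of_nonneg_right (hB j) (norm_nonneg x))
  -- the block projections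
  let p : ℕ → X →L[ℂ] X := fun j => ∑ i, (f j i).smulRight (e j i)
  have hp : ∀ j x, p j x = ∑ i, f j i x • e j i := by
    intro j x
    simp [p]
  have hpe : ∀ j i, p j (e j i) = e j i := by
    intro j i
    rw [hp, Finset.sum_eq_single i]
    · rw [hbi, if_pos rfl, one_smul]
    · intro i' _ hne
      rw [hbi, if_neg hne, zero_smul]
    · intro h
      exact absurd (Finset.mem_univ i) h
  have hpp : ∀ j x, p j (p j x) = p j x := by
    intro j x
    conv_lhs => rw [hp j x]
    rw [map_sum, hp j x]
    refine Finset.sum_congr rfl ?_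
    intro i _
    rw [map_smul, hpe]
  have hpn : ∀ j x, ‖p j x‖ ≤ C * ‖x‖ := by
    intro j x
    have h := hps j (n j) x
    have h2 : (Finset.univ.filter fun i : Fin (n j) => i.val < n j) = Finset.univ := by
      ext i
      simp
    rw [h2] at h
    rw [hp]
    exact h
  have hBpA : ∀ j x, B j (p j (A j x)) = T j x := by
    intro j x
    rw [hp]
    exact hBA j x
  -- the system
  let nn : ℕ → ℕ := fun k => if k = 0 then 0 else n (4 * k)
  let ee : ℕ → ℕ → X := fun k => extFin (e (4 * k))
  let ff : ℕ → ℕ → X →L[ℂ] ℂ := fun k => extFin (f (4 * k))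
  let AA : ℕ → X →L[ℂ] X := fun k =>
    if k = 0 then 0 else ((p (4 * k)).comp (A (4 * k))).comp (T (4 * k + 1))
  let BB : ℕ → X →L[ℂ] X := fun k =>
    if k = 0 then 0 else (T (4 * k + 1)).comp ((B (4 * k)).comp (p (4 * k)))
  let RR : ℕ → X →L[ℂ] X := fun k => if k = 0 then 0 else T (4 * k - 2)
  have hAA : ∀ k, k ≠ 0 → ∀ x, AA k x = p (4 * k) (A (4 * k) (T (4 * k + 1) x)) := by
    intro k hk x
    simp only [AA, if_neg hk]
    rfl
  have hBB : ∀ k, k ≠ 0 → ∀ x, BB k x = T (4 * k + 1) (B (4 * k) (p (4 * k) x)) := by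
    intro k hk x
    simp only [BB, if_neg hk]
    rfl
  have hRR : ∀ k, k ≠ 0 → ∀ x, RR k x = T (4 * k - 2) x := by
    intro k hk x
    simp only [RR, if_neg hk]
  have hBA' : ∀ k, k ≠ 0 → ∀ x, BB k (AA k x) = T (4 * k) x := by
    intro k hk x
    rw [hAA k hk, hBB k hk, hpp, hBpA, hT1 (4 * k) (4 * k + 1) (by omega),
      hT2 (4 * k) (4 * k + 1) (by omega)]
  let K : ℝ := 1 + C + C * (C * C)
  have hCK : C ≤ K := by
    have : 0 ≤ C * (C * C) := by positivity
    simp only [K]
    linarith
  have hCCK : C * (C * C) ≤ K := by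
    simp only [K]
    linarith
  have hK : 0 ≤ K := hC.trans hCK
  let S : Sys X :=
    { K := K
      hK := hK
      A := AA
      B := BB
      R := RR
      n := nn
      e := ee
      f := ff
      n0 := by simp [nn]
      npos := by
        intro k hk
        simp only [nn, if_neg hk.ne']
        exact hn _
      bi := by
        intro k i j hi hj
        by_cases hk : k = 0
        · simp [nn, hk] at hi
        · simp only [nn, if_neg hk] at hi hj
          simp only [ff, ee]
          rw [extFin_of_lt _ _ hi, extFin_of_lt _ _ hj, hbi]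
          simp only [Fin.mk.injEq]
      ps := by
        intro k r hr x
        by_cases hk : k = 0
        · simp only [nn, if_pos hk, Nat.le_zero] at hr
          subst hr
          simp only [Finset.range_zero, Finset.sum_empty, norm_zero]
          positivity
        · simp only [nn, if_neg hk] at hr
          simp only [ff, ee]
          rw [sum_extFin_le _ _ _ _ hr]
          exact (hps _ _ _).trans (mul_le_mul_of_nonneg_right hCK (norm_nonneg x))
      piA := by
        intro k x
        by_cases hk : k = 0
        · subst hk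
          simp [nn, AA]
        · simp only [nn, if_neg hk, ff, ee]
          rw [sum_extFin, ← hp, hAA k hk, hpp]
      hA := by
        intro i k hik x
        by_cases hi : i = 0
        · subst hi
          simp [AA]
        · have hk : k ≠ 0 := by omega
          rw [hBA' k hk, hAA i hi, hAA i hi, hT1 (4 * i + 1) (4 * k) (by omega)]
      hAR := by
        intro i k hik x
        by_cases hi : i = 0
        · subst hi
          simp [AA]
        · have hk : k ≠ 0 := by omega
          rw [hRR k hk, hAA i hi, hAA i hi, hT1 (4 * i + 1) (4 * k - 2) (by omega)]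
      hB := by
        intro i k hik x
        by_cases hi : i = 0
        · subst hi
          simp [BB]
        · have hk : k ≠ 0 := by omega
          rw [hBA' k hk, hBB i hi, hT2 (4 * i + 1) (4 * k) (by omega)]
      hRR := by
        intro k x
        by_cases hk : k = 0
        · subst hk
          simp [RR]
        · rw [hBA' k hk, hRR k hk, hRR k hk, hT1 (4 * k - 2) (4 * k) (by omega)]
      nA := by
        intro k x
        by_cases hk : k = 0
        · subst hk
          simp only [AA, if_pos rfl, zero_apply, norm_zero]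
          positivity
        · rw [hAA k hk]
          refine le_trans ?_ (mul_le_mul_of_nonneg_right hCCK (norm_nonneg x))
          rw [mul_assoc, mul_assoc]
          exact (hpn _ _).trans (mul_le_mul_of_nonneg_left ((hAn _ _).trans
            (mul_le_mul_of_nonneg_left (hTn _ _) hC)) hC)
      nB := by
        intro k x
        by_cases hk : k = 0
        · subst hk
          simp only [BB, if_pos rfl, zero_apply, norm_zero]
          positivity
        · rw [hBB k hk]
          refine le_trans ?_ (mul_le_mul_of_nonneg_right hCCK (norm_nonneg x))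
          rw [mul_assoc, mul_assoc]
          exact (hTn _ _).trans (mul_le_mul_of_nonneg_left ((hBn _ _).trans
            (mul_le_mul_of_nonneg_left (hpn _ _) hC)) hC)
      nR := by
        intro k x
        by_cases hk : k = 0
        · subst hk
          simp only [RR, if_pos rfl, zero_apply, norm_zero]
          positivity
        · rw [hRR k hk]
          exact (hTn _ _).trans (mul_le_mul_of_nonneg_right hCK (norm_nonneg x))
      A0 := by simp [AA]
      B0 := by simp [BB]
      lim := by
        intro x
        have h : Tendsto (fun k : ℕ => T (4 * k) x) atTop (𝓝 x) := by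
          have h4 : Tendsto (fun k : ℕ => 4 * k) atTop atTop :=
            tendsto_atTop_mono (fun k => by show k ≤ 4 * k; omega) tendsto_id
          exact (hTlim x).comp h4
        refine h.congr' ?_
        filter_upwards [eventually_gt_atTop 0] with k hk
        exact (hBA' k hk.ne' x).symm }
  exact S.basis_of_retract hJ

end HBasis
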