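import Pool.Agent.HBasis.Defs

/-!
The Bellman function `U` and the one-step inequality.
-/

set_option autoImplicit false

open Finset

namespace HBasis

/-- The Bellman function. -/
noncomputable def U (y v : ℂ) : ℝ := 4 * √2 * ‖y + v‖ - √(‖y‖ ^ 2 + ‖v‖ ^ 2)

lemma U_comm (y v : ℂ) : U y v = U v y := by
  unfold U; rw [add_comm y v, add_comm (‖y‖ ^ 2)]

lemma sqrt2_ge_one : (1 : ℝ) ≤ √2 := by
  rw [show (1 : ℝ) = √1 by simp]; exact Real.sqrt_le_sqrt (by norm_num)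

lemma U_zero_right_nonneg (y : ℂ) : 0 ≤ U y 0 := by
  unfold U
  have h : √(‖y‖ ^ 2 + ‖(0 : ℂ)‖ ^ 2) = ‖y‖ := by
    simp
  rw [h, add_zero]
  nlinarith [sqrt2_ge_one, norm_nonneg y]

lemma U_zero_left_nonneg (v : ℂ) : 0 ≤ U 0 v := by
  rw [U_comm]; exact U_zero_right_nonneg v

lemma U_smul (c y v : ℂ) (hc : ‖c‖ = 1) : U (c * y) (c * v) = U y v := by
  unfold U; rw [← mul_add]; simp [hc]

lemma U_le (y v : ℂ) : U y v ≤ 4 * √2 * ‖y + v‖ - ‖y‖ := by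
  unfold U
  have : ‖y‖ ≤ √(‖y‖ ^ 2 + ‖v‖ ^ 2) := Real.le_sqrt_of_sq_le (by nlinarith [sq_nonneg ‖v‖])
  linarith

lemma norm_add_ge (a : ℝ) (z : ℂ) (ha : 0 ≤ a) (hz : 0 < a + ‖z‖) :
    a + z.re + z.im ^ 2 / (2 * (a + ‖z‖)) ≤ ‖(a : ℂ) + z‖ := by
  set r := ‖(a : ℂ) + z‖ with hr
  have h1 : r ≤ a + ‖z‖ := by
    calc r ≤ ‖(a : ℂ)‖ + ‖z‖ := norm_add_le _ _
      _ = a + ‖z‖ := by simp [abs_of_nonneg ha]
  have h2 : r ^ 2 = (a + z.re) ^ 2 + z.im ^ 2 := by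
    rw [hr, ← Complex.normSq_eq_norm_sq, Complex.normSq_apply]
    simp; ring
  have h3 : a + z.re ≤ r := by
    have := Complex.re_le_norm ((a : ℂ) + z)
    simpa using this
  rw [← le_sub_iff_add_le', div_le_iff₀ (by positivity)]
  nlinarith

section step

variable {S : Type} [Fintype S] [Nonempty S] (s : S → ℂ)

lemma sum_norm_add_ge (hs : ∀ i, ‖s i‖ = 1) (h1 : ∑ i, s i = 0) (h2 : ∑ i, s i ^ 2 = 0)
    (x p : ℂ) (hp : 0 < ‖x‖ + ‖p‖) :
    (Fintype.card S : ℝ) * (‖x‖ + ‖p‖ ^ 2 / (4 * (‖x‖ + ‖p‖))) ≤ ∑ i, ‖x + s i * p‖ := by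
  by_cases hx : x = 0
  · subst hx
    simp only [norm_zero, zero_add] at hp ⊢
    have : ∀ i, ‖s i * p‖ = ‖p‖ := fun i => by rw [norm_mul, hs, one_mul]
    simp only [this, sum_const, card_univ, nsmul_eq_mul]
    apply mul_le_mul_of_nonneg_left _ (by positivity)
    rw [div_le_iff₀ (by positivity)]
    nlinarith
  · have hxn : 0 < ‖x‖ := norm_pos_iff.mpr hx
    set e : ℂ := (starRingEnd ℂ) x / ‖x‖ with he
    have hen : ‖e‖ = 1 := by
      rw [he, norm_div]; simp [hx]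
    have hex : e * x = (‖x‖ : ℂ) := by
      rw [he, div_mul_eq_mul_div, mul_comm, Complex.mul_conj, Complex.normSq_eq_norm_sq]
      push_cast
      field_simp
    have key : ∀ i, ‖x‖ + (e * (s i * p)).re + (e * (s i * p)).im ^ 2 / (2 * (‖x‖ + ‖p‖)) ≤
        ‖x + s i * p‖ := by
      intro i
      have hz : ‖e * (s i * p)‖ = ‖p‖ := by rw [norm_mul, norm_mul, hs, hen]; ring
      have := norm_add_ge ‖x‖ (e * (s i * p)) hxn.le (by rw [hz]; exact hp)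
      rw [hz] at this
      refine this.trans (le_of_eq ?_)
      rw [← hex, ← mul_add, norm_mul, hen, one_mul]
    have hsum := Finset.sum_le_sum (fun i (_ : i ∈ (univ : Finset S)) => key i)
    refine le_trans (le_of_eq ?_) hsum
    rw [sum_add_distrib, sum_add_distrib]
    have e1 : ∑ i, (e * (s i * p)).re = 0 := by
      rw [← Complex.re_sum]
      have : ∑ i, e * (s i * p) = e * p * ∑ i, s i := by rw [mul_sum]; congr 1; ext i; ring
      rw [this, h1]; simp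
    have e2 : ∑ i, (e * (s i * p)).im ^ 2 / (2 * (‖x‖ + ‖p‖)) =
        (Fintype.card S : ℝ) * (‖p‖ ^ 2 / (4 * (‖x‖ + ‖p‖))) := by
      have h3 : ∀ i, (e * (s i * p)).im ^ 2 = (‖p‖ ^ 2 - ((e * (s i * p)) ^ 2).re) / 2 := by
        intro i
        have hz : ‖e * (s i * p)‖ = ‖p‖ := by rw [norm_mul, norm_mul, hs, hen]; ring
        rw [← hz]
        generalize e * (s i * p) = z
        rw [← Complex.normSq_eq_norm_sq, Complex.normSq_apply, pow_two z, Complex.mul_re]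
        ring
      rw [← sum_div]
      simp_rw [h3]
      rw [← sum_div, sum_sub_distrib, ← Complex.re_sum]
      have : ∑ i, (e * (s i * p)) ^ 2 = (e * p) ^ 2 * ∑ i, s i ^ 2 := by
        rw [mul_sum]; congr 1; ext i; ring
      rw [this, h2]
      simp only [sum_const, card_univ, nsmul_eq_mul, mul_zero, Complex.zero_re, sub_zero]
      field_simp
      ring
    rw [e1, e2]
    simp only [sum_const, card_univ, nsmul_eq_mul]
    ring

lemma sum_sqrt_le (hs : ∀ i, ‖s i‖ = 1) (h1 : ∑ i, s i = 0) (y v p : ℂ) :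
    ∑ i, √(‖y + s i * p‖ ^ 2 + ‖v‖ ^ 2) ≤
      (Fintype.card S : ℝ) * √(‖y‖ ^ 2 + ‖v‖ ^ 2 + ‖p‖ ^ 2) := by
  set b := ‖y‖ ^ 2 + ‖v‖ ^ 2 + ‖p‖ ^ 2 with hb
  have hb0 : 0 ≤ b := by positivity
  have hsq : ∑ i, (‖y + s i * p‖ ^ 2 + ‖v‖ ^ 2) = (Fintype.card S : ℝ) * b := by
    have h3 : ∀ i, ‖y + s i * p‖ ^ 2 + ‖v‖ ^ 2 = b + 2 * (s i * (p * (starRingEnd ℂ) y)).re := by
      intro i
      have e1 : ‖y + s i * p‖ ^ 2 = ‖y‖ ^ 2 + ‖s i * p‖ ^ 2 + 2 * (y * (starRingEnd ℂ) (s i * p)).re := by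
        rw [← Complex.normSq_eq_norm_sq, ← Complex.normSq_eq_norm_sq, ← Complex.normSq_eq_norm_sq,
          Complex.normSq_add]
      have e2 : (y * (starRingEnd ℂ) (s i * p)).re = (s i * (p * (starRingEnd ℂ) y)).re := by
        rw [← Complex.conj_re]
        congr 1
        simp only [map_mul, Complex.conj_conj]
        ring
      rw [e1, e2, norm_mul, hs, hb]; ring
    simp_rw [h3]
    rw [sum_add_distrib, ← mul_sum, ← Complex.re_sum, ← sum_mul, h1]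
    simp
  rcases hb0.eq_or_lt with h0 | hpos
  · have hall : ∀ i ∈ (univ : Finset S), ‖y + s i * p‖ ^ 2 + ‖v‖ ^ 2 = 0 := by
      have := hsq
      rw [← h0, mul_zero] at this
      exact (Finset.sum_eq_zero_iff_of_nonneg (fun i _ => by positivity)).mp this
    rw [← h0]
    simp only [Real.sqrt_zero, mul_zero]
    apply le_of_eq
    apply Finset.sum_eq_zero
    intro i hi
    rw [hall i hi, Real.sqrt_zero]
  · have hsb : 0 < √b := Real.sqrt_pos.mpr hpos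
    have key : ∀ i, √(‖y + s i * p‖ ^ 2 + ‖v‖ ^ 2) ≤
        ((‖y + s i * p‖ ^ 2 + ‖v‖ ^ 2) / √b + √b) / 2 := by
      intro i
      set a := ‖y + s i * p‖ ^ 2 + ‖v‖ ^ 2
      have ha : 0 ≤ a := by positivity
      rw [le_div_iff₀ (by norm_num), ← sub_nonneg]
      have : a / √b + √b - √a * 2 = (√a - √b) ^ 2 / √b := by
        field_simp
        rw [Real.sq_sqrt hpos.le]
        have := Real.sq_sqrt ha
        have := Real.sq_sqrt hpos.le
        nlinarith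
      rw [this]; positivity
    refine (Finset.sum_le_sum (fun i _ => key i)).trans (le_of_eq ?_)
    rw [← sum_div, sum_add_distrib, ← sum_div, hsq]
    simp only [sum_const, card_univ, nsmul_eq_mul]
    have := Real.mul_self_sqrt hpos.le
    field_simp
    nlinarith

lemma U_step (hs : ∀ i, ‖s i‖ = 1) (h1 : ∑ i, s i = 0) (h2 : ∑ i, s i ^ 2 = 0) (y v p : ℂ) :
    (Fintype.card S : ℝ) * U y v ≤ ∑ i, U (y + s i * p) v := by
  by_cases hp0 : p = 0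
  · subst hp0; simp
  have hpn : 0 < ‖p‖ := norm_pos_iff.mpr hp0
  have hxp : 0 < ‖y + v‖ + ‖p‖ := by positivity
  have a1 := sum_norm_add_ge s hs h1 h2 (y + v) p hxp
  have a2 := sum_sqrt_le s hs h1 y v p
  have a3 : ∑ i, U (y + s i * p) v = 4 * √2 * ∑ i, ‖y + v + s i * p‖ -
      ∑ i, √(‖y + s i * p‖ ^ 2 + ‖v‖ ^ 2) := by
    unfold U
    rw [sum_sub_distrib, mul_sum]
    congr 2
    ext i
    congr 2
    ring
  rw [a3]
  have hcard : (0 : ℝ) < Fintype.card S := by exact_mod_cast Fintype.card_pos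
  set R := √(‖y‖ ^ 2 + ‖v‖ ^ 2) with hR
  set Q := √(‖y‖ ^ 2 + ‖v‖ ^ 2 + ‖p‖ ^ 2) with hQ
  have hR0 : 0 ≤ R := Real.sqrt_nonneg _
  have hQ0 : 0 ≤ Q := Real.sqrt_nonneg _
  have hR2 : R ^ 2 = ‖y‖ ^ 2 + ‖v‖ ^ 2 := Real.sq_sqrt (by positivity)
  have hQ2 : Q ^ 2 = ‖y‖ ^ 2 + ‖v‖ ^ 2 + ‖p‖ ^ 2 := Real.sq_sqrt (by positivity)
  have hs2 : √2 * √2 = 2 := Real.mul_self_sqrt (by norm_num)
  have hs1 := sqrt2_ge_one
  have hRQ : R ≤ Q := Real.sqrt_le_sqrt (by nlinarith [sq_nonneg ‖p‖])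
  have hpQ : ‖p‖ ≤ Q := Real.le_sqrt_of_sq_le (by nlinarith [sq_nonneg ‖y‖, sq_nonneg ‖v‖])
  have hx : ‖y + v‖ ≤ √2 * R := by
    have : ‖y + v‖ ≤ ‖y‖ + ‖v‖ := norm_add_le _ _
    have h3 : (‖y‖ + ‖v‖) ≤ √2 * R := by
      apply le_of_sq_le_sq _ (by positivity)
      rw [mul_pow, hR2, Real.sq_sqrt (by norm_num)]
      nlinarith [sq_nonneg (‖y‖ - ‖v‖)]
    linarith
  have main : Q - R ≤ √2 * (‖p‖ ^ 2 / (‖y + v‖ + ‖p‖)) := by
    rw [← mul_div_assoc, le_div_iff₀ hxp]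
    have b1 : (Q - R) * (‖y + v‖ + ‖p‖) ≤ (Q - R) * (√2 * (R + Q)) := by
      apply mul_le_mul_of_nonneg_left _ (by linarith)
      nlinarith
    have b2 : (Q - R) * (√2 * (R + Q)) = √2 * ‖p‖ ^ 2 := by
      have : (Q - R) * (√2 * (R + Q)) = √2 * (Q ^ 2 - R ^ 2) := by ring
      rw [this, hQ2, hR2]; ring
    linarith
  have c1 : U y v = 4 * √2 * ‖y + v‖ - R := rfl
  have c2 : ‖p‖ ^ 2 / (4 * (‖y + v‖ + ‖p‖)) = (‖p‖ ^ 2 / (‖y + v‖ + ‖p‖)) / 4 := by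
    field_simp
  rw [c1]
  rw [c2] at a1
  have d1 : 4 * √2 * ((Fintype.card S : ℝ) * (‖y + v‖ + ‖p‖ ^ 2 / (‖y + v‖ + ‖p‖) / 4)) ≤
      4 * √2 * ∑ i, ‖y + v + s i * p‖ := mul_le_mul_of_nonneg_left a1 (by positivity)
  have d2 : (Fintype.card S : ℝ) * (Q - R) ≤
      (Fintype.card S : ℝ) * (√2 * (‖p‖ ^ 2 / (‖y + v‖ + ‖p‖))) :=
    mul_le_mul_of_nonneg_left main hcard.le
  nlinarith

lemma U_step' (hs : ∀ i, ‖s i‖ = 1) (h1 : ∑ i, s i = 0) (h2 : ∑ i, s i ^ 2 = 0) (y v p : ℂ) :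
    (Fintype.card S : ℝ) * U y v ≤ ∑ i, U y (v + s i * p) := by
  have := U_step s hs h1 h2 v y p
  rw [U_comm y v]
  refine this.trans (le_of_eq ?_)
  congr 1; ext i; rw [U_comm]

/-- conjugated step: `U (y + s p) (s q)` dominates `U p q`. -/
lemma U_step_conj (hs : ∀ i, ‖s i‖ = 1) (h1 : ∑ i, s i = 0) (h2 : ∑ i, s i ^ 2 = 0) (y p q : ℂ) :
    (Fintype.card S : ℝ) * U p q ≤ ∑ i, U (y + s i * p) (s i * q) := by
  have hs' : ∀ i, ‖(starRingEnd ℂ) (s i)‖ = 1 := fun i => by rw [RCLike.norm_conj, hs]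
  have h1' : ∑ i, (starRingEnd ℂ) (s i) = 0 := by rw [← map_sum, h1, map_zero]
  have h2' : ∑ i, (starRingEnd ℂ) (s i) ^ 2 = 0 := by
    simp_rw [← map_pow]; rw [← map_sum, h2, map_zero]
  have := U_step (fun i => (starRingEnd ℂ) (s i)) hs' h1' h2' p q y
  refine this.trans (le_of_eq ?_)
  congr 1; ext i
  have hsi : s i * (starRingEnd ℂ) (s i) = 1 := by
    rw [Complex.mul_conj, Complex.normSq_eq_norm_sq, hs]; simp
  rw [← U_smul (s i) (p + (starRingEnd ℂ) (s i) * y) q (hs i)]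
  congr 1
  rw [mul_add, ← mul_assoc, hsi]; ring

end step

end HBasis
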