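import Pool.Agent.HBasis.Trunc

/-!
Invariance of the norm under renaming of variables and splitting into blocks.
-/

set_option autoImplicit false

open MeasureTheory Finset

namespace HBasis

/-- Haar measure of the torus with index set `σ`. -/
noncomputable abbrev mS (σ : Type) : Measure (σ → AddCircle (1 : ℝ)) :=
  Measure.infinitePi (fun _ : σ => (AddCircle.haarAddCircle : Measure (AddCircle (1 : ℝ))))

lemma pnorm_def {σ : Type} (p : MvPolynomial σ ℂ) :
    pnorm p = ∫ θ, ‖MvPolynomial.eval (fun i => (fourier 1 (θ i) : ℂ)) p‖ ∂(mS σ) := rfl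

theorem pnorm_rename {σ τ : Type} (f : σ → τ) (hf : Function.Injective f) (p : MvPolynomial σ ℂ) :
    pnorm (MvPolynomial.rename f p) = pnorm p := by
  classical
  have hS := isSteinhaus_fourier τ
  have h : IsSteinhaus (mS τ) (fun (θ : τ → AddCircle (1 : ℝ)) (i : σ) => (fourier 1 (θ (f i)) : ℂ)) := by
    refine ⟨fun i => hS.meas (f i), fun θ i => hS.norm_one θ (f i), ?_⟩
    intro ν ν' hne
    have h1 := hS.orth (ν.mapDomain f) (ν'.mapDomain f)
      (fun hc => hne (Finsupp.mapDomain_injective hf hc))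
    have h2 : ∀ (μ : σ →₀ ℕ) (θ : τ → AddCircle (1 : ℝ)),
        ((μ.mapDomain f).prod fun i k => (fourier 1 (θ i) : ℂ) ^ k) =
        (μ.prod fun i k => (fourier 1 (θ (f i)) : ℂ) ^ k) := by
      intro μ θ
      rw [Finsupp.prod_mapDomain_index_inj hf]
    simp_rw [h2] at h1
    exact h1
  rw [← h.integral_norm_eval p, pnorm_def]
  congr 1
  ext θ
  rw [MvPolynomial.eval_rename]
  rfl

/-- the block structure -/
theorem pnorm_curry (d : ℕ) (p : MvPolynomial (Fin d × ℕ) ℂ) :
    pnorm p = ∫ θ : Fin d → ℕ → AddCircle (1 : ℝ),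
      ‖MvPolynomial.eval (fun x => wv (θ x.1) x.2) p‖ ∂(Measure.pi fun _ : Fin d => mInf) := by
  have h := Measure.infinitePi_map_curry (ι := Fin d) (κ := ℕ) (X := AddCircle (1 : ℝ))
    (fun _ _ => (AddCircle.haarAddCircle : Measure (AddCircle (1 : ℝ))))
  rw [Measure.infinitePi_eq_pi (ι := Fin d)] at h
  rw [← h, pnorm_def]
  rw [integral_map (MeasurableEquiv.measurable _).aemeasurable]
  · rfl
  · apply Measurable.aestronglyMeasurable
    apply Measurable.norm
    simp_rw [eval_eq_sum]
    apply Finset.measurable_fun_sum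
    intro ν _
    apply Measurable.const_mul
    unfold Finsupp.prod
    apply Finset.measurable_fun_prod
    intro x _
    apply Measurable.pow_const
    unfold wv
    apply (fourier (T := (1 : ℝ)) 1).continuous.measurable.comp
    exact (measurable_pi_apply x.2).comp (measurable_pi_apply x.1)

theorem pnorm_fin (d : ℕ) (p : MvPolynomial (Fin d) ℂ) :
    pnorm p = ∫ θ : Fin d → AddCircle (1 : ℝ),
      ‖MvPolynomial.eval (fun i => (fourier 1 (θ i) : ℂ)) p‖ ∂(Measure.pi fun _ : Fin d => hA) := by
  have h := Measure.infinitePi_eq_pi (ι := Fin d) (X := fun _ => AddCircle (1 : ℝ))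
    (μ := fun _ => (AddCircle.haarAddCircle : Measure (AddCircle (1 : ℝ))))
  rw [pnorm_def]
  show ∫ θ, _ ∂(Measure.infinitePi _) = _
  rw [h]

end HBasis
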