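import Mathlib

/-!
Common definitions for the proof that `H¹` of the infinite torus has a Schauder basis.
-/

set_option autoImplicit false

open MeasureTheory

namespace HBasis

/-- `K`-th roots of unity. -/
noncomputable def rt (K : ℕ) (a : Fin K) : ℂ :=
  Complex.exp (2 * Real.pi * Complex.I * ((a : ℕ) : ℂ) / (K : ℂ))

/-- The probability space of the walk with `M` steps. -/
def Om (K : ℕ) : ℕ → Type
  | 0 => Unit
  | (M + 1) => Om K M × Fin K

/-- The index set of the basis of the space of simple Hardy martingales with `M` steps. -/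
def Xi (K : ℕ) : ℕ → Type
  | 0 => Unit
  | (M + 1) => Xi K M ⊕ Om K M

instance instFintypeOm (K : ℕ) : ∀ M, Fintype (Om K M)
  | 0 => inferInstanceAs (Fintype Unit)
  | (M + 1) => by
      haveI := instFintypeOm K M
      exact inferInstanceAs (Fintype (Om K M × Fin K))

instance instDecEqOm (K : ℕ) : ∀ M, DecidableEq (Om K M)
  | 0 => inferInstanceAs (DecidableEq Unit)
  | (M + 1) => by
      haveI := instDecEqOm K M
      exact inferInstanceAs (DecidableEq (Om K M × Fin K))

instance instFintypeXi (K : ℕ) : ∀ M, Fintype (Xi K M)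
  | 0 => inferInstanceAs (Fintype Unit)
  | (M + 1) => by
      haveI := instFintypeXi K M
      exact inferInstanceAs (Fintype (Xi K M ⊕ Om K M))

instance instDecEqXi (K : ℕ) : ∀ M, DecidableEq (Xi K M)
  | 0 => inferInstanceAs (DecidableEq Unit)
  | (M + 1) => by
      haveI := instDecEqXi K M
      exact inferInstanceAs (DecidableEq (Xi K M ⊕ Om K M))

/-- The basis functions. -/
noncomputable def bet (K : ℕ) : (M : ℕ) → Xi K M → Om K M → ℂ
  | 0 => fun _ _ => 1
  | (M + 1) => fun ξ ω =>
      match ξ with
      | Sum.inl ξ' => bet K M ξ' ω.1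
      | Sum.inr a => if ω.1 = a then rt K ω.2 else 0

/-- Normalised average over a finite type. -/
noncomputable def avg {Ω : Type*} [Fintype Ω] (f : Ω → ℝ) : ℝ :=
  (∑ ω, f ω) / (Fintype.card Ω : ℝ)

/-- Normalised average over a finite type, complex valued. -/
noncomputable def cavg {Ω : Type*} [Fintype Ω] (f : Ω → ℂ) : ℂ :=
  (∑ ω, f ω) / (Fintype.card Ω : ℂ)

/-- the norm of a polynomial in arbitrary many variables in `L¹` of the torus. -/
noncomputable def pnorm {σ : Type} (p : MvPolynomial σ ℂ) : ℝ :=
  ∫ θ : σ → AddCircle (1 : ℝ), ‖MvPolynomial.eval (fun i => fourier 1 (θ i)) p‖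
    ∂(Measure.infinitePi (fun _ : σ => (AddCircle.haarAddCircle : Measure (AddCircle (1 : ℝ)))))

end HBasis
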