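import Pool.Agent.HBasis.EmbedStep

set_option autoImplicit false

open MeasureTheory Filter Topology

namespace HBasis.Emb

/-- integration over an arc as a functional on `L¹` -/
noncomputable def arcL (K : ℕ) (b : Fin K) : Lp ℂ 1 hm →L[ℂ] ℂ :=
  LinearMap.mkContinuous
    { toFun := fun f => ∫ θ in arc K b, f θ ∂hm
      map_add' := by
        intro f g
        have h1 : ∫ θ in arc K b, (f + g : Lp ℂ 1 hm) θ ∂hm =
            ∫ θ in arc K b, (f θ + g θ) ∂hm :=
          integral_congr_ae (ae_restrict_of_ae (Lp.coeFn_add f g))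
        rw [h1, integral_add (L1.integrable_coeFn f).integrableOn
          (L1.integrable_coeFn g).integrableOn]
      map_smul' := by
        intro z f
        have h1 : ∫ θ in arc K b, (z • f : Lp ℂ 1 hm) θ ∂hm =
            ∫ θ in arc K b, z • f θ ∂hm :=
          integral_congr_ae (ae_restrict_of_ae (Lp.coeFn_smul z f))
        rw [h1, integral_smul]
        rfl } 1 (by
      intro f
      rw [one_mul, L1.norm_eq_integral_norm]
      refine (norm_integral_le_integral_norm _).trans ?_
      exact setIntegral_le_integral (L1.integrable_coeFn f).norm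
        (Eventually.of_forall fun _ => norm_nonneg _))

theorem arcL_apply (K : ℕ) (b : Fin K) (f : Lp ℂ 1 hm) :
    arcL K b f = ∫ θ in arc K b, f θ ∂hm := rfl

/-- trigonometric polynomial -/
noncomputable def tp (c : ℤ →₀ ℂ) : C(C1, ℂ) := c.sum fun k z => z • fourier k

theorem tp_apply (c : ℤ →₀ ℂ) (θ : C1) : tp c θ = c.sum fun k z => z * fourier k θ := by
  rw [tp, Finsupp.sum, Finsupp.sum, ContinuousMap.sum_apply]
  rfl

theorem exists_trig {K : ℕ} (hK : 0 < K) {δ : ℝ} (hδ : 0 < δ) (a : Fin K) : ∃ c : ℤ →₀ ℂ,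
    (∀ b, ∫ θ in arc K b, tp c θ ∂hm = if a = b then (1 : ℂ) / (K : ℂ) else 0) ∧
    ∫ θ, ‖tp c θ - (arc K a).indicator (fun _ => (1 : ℂ)) θ‖ ∂hm ≤ δ := by
  classical
  have hW : Dense ((Submodule.span ℂ (Set.range (fourierLp (T := (1 : ℝ)) 1)) :
      Submodule ℂ (Lp ℂ 1 hm)) : Set (Lp ℂ 1 hm)) := by
    rw [Submodule.dense_iff_topologicalClosure_eq_top]
    exact span_fourierLp_closure_eq_top ENNReal.one_ne_top
  let x : Lp ℂ 1 hm := indicatorConstLp 1 (arc_meas K a) (measure_ne_top hm (arc K a)) (1 : ℂ)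
  have hx : x =ᵐ[hm] (arc K a).indicator (fun _ => (1 : ℂ)) := indicatorConstLp_coeFn
  obtain ⟨w, hwW, hw1, hw2⟩ := dense_exact _ hW
    (ContinuousLinearMap.pi (fun b => arcL K b) : Lp ℂ 1 hm →L[ℂ] (Fin K → ℂ)) x hδ
  obtain ⟨c, hc⟩ := Finsupp.mem_span_range_iff_exists_finsupp.1 hwW
  have hcw : ContinuousMap.toLp 1 hm ℂ (tp c) = w := by
    rw [← hc, tp, map_finsuppSum]
    refine Finsupp.sum_congr fun k _ => ?_
    rw [map_smul]
  have hcw' : w =ᵐ[hm] tp c := by
    rw [← hcw]
    exact ContinuousMap.coeFn_toLp hm (tp c)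
  refine ⟨c, fun b => ?_, ?_⟩
  · have h1 := congrFun hw1 b
    simp only [ContinuousLinearMap.coe_pi'] at h1
    rw [arcL_apply, arcL_apply] at h1
    rw [← integral_congr_ae (ae_restrict_of_ae hcw'), h1,
      integral_congr_ae (ae_restrict_of_ae hx)]
    by_cases hab : a = b
    · subst hab
      rw [if_pos rfl, ← int_arc_one hK a]
      exact setIntegral_congr_fun (arc_meas K a) fun θ hθ => Set.indicator_of_mem hθ _
    · rw [if_neg hab]
      refine setIntegral_eq_zero_of_forall_eq_zero fun θ hθ => ?_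
      refine Set.indicator_of_notMem ?_ _
      intro h
      rw [← qf_pre hK] at hθ h
      exact hab (h.symm.trans hθ)
  · refine le_of_eq_of_le ?_ hw2
    rw [L1.norm_eq_integral_norm]
    refine integral_congr_ae ?_
    filter_upwards [Lp.coeFn_sub w x, hcw', hx] with θ h1 h2 h3
    rw [h1, Pi.sub_apply, h2, h3]

theorem tp_poly (c : ℤ →₀ ℂ) (D : ℕ) (hD : ∀ k ∈ c.support, k.natAbs ≤ D) (θ : C1) :
    tp c θ = (∑ j ∈ Finset.range (2 * D + 1), c ((j : ℤ) - D) * (fourier 1 θ : ℂ) ^ j) *
      (starRingEnd ℂ) (fourier 1 θ : ℂ) ^ D := by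
  have hpow : ∀ (k : ℕ), (fourier 1 θ : ℂ) ^ k = fourier (k : ℤ) θ := by
    intro k
    rw [fourier_apply, fourier_apply]
    simp only [one_smul, natCast_zsmul]
    rw [AddCircle.toCircle_nsmul]
    simp
  rw [tp_apply]
  let e : ℕ ↪ ℤ := ⟨fun j => (j : ℤ) - D, fun i j h => by simpa using h⟩
  have hsub : c.support ⊆ (Finset.range (2 * D + 1)).map e := by
    intro k hk
    rw [Finset.mem_map]
    have := hD k hk
    refine ⟨(k + D).toNat, ?_, ?_⟩
    · rw [Finset.mem_range]
      omega
    · change (((k + D).toNat : ℕ) : ℤ) - D = k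
      omega
  rw [Finsupp.sum_of_support_subset c hsub (fun k z => z * (fourier k θ : ℂ))
    (fun i _ => zero_mul _), Finset.sum_map, Finset.sum_mul]
  refine Finset.sum_congr rfl fun j _ => ?_
  change c ((j : ℤ) - D) * (fourier ((j : ℤ) - D) θ : ℂ) = _
  rw [mul_assoc, sub_eq_add_neg, fourier_add, hpow, ← map_pow, hpow, ← fourier_neg]

/-- existence of the one step data -/
theorem exists_step {ε : ℝ} (hε : 0 < ε) : ∃ K₀ : ℕ, 2 ≤ K₀ ∧ ∀ K ≥ K₀, Nonempty (StepData K ε) := by
  classical
  obtain ⟨K₁, hK₁⟩ := exists_nat_gt (8 * Real.pi / ε)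
  refine ⟨max 13 K₁, by omega, fun K hK => ?_⟩
  have hK13 : 13 ≤ K := by omega
  have hK0 : 0 < K := by omega
  have hKR : (0 : ℝ) < K := by exact_mod_cast hK0
  have hK1 : K₁ ≤ K := by omega
  have hcl : 8 * Real.pi / K ≤ ε := by
    rw [div_le_iff₀ hKR]
    rw [div_lt_iff₀ hε] at hK₁
    have : (K₁ : ℝ) ≤ K := by exact_mod_cast hK1
    nlinarith
  choose c hc1 hc2 using fun a => exists_trig hK0 (div_pos hε hKR) a
  obtain ⟨D, hD⟩ : ∃ D : ℕ, ∀ a, ∀ k ∈ (c a).support, k.natAbs ≤ D := by
    refine ⟨∑ a, ∑ k ∈ (c a).support, k.natAbs, fun a k hk => ?_⟩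
    refine (Finset.single_le_sum (f := fun k : ℤ => k.natAbs) (fun _ _ => Nat.zero_le _) hk).trans ?_
    exact Finset.single_le_sum (f := fun a => ∑ k ∈ (c a).support, k.natAbs)
      (fun _ _ => Nat.zero_le _) (Finset.mem_univ a)
  have hγ : gam K ≠ 0 := by
    intro h
    have h2 := gam_close (by omega : 7 ≤ K)
    rw [h, zero_sub, norm_neg, norm_one, le_div_iff₀ hKR] at h2
    have h1 := Real.pi_lt_d2
    have h3 : (13 : ℝ) ≤ K := by exact_mod_cast hK13
    linarith
  exact ⟨{
    T := C1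
    μ := hm
    u := fun θ => fourier 1 θ
    meas_u := (fourier 1).continuous.measurable
    norm_u := fun θ => by rw [fourier_one]; exact Circle.norm_coe _
    orth_u := fun n hn => by
      have h1 : ∀ θ : C1, (fourier 1 θ : ℂ) ^ n = fourier (n : ℤ) θ := by
        intro θ
        rw [fourier_apply, fourier_apply]
        simp only [one_smul, natCast_zsmul]
        rw [AddCircle.toCircle_nsmul]
        simp
      simp only [h1]
      rw [integral_fourier, if_neg (by exact_mod_cast hn.ne')]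
    q := qf hK0
    meas_q := fun b => by rw [qf_pre]; exact arc_meas K b
    γ := gam K
    γ_ne := hγ
    int_one := fun b => by rw [qf_pre]; exact int_arc_one hK0 b
    int_u := fun b => by rw [qf_pre]; exact int_arc_u hK0 b
    close := fun θ => (close_aux hK0 hK13 θ).trans hcl
    φ := fun a θ => tp (c a) θ
    int_φ := fun a => (tp (c a)).continuous.integrable_of_hasCompactSupport
      (HasCompactSupport.of_compactSpace _)
    D := D
    coef := fun a j => c a ((j : ℤ) - D)
    φ_eq := fun a θ => tp_poly (c a) D (hD a) θ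
    dual := fun a b => by rw [qf_pre]; exact hc1 a b
    approx := fun a => by
      refine le_of_eq_of_le ?_ (hc2 a)
      congr 1
      funext θ
      congr 2
      by_cases h : qf hK0 θ = a
      · rw [if_pos h, Set.indicator_of_mem]
        rw [← qf_pre hK0]
        exact h
      · rw [if_neg h, Set.indicator_of_notMem]
        rw [← qf_pre hK0]
        exact h }⟩

end HBasis.Emb
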