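import Pool.Agent.HBasis.EmbedFin
import Pool.Agent.HBasis.EmbedTrig

set_option autoImplicit false

open MeasureTheory Filter Topology

namespace HBasis

/-- TASK T3 (Embed.lean): the walk space is (1+η)-complemented in analytic polynomials. -/
theorem embed_factor (M : ℕ) (η : ℝ) (hη : 0 < η) :
    ∃ K₀ : ℕ, ∀ K ≥ K₀, ∃ (D : Xi K M → MvPolynomial ℕ ℂ)
      (D' : MvPolynomial ℕ ℂ →ₗ[ℂ] (Xi K M → ℂ)),
      (∀ c : Xi K M → ℂ,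
        pnorm (∑ ξ, c ξ • D ξ) ≤ (1 + η) * avg (fun s : Om K M => ‖∑ ξ, c ξ * bet K M ξ s‖)) ∧
      (∀ p : MvPolynomial ℕ ℂ,
        avg (fun s : Om K M => ‖∑ ξ, D' p ξ * bet K M ξ s‖) ≤ (1 + η) * pnorm p) ∧
      (∀ ξ, D' (D ξ) = Pi.single ξ 1) := by
  obtain ⟨ε, hε, hε'⟩ : ∃ ε : ℝ, 0 < ε ∧ (1 + ε) ^ M + 3 * ((1 + ε) ^ M - 1) ≤ 1 + η := by
    have h1 : Continuous fun ε : ℝ => (1 + ε) ^ M + 3 * ((1 + ε) ^ M - 1) := by fun_prop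
    have h2 : Tendsto (fun ε : ℝ => (1 + ε) ^ M + 3 * ((1 + ε) ^ M - 1)) (𝓝[>] 0) (𝓝 1) := by
      have := h1.tendsto 0
      simp only [add_zero, one_pow, sub_self, mul_zero] at this
      exact this.mono_left nhdsWithin_le_nhds
    have h3 : ∀ᶠ ε : ℝ in 𝓝[>] 0, (1 + ε) ^ M + 3 * ((1 + ε) ^ M - 1) < 1 + η :=
      h2.eventually (gt_mem_nhds (by linarith))
    obtain ⟨ε, h4, h5⟩ := (h3.and self_mem_nhdsWithin).exists
    exact ⟨ε, h5, h4.le⟩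
  obtain ⟨K₀, hK₀, hS⟩ := Emb.exists_step hε
  refine ⟨K₀, fun K hK => ?_⟩
  obtain ⟨S⟩ := hS K hK
  obtain ⟨L⟩ := Emb.exists_level (hK₀.trans hK) hε.le S M
  exact Emb.factor_of_level (hK₀.trans hK) L hε' hη.le

end HBasis

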