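import Pool.Agent.HBasis.EmbedSucc

set_option autoImplicit false

open MeasureTheory Filter Topology

namespace HBasis.Emb

theorem wf_add {K M : ℕ} (c d : Xi K M → ℂ) (s : Om K M) : wf (c + d) s = wf c s + wf d s := by
  simp only [wf_def, Pi.add_apply, add_mul, Finset.sum_add_distrib]

theorem wf_smul {K M : ℕ} (a : ℂ) (c : Xi K M → ℂ) (s : Om K M) : wf (a • c) s = a * wf c s := by
  simp only [wf_def, Pi.smul_apply, smul_eq_mul, Finset.mul_sum, mul_assoc]

theorem wf_inj {K : ℕ} (hK : 2 ≤ K) {M : ℕ} (c d : Xi K M → ℂ) (h : ∀ s, wf c s = wf d s) :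
    c = d := by
  funext ξ
  have h1 : ∀ s, wf (c + (-1 : ℂ) • d) s = 0 := by
    intro s
    rw [wf_add, wf_smul, h]
    ring
  have h2 := wf_eq_zero hK _ h1 ξ
  simp only [Pi.add_apply, Pi.smul_apply, smul_eq_mul] at h2
  linear_combination h2

theorem wf_single {K M : ℕ} (ξ : Xi K M) (s : Om K M) : wf (Pi.single ξ 1) s = bet K M ξ s := by
  rw [wf_def, Finset.sum_eq_single ξ]
  · simp
  · intro b _ hb
    rw [Pi.single_eq_of_ne hb, zero_mul]
  · intro h
    exact absurd (Finset.mem_univ _) h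

theorem factor_of_level {K M : ℕ} (hK : 2 ≤ K) {κ δ η : ℝ} (L : Level K M κ δ)
    (h : κ + δ ≤ 1 + η) (hη : 0 ≤ η) :
    ∃ (D : Xi K M → MvPolynomial ℕ ℂ)
      (D' : MvPolynomial ℕ ℂ →ₗ[ℂ] (Xi K M → ℂ)),
      (∀ c : Xi K M → ℂ,
        pnorm (∑ ξ, c ξ • D ξ) ≤ (1 + η) * avg (fun s : Om K M => ‖∑ ξ, c ξ * bet K M ξ s‖)) ∧
      (∀ p : MvPolynomial ℕ ℂ,
        avg (fun s : Om K M => ‖∑ ξ, D' p ξ * bet K M ξ s‖) ≤ (1 + η) * pnorm p) ∧
      (∀ ξ, D' (D ξ) = Pi.single ξ 1) := by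
  classical
  choose D hD using L.P2
  choose c hc using L.P5
  have hN : (Fintype.card (Om K M) : ℂ) ≠ 0 := by
    exact_mod_cast (card_Om_pos (by omega) M).ne'
  have hNR : (0 : ℝ) < (Fintype.card (Om K M) : ℝ) := by
    exact_mod_cast card_Om_pos (by omega) M
  let D' : MvPolynomial ℕ ℂ →ₗ[ℂ] (Xi K M → ℂ) := (MvPolynomial.basisMonomials ℕ ℂ).constr ℂ c
  have hZ : ∀ ω, ‖(starRingEnd ℂ) (L.Z ω)‖ = 1 := fun ω => by rw [RCLike.norm_conj, L.norm_Z]
  have hint : ∀ p : MvPolynomial ℕ ℂ,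
      Integrable (fun ω => MvPolynomial.eval (L.w ω) p * (starRingEnd ℂ) (L.Z ω)) L.P := by
    intro p
    refine Integrable.of_bound (C := ∑ ν ∈ p.support, ‖p.coeff ν‖) ?_ ?_
    · exact ((L.st.meas_eval p).mul
        (Complex.continuous_conj.measurable.comp L.meas_Z)).aestronglyMeasurable
    · refine Filter.Eventually.of_forall fun ω => ?_
      rw [norm_mul, hZ, mul_one]
      exact L.st.norm_eval_le p ω
  have hint' : ∀ p : MvPolynomial ℕ ℂ,
      Integrable (fun ω => ‖MvPolynomial.eval (L.w ω) p‖) L.P := by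
    intro p
    refine (hint p).norm.congr (Filter.Eventually.of_forall fun ω => ?_)
    simp only [norm_mul, hZ, mul_one]
  have hD' : ∀ (p : MvPolynomial ℕ ℂ) s, wf (D' p) s = Fintype.card (Om K M) *
      ∫ ω in L.q ⁻¹' {s}, MvPolynomial.eval (L.w ω) p * (starRingEnd ℂ) (L.Z ω) ∂L.P := by
    intro p s
    induction p using MvPolynomial.induction_on' with
    | monomial ν a =>
      have h1 : D' (MvPolynomial.monomial ν a) = a • c ν := by
        have : MvPolynomial.monomial ν a = a • (MvPolynomial.basisMonomials ℕ ℂ) ν := by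
          rw [MvPolynomial.coe_basisMonomials, MvPolynomial.smul_monomial, smul_eq_mul, mul_one]
        rw [this, map_smul]
        congr 1
        exact Module.Basis.constr_basis _ _ _ _
      rw [h1, wf_smul]
      simp only [MvPolynomial.eval_monomial, mul_assoc]
      rw [integral_const_mul, hc, wf_def]
      field_simp
    | add p q hp hq =>
      rw [map_add, wf_add, hp, hq]
      simp only [map_add, add_mul]
      rw [integral_add (hint p).integrableOn (hint q).integrableOn]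
      ring
  refine ⟨D, D', ?_, ?_, ?_⟩
  · intro a
    rw [← L.st.integral_norm_eval]
    have h1 : ∀ ω, ‖MvPolynomial.eval (L.w ω) (∑ ξ, a ξ • D ξ)‖ = ‖∑ ξ, a ξ * L.Φ ξ ω‖ := by
      intro ω
      have : MvPolynomial.eval (L.w ω) (∑ ξ, a ξ • D ξ) = L.Z ω * ∑ ξ, a ξ * L.Φ ξ ω := by
        rw [map_sum, Finset.mul_sum]
        refine Finset.sum_congr rfl fun ξ _ => ?_
        rw [MvPolynomial.smul_eval, hD]
        ring
      rw [this, norm_mul, L.norm_Z, one_mul]
    simp only [h1]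
    have i1 : Integrable (fun ω => ∑ ξ, a ξ * L.Φ ξ ω) L.P :=
      integrable_finsetSum _ fun ξ _ => (L.int_Φ ξ).const_mul _
    have i2 : Integrable (fun ω => ∑ s, wf a s * L.φ s ω) L.P :=
      integrable_finsetSum _ fun s _ => (L.int_φ s).const_mul _
    have i3 : Integrable (fun ω => ‖∑ ξ, a ξ * L.Φ ξ ω - ∑ s, wf a s * L.φ s ω‖) L.P :=
      (i1.sub i2).norm
    calc ∫ ω, ‖∑ ξ, a ξ * L.Φ ξ ω‖ ∂L.P
        ≤ ∫ ω, (‖∑ ξ, a ξ * L.Φ ξ ω - ∑ s, wf a s * L.φ s ω‖ + ‖∑ s, wf a s * L.φ s ω‖) ∂L.P := by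
          refine integral_mono i1.norm (i3.add i2.norm) fun ω => ?_
          have := norm_add_le (∑ ξ, a ξ * L.Φ ξ ω - ∑ s, wf a s * L.φ s ω)
            (∑ s, wf a s * L.φ s ω)
          simpa using this
      _ = ∫ ω, ‖∑ ξ, a ξ * L.Φ ξ ω - ∑ s, wf a s * L.φ s ω‖ ∂L.P +
          ∫ ω, ‖∑ s, wf a s * L.φ s ω‖ ∂L.P := integral_add i3 i2.norm
      _ ≤ δ * avg (fun s => ‖wf a s‖) + κ * avg (fun s => ‖wf a s‖) :=
          add_le_add (L.P7 a) (L.norm_comb (wf a))
      _ = (κ + δ) * avg (fun s => ‖wf a s‖) := by ring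
      _ ≤ (1 + η) * avg (fun s => ‖wf a s‖) := by
          refine mul_le_mul_of_nonneg_right h ?_
          unfold avg
          positivity
  · intro p
    have h0 : 0 ≤ pnorm p := integral_nonneg fun _ => norm_nonneg _
    have h1 : avg (fun s : Om K M => ‖wf (D' p) s‖) ≤ pnorm p := by
      rw [avg, div_le_iff₀ hNR, ← L.st.integral_norm_eval]
      have h2 : ∀ s, ‖wf (D' p) s‖ ≤ Fintype.card (Om K M) *
          ∫ ω in L.q ⁻¹' {s}, ‖MvPolynomial.eval (L.w ω) p‖ ∂L.P := by
        intro s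
        rw [hD', norm_mul, Complex.norm_natCast]
        refine mul_le_mul_of_nonneg_left ?_ hNR.le
        refine (norm_integral_le_integral_norm _).trans (le_of_eq ?_)
        simp only [norm_mul, hZ, mul_one]
      refine (Finset.sum_le_sum fun s _ => h2 s).trans ?_
      rw [← Finset.mul_sum, mul_comm]
      refine mul_le_mul_of_nonneg_right (le_of_eq ?_) hNR.le
      rw [← integral_biUnion_finset Finset.univ (fun s _ => L.meas_q s)
        (fun s _ t _ hst => by
          rw [Function.onFun, Set.disjoint_left]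
          intro x hx hx'
          exact hst (hx.symm.trans hx')) (fun s _ => (hint' p).integrableOn)]
      have : ⋃ i ∈ (Finset.univ : Finset (Om K M)), L.q ⁻¹' {i} = Set.univ := by
        ext x
        simp
      rw [this, setIntegral_univ]
    refine h1.trans ?_
    nlinarith
  · intro ξ
    apply wf_inj hK
    intro s
    rw [hD', wf_single]
    have h1 : ∀ ω, MvPolynomial.eval (L.w ω) (D ξ) * (starRingEnd ℂ) (L.Z ω) = L.Φ ξ ω := by
      intro ω
      rw [hD, mul_right_comm, mul_comm (L.Z ω), conj_mul_self_of_norm (L.norm_Z ω), one_mul]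
    simp only [h1]
    rw [L.P4]
    field_simp

end HBasis.Emb
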