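import Pool.Agent.HBasis.KL

set_option autoImplicit false

open MeasureTheory Filter Topology

namespace HBasis.Emb

/-! ### Finite sums -/

theorem rt_eq (K : ℕ) (a : Fin K) :
    rt K a = Complex.exp (2 * Real.pi * Complex.I / K) ^ (a : ℕ) := by
  rw [rt, ← Complex.exp_nat_mul]
  congr 1
  ring

theorem norm_rt (K : ℕ) (a : Fin K) : ‖rt K a‖ = 1 := by
  have : rt K a = Complex.exp (((2 * Real.pi * (a : ℕ) / K : ℝ) : ℂ) * Complex.I) := by
    rw [rt]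
    congr 1
    push_cast
    ring
  rw [this, Complex.norm_exp_ofReal_mul_I]

theorem sum_rt {K : ℕ} (hK : 2 ≤ K) : ∑ a : Fin K, rt K a = 0 := by
  simp only [rt_eq]
  rw [Fin.sum_univ_eq_sum_range (fun i => Complex.exp (2 * Real.pi * Complex.I / K) ^ i)]
  exact (Complex.isPrimitiveRoot_exp K (by omega)).geom_sum_eq_zero (by omega)

theorem rt_conj_mul (K : ℕ) (a : Fin K) : (starRingEnd ℂ) (rt K a) * rt K a = 1 := by
  rw [← Complex.normSq_eq_conj_mul_self, Complex.normSq_eq_norm_sq, norm_rt]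
  simp

theorem le_sum_one {K : ℕ} (hK : 2 ≤ K) (x y : ℂ) :
    (K : ℝ) * ‖x‖ ≤ ∑ a : Fin K, ‖x + rt K a * y‖ := by
  have h : ∑ a : Fin K, (x + rt K a * y) = K * x := by
    rw [Finset.sum_add_distrib, ← Finset.sum_mul, sum_rt hK]
    simp
  calc (K : ℝ) * ‖x‖ = ‖∑ a : Fin K, (x + rt K a * y)‖ := by rw [h, norm_mul]; simp
    _ ≤ _ := norm_sum_le _ _

theorem le_sum_two {K : ℕ} (hK : 2 ≤ K) (x y : ℂ) :
    (K : ℝ) * ‖y‖ ≤ ∑ a : Fin K, ‖x + rt K a * y‖ := by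
  have h0 : ∑ a : Fin K, (starRingEnd ℂ) (rt K a) = 0 := by
    rw [← map_sum, sum_rt hK, map_zero]
  have h : ∑ a : Fin K, (starRingEnd ℂ) (rt K a) * (x + rt K a * y) = K * y := by
    have : ∀ a : Fin K, (starRingEnd ℂ) (rt K a) * (x + rt K a * y) =
        (starRingEnd ℂ) (rt K a) * x + y := by
      intro a
      rw [mul_add, ← mul_assoc, rt_conj_mul, one_mul]
    simp only [this]
    rw [Finset.sum_add_distrib, ← Finset.sum_mul, h0]
    simp
  calc (K : ℝ) * ‖y‖ = ‖∑ a : Fin K, (starRingEnd ℂ) (rt K a) * (x + rt K a * y)‖ := by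
        rw [h, norm_mul]; simp
    _ ≤ ∑ a : Fin K, ‖(starRingEnd ℂ) (rt K a) * (x + rt K a * y)‖ := norm_sum_le _ _
    _ = _ := by
        refine Finset.sum_congr rfl fun a _ => ?_
        rw [norm_mul, RCLike.norm_conj, norm_rt, one_mul]

theorem card_Om_succ (K M : ℕ) :
    Fintype.card (Om K (M + 1)) = Fintype.card (Om K M) * K := by
  have : Fintype.card (Om K (M + 1)) = Fintype.card (Om K M × Fin K) := rfl
  rw [this, Fintype.card_prod, Fintype.card_fin]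

theorem card_Om_pos {K : ℕ} (hK : 0 < K) (M : ℕ) : 0 < Fintype.card (Om K M) := by
  induction M with
  | zero => exact Nat.one_pos
  | succ M ih => rw [card_Om_succ]; exact Nat.mul_pos ih hK

/-- extend a path by one step -/
def omk {K M : ℕ} (a : Om K M) (b : Fin K) : Om K (M + 1) := ((a, b) : Om K M × Fin K)

/-- the past -/
def omp {K M : ℕ} (a : Om K (M + 1)) : Om K M := (show Om K M × Fin K from a).1

/-- the last step -/
def oml {K M : ℕ} (a : Om K (M + 1)) : Fin K := (show Om K M × Fin K from a).2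

theorem omk_eta {K M : ℕ} (a : Om K (M + 1)) : omk (omp a) (oml a) = a := rfl

theorem omp_omk {K M : ℕ} (a : Om K M) (b : Fin K) : omp (omk a b) = a := rfl

theorem oml_omk {K M : ℕ} (a : Om K M) (b : Fin K) : oml (omk a b) = b := rfl

theorem omk_inj {K M : ℕ} {a a' : Om K M} {b b' : Fin K} :
    omk a b = omk a' b' ↔ a = a' ∧ b = b' := by
  constructor
  · intro h
    exact ⟨by rw [← omp_omk a b, h, omp_omk], by rw [← oml_omk a b, h, oml_omk]⟩
  · rintro ⟨rfl, rfl⟩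
    rfl

/-- old index -/
def xil {K M : ℕ} (ξ : Xi K M) : Xi K (M + 1) := (Sum.inl ξ : Xi K M ⊕ Om K M)

/-- new index -/
def xir {K M : ℕ} (a : Om K M) : Xi K (M + 1) := (Sum.inr a : Xi K M ⊕ Om K M)

theorem sum_Om_succ {K M : ℕ} {E : Type*} [AddCommMonoid E] (f : Om K (M + 1) → E) :
    ∑ s, f s = ∑ s' : Om K M, ∑ s : Fin K, f (omk s' s) :=
  Fintype.sum_prod_type (f : Om K M × Fin K → E)

theorem sum_Xi_succ {K M : ℕ} {E : Type*} [AddCommMonoid E] (f : Xi K (M + 1) → E) :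
    ∑ ξ, f ξ = ∑ ξ : Xi K M, f (xil ξ) + ∑ a : Om K M, f (xir a) :=
  Fintype.sum_sum_type (f : Xi K M ⊕ Om K M → E)

theorem forall_Xi_succ {K M : ℕ} {p : Xi K (M + 1) → Prop} (h1 : ∀ ξ, p (xil ξ))
    (h2 : ∀ a, p (xir a)) (ξ : Xi K (M + 1)) : p ξ := by
  rcases (show Xi K M ⊕ Om K M from ξ) with ξ | a
  · exact h1 ξ
  · exact h2 a

/-- definition by cases -/
def xcases {K M : ℕ} {E : Type*} (f : Xi K M → E) (g : Om K M → E) (ξ : Xi K (M + 1)) : E :=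
  Sum.elim f g (show Xi K M ⊕ Om K M from ξ)

theorem xcases_xil {K M : ℕ} {E : Type*} (f : Xi K M → E) (g : Om K M → E) (ξ : Xi K M) :
    xcases f g (xil ξ) = f ξ := rfl

theorem xcases_xir {K M : ℕ} {E : Type*} (f : Xi K M → E) (g : Om K M → E) (a : Om K M) :
    xcases f g (xir a) = g a := rfl

theorem bet_xil {K M : ℕ} (ξ : Xi K M) (s : Om K M) (t : Fin K) :
    bet K (M + 1) (xil ξ) (omk s t) = bet K M ξ s := rfl

theorem bet_xir {K M : ℕ} (a : Om K M) (s : Om K M) (t : Fin K) :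
    bet K (M + 1) (xir a) (omk s t) = if s = a then rt K t else 0 := rfl

/-- the walk function with given coefficients -/
noncomputable def wf {K M : ℕ} (c : Xi K M → ℂ) (s : Om K M) : ℂ := ∑ ξ, c ξ * bet K M ξ s

theorem wf_def {K M : ℕ} (c : Xi K M → ℂ) (s : Om K M) :
    wf c s = ∑ ξ, c ξ * bet K M ξ s := rfl

theorem wf_succ {K M : ℕ} (c : Xi K (M + 1) → ℂ) (s' : Om K M) (s : Fin K) :
    wf c (omk s' s) = wf (fun ξ => c (xil ξ)) s' + rt K s * c (xir s') := by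
  rw [wf_def, sum_Xi_succ, wf_def]
  simp only [bet_xil, bet_xir]
  congr 1
  have : ∀ a : Om K M, c (xir a) * (if s' = a then rt K s else 0) =
      if s' = a then rt K s * c (xir a) else 0 := by
    intro a
    split_ifs <;> ring
  simp only [this]
  rw [Finset.sum_ite_eq]
  simp

theorem avg_wf_le {K : ℕ} (hK : 2 ≤ K) {M : ℕ} (c : Xi K (M + 1) → ℂ) :
    avg (fun s' : Om K M => ‖wf (fun ξ => c (xil ξ)) s'‖) ≤ avg (fun s => ‖wf c s‖) ∧
    avg (fun s' : Om K M => ‖c (xir s')‖) ≤ avg (fun s => ‖wf c s‖) := by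
  have hc : (0 : ℝ) < Fintype.card (Om K M) := by exact_mod_cast card_Om_pos (by omega) M
  have hK' : (0 : ℝ) < K := by exact_mod_cast (by omega : 0 < K)
  have h1 : avg (fun s => ‖wf c s‖) = (∑ s' : Om K M, (∑ s : Fin K,
      ‖wf (fun ξ => c (xil ξ)) s' + rt K s * c (xir s')‖) / K) /
        Fintype.card (Om K M) := by
    rw [avg, sum_Om_succ, card_Om_succ]
    simp only [wf_succ]
    rw [← Finset.sum_div]
    push_cast
    field_simp
  rw [h1]
  constructor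
  · refine div_le_div_of_nonneg_right (Finset.sum_le_sum fun s' _ => ?_) hc.le
    rw [le_div_iff₀ hK', mul_comm]
    exact le_sum_one hK _ _
  · refine div_le_div_of_nonneg_right (Finset.sum_le_sum fun s' _ => ?_) hc.le
    rw [le_div_iff₀ hK', mul_comm]
    exact le_sum_two hK _ _

theorem wf_eq_zero {K : ℕ} (hK : 2 ≤ K) {M : ℕ} (c : Xi K M → ℂ) (h : ∀ s, wf c s = 0) :
    ∀ ξ, c ξ = 0 := by
  induction M with
  | zero =>
    intro ξ
    have h1 : ∑ ξ : Xi K 0, c ξ * bet K 0 ξ () = 0 := h ()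
    have h2 : ∑ ξ : Xi K 0, c ξ * bet K 0 ξ () = c () := by
      change ∑ ξ : Unit, c ξ * (1 : ℂ) = c ()
      simp
    rw [h2] at h1
    exact h1
  | succ M ih =>
    have hK' : (0 : ℝ) < K := by exact_mod_cast (by omega : 0 < K)
    have h0 : ∀ s', ∑ a : Fin K, ‖wf (fun ξ => c (xil ξ)) s' + rt K a * c (xir s')‖ = 0 := by
      intro s'
      refine Finset.sum_eq_zero fun a _ => ?_
      rw [← wf_succ, h, norm_zero]
    refine forall_Xi_succ ?_ ?_
    · apply ih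
      intro s'
      have h2 := le_sum_one hK (wf (fun ξ => c (xil ξ)) s') (c (xir s'))
      rw [h0] at h2
      exact norm_le_zero_iff.1 (nonpos_of_mul_nonpos_right h2 hK')
    · intro s'
      have h2 := le_sum_two hK (wf (fun ξ => c (xil ξ)) s') (c (xir s'))
      rw [h0] at h2
      exact norm_le_zero_iff.1 (nonpos_of_mul_nonpos_right h2 hK')

/-- one step data -/
structure StepData (K : ℕ) (ε : ℝ) where
  /-- the probability space -/
  T : Type
  [mT : MeasurableSpace T]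
  /-- the probability -/
  μ : Measure T
  [prob : IsProbabilityMeasure μ]
  /-- the unimodular variable -/
  u : T → ℂ
  meas_u : Measurable u
  norm_u : ∀ t, ‖u t‖ = 1
  orth_u : ∀ n : ℕ, 0 < n → ∫ t, u t ^ n ∂μ = 0
  /-- the index of the arc -/
  q : T → Fin K
  meas_q : ∀ b, MeasurableSet (q ⁻¹' {b})
  /-- normalisation -/
  γ : ℂ
  γ_ne : γ ≠ 0
  int_one : ∀ b, ∫ _t in q ⁻¹' {b}, (1 : ℂ) ∂μ = (1 : ℂ) / (K : ℂ)
  int_u : ∀ b, ∫ t in q ⁻¹' {b}, u t ∂μ = γ * rt K b / (K : ℂ)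
  close : ∀ t, ‖u t / γ - rt K (q t)‖ ≤ ε
  /-- approximate indicators -/
  φ : Fin K → T → ℂ
  int_φ : ∀ a, Integrable (φ a) μ
  /-- degree -/
  D : ℕ
  /-- coefficients -/
  coef : Fin K → ℕ → ℂ
  φ_eq : ∀ a t, φ a t = (∑ j ∈ Finset.range (2 * D + 1), coef a j * u t ^ j) *
    (starRingEnd ℂ) (u t) ^ D
  dual : ∀ a b, ∫ t in q ⁻¹' {b}, φ a t ∂μ = if a = b then (1 : ℂ) / (K : ℂ) else 0
  approx : ∀ a, ∫ t, ‖φ a t - (if q t = a then (1 : ℂ) else 0)‖ ∂μ ≤ ε / (K : ℝ)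

attribute [instance] StepData.mT StepData.prob

/-- the level structure -/
structure Level (K M : ℕ) (κ δ : ℝ) where
  /-- the probability space -/
  Ω : Type
  [mΩ : MeasurableSpace Ω]
  /-- the probability -/
  P : Measure Ω
  [prob : IsProbabilityMeasure P]
  /-- the Steinhaus system -/
  w : Ω → ℕ → ℂ
  st : IsSteinhaus P w
  /-- arcs -/
  q : Ω → Om K M
  meas_q : ∀ s, MeasurableSet (q ⁻¹' {s})
  /-- product of the auxiliary variables -/
  Z : Ω → ℂ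
  meas_Z : Measurable Z
  norm_Z : ∀ ω, ‖Z ω‖ = 1
  /-- the fast variable -/
  Y : Ω → ℂ
  meas_Y : Measurable Y
  norm_Y : ∀ ω, ‖Y ω‖ = 1
  /-- approximate indicators -/
  φ : Om K M → Ω → ℂ
  int_φ : ∀ a, Integrable (φ a) P
  /-- approximate walk functions -/
  Φ : Xi K M → Ω → ℂ
  int_Φ : ∀ ξ, Integrable (Φ ξ) P
  P1 : ∀ a (n : ℕ), ∃ p : MvPolynomial ℕ ℂ, ∀ ω,
    MvPolynomial.eval (w ω) p = Z ω * Y ω ^ (n + 1) * φ a ω
  P2 : ∀ ξ, ∃ p : MvPolynomial ℕ ℂ, ∀ ω, MvPolynomial.eval (w ω) p = Z ω * Φ ξ ω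
  P3 : ∀ a b, ∫ ω in q ⁻¹' {b}, φ a ω ∂P =
    if a = b then (1 : ℂ) / (Fintype.card (Om K M) : ℂ) else 0
  P4 : ∀ ξ b, ∫ ω in q ⁻¹' {b}, Φ ξ ω ∂P = bet K M ξ b / (Fintype.card (Om K M) : ℂ)
  P5 : ∀ ν : ℕ →₀ ℕ, ∃ c : Xi K M → ℂ, ∀ s,
    ∫ ω in q ⁻¹' {s}, (ν.prod fun i k => w ω i ^ k) * (starRingEnd ℂ) (Z ω) ∂P =
      (∑ ξ, c ξ * bet K M ξ s) / (Fintype.card (Om K M) : ℂ)
  P6 : ∀ a, ∫ ω, ‖φ a ω‖ ∂P ≤ κ / (Fintype.card (Om K M) : ℝ)
  P7 : ∀ c : Xi K M → ℂ,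
    ∫ ω, ‖∑ ξ, c ξ * Φ ξ ω - ∑ a, (∑ ξ, c ξ * bet K M ξ a) * φ a ω‖ ∂P ≤
      δ * avg (fun s => ‖∑ ξ, c ξ * bet K M ξ s‖)

attribute [instance] Level.mΩ Level.prob

end HBasis.Emb
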