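import Pool.Agent.HBasis.EmbedLevel

set_option autoImplicit false

open MeasureTheory Filter Topology

namespace HBasis.Emb

/-! ### Approximation inside a dense subspace with exact values of finitely many functionals -/

theorem dense_exact {E F : Type*} [NormedAddCommGroup E] [NormedSpace ℂ E] [NormedAddCommGroup F]
    [NormedSpace ℂ F] [FiniteDimensional ℂ F] (W : Submodule ℂ E) (hW : Dense (W : Set E))
    (Λ : E →L[ℂ] F) (x : E) {δ : ℝ} (hδ : 0 < δ) : ∃ w ∈ W, Λ w = Λ x ∧ ‖w - x‖ ≤ δ := by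
  let Λ' : W →ₗ[ℂ] F := Λ.toLinearMap.comp W.subtype
  let G : Submodule ℂ F := LinearMap.range Λ'
  have hG : IsClosed (G : Set F) := G.closed_of_finiteDimensional
  have hΛ : ∀ e, Λ e ∈ G := by
    have h1 : IsClosed (Λ ⁻¹' (G : Set F)) := hG.preimage Λ.continuous
    have h2 : (W : Set E) ⊆ Λ ⁻¹' (G : Set F) := fun e he => ⟨⟨e, he⟩, rfl⟩
    intro e
    exact h1.closure_subset_iff.2 h2 (hW e)
  obtain ⟨R, hR⟩ := Λ'.rangeRestrict.exists_rightInverse_of_surjective Λ'.range_rangeRestrict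
  let R' : G →ₗ[ℂ] E := W.subtype.comp R
  have hR' : Continuous R' := R'.continuous_of_finiteDimensional
  have hRW : ∀ g, R' g ∈ W := fun g => (R g).2
  have hΛR : ∀ g : G, Λ (R' g) = g := by
    intro g
    have := LinearMap.congr_fun hR g
    have h2 := congrArg Subtype.val this
    exact h2
  let Ψ : E → E := fun e => e - R' ⟨Λ e - Λ x, G.sub_mem (hΛ e) (hΛ x)⟩
  have hΨ : Continuous Ψ := by
    refine continuous_id.sub (hR'.comp ?_)
    exact Continuous.subtype_mk (Λ.continuous.sub continuous_const) _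
  have hΨx : Ψ x = x := by
    have : (⟨Λ x - Λ x, G.sub_mem (hΛ x) (hΛ x)⟩ : G) = 0 := by
      ext
      simp
    simp only [Ψ, this, map_zero, sub_zero]
  have hopen : IsOpen {e | ‖Ψ e - x‖ < δ} :=
    isOpen_lt (hΨ.sub continuous_const).norm continuous_const
  obtain ⟨e, heW, he⟩ := hW.exists_mem_open hopen ⟨x, by simp [hΨx, hδ]⟩
  refine ⟨Ψ e, W.sub_mem heW (hRW _), ?_, (le_of_lt he)⟩
  simp only [Ψ, map_sub, hΛR]
  simp

/-! ### The circle -/

/-- the circle -/
abbrev C1 : Type := AddCircle (1 : ℝ)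

/-- the Haar probability -/
noncomputable abbrev hm : Measure C1 := AddCircle.haarAddCircle

/-- representative in `(0,1]` -/
noncomputable def rep (θ : C1) : ℝ := (AddCircle.measurableEquivIoc (1 : ℝ) 0 θ : ℝ)

theorem rep_meas : Measurable rep :=
  measurable_subtype_coe.comp (AddCircle.measurableEquivIoc (1 : ℝ) 0).measurable

theorem rep_pos (θ : C1) : 0 < rep θ := (AddCircle.measurableEquivIoc (1 : ℝ) 0 θ).2.1

theorem rep_le (θ : C1) : rep θ ≤ 1 := by
  exact le_of_le_of_eq (AddCircle.measurableEquivIoc (1 : ℝ) 0 θ).2.2 (zero_add 1)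

theorem coe_rep (θ : C1) : ((rep θ : ℝ) : C1) = θ :=
  (AddCircle.equivIoc (1 : ℝ) 0).symm_apply_apply θ

theorem rep_coe {t : ℝ} (ht : t ∈ Set.Ioc (0 : ℝ) 1) : rep (t : C1) = t := by
  have : t ∈ Set.Ioc (0 : ℝ) (0 + 1) := by rwa [zero_add]
  have h := AddCircle.equivIoc_coe_eq (p := (1 : ℝ)) (a := 0) this
  exact congrArg Subtype.val h

/-- the arcs -/
def arc (K : ℕ) (b : Fin K) : Set C1 :=
  rep ⁻¹' (Set.Ioc (((b : ℕ) : ℝ) / K) ((((b : ℕ) : ℝ) + 1) / K))

theorem arc_meas (K : ℕ) (b : Fin K) : MeasurableSet (arc K b) :=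
  rep_meas measurableSet_Ioc

theorem integral_arc (K : ℕ) (b : Fin K) (f : C1 → ℂ) :
    ∫ θ in arc K b, f θ ∂hm =
      ∫ t in (((b : ℕ) : ℝ) / K)..((((b : ℕ) : ℝ) + 1) / K), f (t : C1) := by
  have hK : (0 : ℝ) < K := by
    have := b.pos
    exact_mod_cast this
  have hb : ((b : ℕ) : ℝ) + 1 ≤ K := by exact_mod_cast b.2
  rw [← integral_indicator (arc_meas K b), AddCircle.integral_haarAddCircle,
    ← AddCircle.integral_preimage (1 : ℝ) 0, inv_one, one_smul, zero_add,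
    intervalIntegral.integral_of_le (by gcongr; linarith)]
  have h1 : ∀ t ∈ Set.Ioc (0 : ℝ) 1, (arc K b).indicator f (t : C1) =
      (Set.Ioc (((b : ℕ) : ℝ) / K) ((((b : ℕ) : ℝ) + 1) / K)).indicator (fun t : ℝ => f (t : C1)) t := by
    intro t ht
    by_cases h : t ∈ Set.Ioc (((b : ℕ) : ℝ) / K) ((((b : ℕ) : ℝ) + 1) / K)
    · rw [Set.indicator_of_mem h, Set.indicator_of_mem]
      rw [arc, Set.mem_preimage, rep_coe ht]
      exact h
    · rw [Set.indicator_of_notMem h, Set.indicator_of_notMem]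
      rw [arc, Set.mem_preimage, rep_coe ht]
      exact h
  rw [setIntegral_congr_fun measurableSet_Ioc h1, setIntegral_indicator measurableSet_Ioc]
  congr 2
  rw [Set.inter_eq_right]
  intro t ht
  refine ⟨lt_of_le_of_lt (by positivity) ht.1, ht.2.trans ?_⟩
  rw [div_le_one hK]
  exact hb

/-- the index of the arc -/
noncomputable def qf {K : ℕ} (hK : 0 < K) (θ : C1) : Fin K :=
  ⟨⌈(K : ℝ) * rep θ⌉₊ - 1, by
    have h1 : ⌈(K : ℝ) * rep θ⌉₊ ≤ K := by
      rw [Nat.ceil_le]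
      have := rep_le θ
      have hK' : (0 : ℝ) ≤ K := by positivity
      nlinarith
    omega⟩

theorem qf_pre {K : ℕ} (hK : 0 < K) (b : Fin K) : qf hK ⁻¹' {b} = arc K b := by
  ext θ
  have hK' : (0 : ℝ) < K := by exact_mod_cast hK
  have h0 : 0 < ⌈(K : ℝ) * rep θ⌉₊ := Nat.ceil_pos.2 (mul_pos hK' (rep_pos θ))
  rw [Set.mem_preimage, Set.mem_singleton_iff, arc, Set.mem_preimage, Set.mem_Ioc, qf,
    Fin.ext_iff, div_lt_iff₀ hK', le_div_iff₀ hK', mul_comm (rep θ)]
  constructor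
  · intro h
    have h1 : ⌈(K : ℝ) * rep θ⌉₊ = (b : ℕ) + 1 := by
      simp only at h
      omega
    rw [Nat.ceil_eq_iff (by omega)] at h1
    simp only [Nat.add_sub_cancel] at h1
    push_cast at h1
    exact h1
  · intro h
    have h1 : ⌈(K : ℝ) * rep θ⌉₊ = (b : ℕ) + 1 := by
      rw [Nat.ceil_eq_iff (by omega)]
      simp only [Nat.add_sub_cancel]
      push_cast
      exact h
    simp only
    omega

/-- the normalisation -/
noncomputable def gam (K : ℕ) : ℂ :=
  K * (Complex.exp (2 * Real.pi * Complex.I / K) - 1) / (2 * Real.pi * Complex.I)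

theorem two_pi_I_ne : (2 * Real.pi * Complex.I : ℂ) ≠ 0 := by
  simp [Real.pi_ne_zero]

theorem int_arc_one {K : ℕ} (hK : 0 < K) (b : Fin K) :
    ∫ _θ in arc K b, (1 : ℂ) ∂hm = (1 : ℂ) / (K : ℂ) := by
  have hK' : (K : ℝ) ≠ 0 := by exact_mod_cast hK.ne'
  rw [integral_arc, intervalIntegral.integral_const]
  have : (((b : ℕ) : ℝ) + 1) / K - ((b : ℕ) : ℝ) / K = 1 / K := by
    field_simp
    ring
  rw [this, Complex.real_smul, mul_one]
  push_cast
  rfl

theorem int_arc_u {K : ℕ} (hK : 0 < K) (b : Fin K) :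
    ∫ θ in arc K b, (fourier 1 θ : ℂ) ∂hm = gam K * rt K b / (K : ℂ) := by
  have hK' : (K : ℂ) ≠ 0 := by exact_mod_cast hK.ne'
  rw [integral_arc]
  have h1 : ∀ t : ℝ, (fourier 1 ((t : ℝ) : C1) : ℂ) =
      Complex.exp ((2 * Real.pi * Complex.I) * (t : ℂ)) := by
    intro t
    rw [fourier_coe_apply]
    congr 1
    push_cast
    ring
  simp only [h1]
  rw [integral_exp_mul_complex two_pi_I_ne, gam, rt]
  have h2 : Complex.exp ((2 * Real.pi * Complex.I) * (((((b : ℕ) : ℝ) + 1) / K : ℝ) : ℂ)) =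
      Complex.exp (2 * Real.pi * Complex.I / K) *
        Complex.exp (2 * Real.pi * Complex.I * ((b : ℕ) : ℂ) / (K : ℂ)) := by
    rw [← Complex.exp_add]
    congr 1
    push_cast
    ring
  have h3 : Complex.exp ((2 * Real.pi * Complex.I) * ((((b : ℕ) : ℝ) / K : ℝ) : ℂ)) =
      Complex.exp (2 * Real.pi * Complex.I * ((b : ℕ) : ℂ) / (K : ℂ)) := by
    congr 1
    push_cast
    ring
  rw [h2, h3]
  have := two_pi_I_ne
  field_simp

theorem norm_exp_sub_exp_le (x y : ℝ) :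
    ‖Complex.exp (x * Complex.I) - Complex.exp (y * Complex.I)‖ ≤ |x - y| := by
  have h1 : Complex.exp (x * Complex.I) - Complex.exp (y * Complex.I) =
      Complex.exp (y * Complex.I) * (Complex.exp (Complex.I * ((x - y : ℝ) : ℂ)) - 1) := by
    rw [mul_sub, ← Complex.exp_add, mul_one]
    congr 2
    push_cast
    ring
  rw [h1, norm_mul, Complex.norm_exp_ofReal_mul_I, one_mul]
  exact Real.norm_exp_I_mul_ofReal_sub_one_le.trans (le_of_eq (Real.norm_eq_abs _))

theorem u_sub_rt {K : ℕ} (hK : 0 < K) (θ : C1) :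
    ‖(fourier 1 θ : ℂ) - rt K (qf hK θ)‖ ≤ 2 * Real.pi / K := by
  have hK' : (0 : ℝ) < K := by exact_mod_cast hK
  set b := qf hK θ with hb
  have hθ : θ ∈ arc K b := by
    rw [← qf_pre hK]
    exact hb.symm
  have h1 : (fourier 1 θ : ℂ) = Complex.exp (((2 * Real.pi * rep θ : ℝ) : ℂ) * Complex.I) := by
    conv_lhs => rw [← coe_rep θ, fourier_coe_apply]
    congr 1
    push_cast
    ring
  have h2 : rt K b = Complex.exp (((2 * Real.pi * (((b : ℕ) : ℝ) / K) : ℝ) : ℂ) * Complex.I) := by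
    rw [rt]
    congr 1
    push_cast
    ring
  rw [h1, h2]
  refine (norm_exp_sub_exp_le _ _).trans ?_
  have h3 := hθ.1
  have h4 := hθ.2
  have h5 : (((b : ℕ) : ℝ) + 1) / K = ((b : ℕ) : ℝ) / K + 1 / K := by ring
  rw [h5] at h4
  rw [← mul_sub, abs_mul, abs_of_pos (by positivity), mul_div_assoc]
  have h6 : |rep θ - ((b : ℕ) : ℝ) / K| ≤ 1 / K := by
    rw [abs_le]
    constructor
    · have : (0 : ℝ) ≤ 1 / K := by positivity
      linarith
    · linarith
  have h7 : (2 * Real.pi) * |rep θ - ((b : ℕ) : ℝ) / K| ≤ (2 * Real.pi) * (1 / K) :=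
    mul_le_mul_of_nonneg_left h6 (by positivity)
  refine h7.trans (le_of_eq ?_)
  ring

theorem gam_close {K : ℕ} (hK : 7 ≤ K) : ‖gam K - 1‖ ≤ 2 * Real.pi / K := by
  have hK' : (0 : ℝ) < K := by exact_mod_cast (by omega : 0 < K)
  have hK'' : (K : ℂ) ≠ 0 := by exact_mod_cast (by omega : K ≠ 0)
  set z : ℂ := 2 * Real.pi * Complex.I / K with hz
  have hz0 : z ≠ 0 := div_ne_zero two_pi_I_ne hK''
  have hzn : ‖z‖ = 2 * Real.pi / K := by
    rw [hz]
    simp only [norm_div, norm_mul, Complex.norm_real, Complex.norm_I, Complex.norm_natCast,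
      Real.norm_eq_abs, abs_of_pos Real.pi_pos, Complex.norm_ofNat, mul_one]
  have hz1 : ‖z‖ ≤ 1 := by
    rw [hzn, div_le_one hK']
    have h1 := Real.pi_lt_d2
    have h2 : (7 : ℝ) ≤ K := by exact_mod_cast hK
    linarith
  have h1 : gam K - 1 = (Complex.exp z - 1 - z) / z := by
    rw [gam, hz]
    have := two_pi_I_ne
    have hI : Complex.I ≠ 0 := Complex.I_ne_zero
    have hpi : (Real.pi : ℂ) ≠ 0 := by exact_mod_cast Real.pi_ne_zero
    field_simp
  rw [h1, norm_div, ← hzn]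
  have h2 := Complex.norm_exp_sub_one_sub_id_le hz1
  have h3 : 0 < ‖z‖ := norm_pos_iff.2 hz0
  rw [div_le_iff₀ h3]
  nlinarith

theorem close_aux {K : ℕ} (hK : 0 < K) (hK13 : 13 ≤ K) (θ : C1) :
    ‖(fourier 1 θ : ℂ) / gam K - rt K (qf hK θ)‖ ≤ 8 * Real.pi / K := by
  have hK' : (0 : ℝ) < K := by exact_mod_cast hK
  have h1 := u_sub_rt hK θ
  have h2 := gam_close (by omega : 7 ≤ K)
  have h3 : 2 * Real.pi / K ≤ 1 / 2 := by
    rw [div_le_iff₀ hK']
    have h1 := Real.pi_lt_d2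
    have h2 : (13 : ℝ) ≤ K := by exact_mod_cast hK13
    linarith
  have h4 : 1 / 2 ≤ ‖gam K‖ := by
    have := norm_sub_norm_le (1 : ℂ) (1 - gam K)
    rw [norm_sub_rev 1 (gam K)] at this
    simp only [sub_sub_cancel, norm_one] at this
    linarith
  have h5 : gam K ≠ 0 := by
    intro h
    rw [h, norm_zero] at h4
    linarith
  have h6 : (fourier 1 θ : ℂ) / gam K - rt K (qf hK θ) =
      (((fourier 1 θ : ℂ) - rt K (qf hK θ)) - (gam K - 1) * rt K (qf hK θ)) / gam K := by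
    field_simp
    ring
  rw [h6, norm_div, div_le_iff₀ (by linarith)]
  have h7 : ‖((fourier 1 θ : ℂ) - rt K (qf hK θ)) - (gam K - 1) * rt K (qf hK θ)‖ ≤
      4 * Real.pi / K := by
    refine (norm_sub_le _ _).trans ?_
    rw [norm_mul, norm_rt, mul_one]
    have : 4 * Real.pi / K = 2 * Real.pi / K + 2 * Real.pi / K := by ring
    rw [this]
    exact add_le_add h1 h2
  refine h7.trans ?_
  have h8 : 4 * Real.pi / K = 8 * Real.pi / K * (1 / 2) := by ring
  rw [h8]
  exact mul_le_mul_of_nonneg_left h4 (by positivity)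

end HBasis.Emb
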