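import Pool.Agent.HBasis.EmbedLevel

set_option autoImplicit false

open MeasureTheory Filter Topology

namespace HBasis.Emb

/-! ### The step on exponents -/

/-- drop the first two exponents -/
noncomputable def sh (ν : ℕ →₀ ℕ) : ℕ →₀ ℕ :=
  ν.comapDomain (· + 2) (fun _ _ _ _ h => by simpa using h)

theorem sh_apply (ν : ℕ →₀ ℕ) (i : ℕ) : sh ν i = ν (i + 2) := rfl

theorem prod_sh (ν : ℕ →₀ ℕ) (f : ℕ → ℂ) :
    (ν.prod fun i k => f i ^ k) =
      f 0 ^ ν 0 * f 1 ^ ν 1 * ((sh ν).prod fun i k => f (i + 2) ^ k) := by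
  obtain ⟨N, hN⟩ := ν.support.exists_nat_subset_range
  have h1 : (ν.prod fun i k => f i ^ k) = ∏ i ∈ Finset.range (N + 2), f i ^ ν i :=
    Finsupp.prod_of_support_subset _ (hN.trans (Finset.range_mono (by omega))) _
      (fun i _ => pow_zero _)
  have h2 : ((sh ν).prod fun i k => f (i + 2) ^ k) =
      ∏ i ∈ Finset.range N, f (i + 2) ^ ν (i + 2) := by
    refine Finsupp.prod_of_support_subset _ ?_ _ (fun i _ => pow_zero _)
    intro i hi
    rw [Finsupp.mem_support_iff, sh_apply] at hi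
    have := hN (Finsupp.mem_support_iff.2 hi)
    rw [Finset.mem_range] at this ⊢
    omega
  rw [h1, h2, Finset.prod_range_succ', Finset.prod_range_succ']
  ring

theorem sh_ext {ν ν' : ℕ →₀ ℕ} (h0 : ν 0 = ν' 0) (h1 : ν 1 = ν' 1) (h : sh ν = sh ν') :
    ν = ν' := by
  ext i
  match i with
  | 0 => exact h0
  | 1 => exact h1
  | (i + 2) => rw [← sh_apply, h, sh_apply]

theorem conj_mul_self_of_norm {z : ℂ} (h : ‖z‖ = 1) : (starRingEnd ℂ) z * z = 1 := by
  rw [← Complex.normSq_eq_conj_mul_self, Complex.normSq_eq_norm_sq, h]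
  simp

theorem StepData.int_pow {K : ℕ} {ε : ℝ} (S : StepData K ε) (a b : ℕ) :
    ∫ t, S.u t ^ a * (starRingEnd ℂ) (S.u t) ^ b ∂S.μ = if a = b then 1 else 0 := by
  have hu := fun t => conj_mul_self_of_norm (S.norm_u t)
  rcases lt_trichotomy a b with h | rfl | h
  · rw [if_neg h.ne]
    obtain ⟨c, rfl⟩ := Nat.exists_eq_add_of_lt h
    have : ∀ t, S.u t ^ a * (starRingEnd ℂ) (S.u t) ^ (a + c + 1) = (starRingEnd ℂ) (S.u t ^ (c + 1)) := by
      intro t
      rw [add_assoc, pow_add, ← mul_assoc, ← mul_pow, mul_comm (S.u t), hu, one_pow, one_mul,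
        map_pow]
    simp only [this]
    rw [integral_conj, S.orth_u _ (by omega), map_zero]
  · rw [if_pos rfl]
    have : ∀ t, S.u t ^ a * (starRingEnd ℂ) (S.u t) ^ a = 1 := by
      intro t
      rw [← mul_pow, mul_comm (S.u t), hu, one_pow]
    simp only [this]
    simp
  · rw [if_neg h.ne']
    obtain ⟨c, rfl⟩ := Nat.exists_eq_add_of_lt h
    have : ∀ t, S.u t ^ (b + c + 1) * (starRingEnd ℂ) (S.u t) ^ b = S.u t ^ (c + 1) := by
      intro t
      rw [add_assoc, pow_add, mul_right_comm, ← mul_pow, mul_comm (S.u t), hu, one_pow, one_mul]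
    simp only [this]
    exact S.orth_u _ (by omega)

section Prod

variable {Ω T : Type} [MeasurableSpace Ω] [MeasurableSpace T] (P : Measure Ω)
  [IsProbabilityMeasure P] (μ : Measure T) [IsProbabilityMeasure μ]

theorem int3 (f : Ω → ℂ) (g h : T → ℂ) :
    ∫ x, f x.1 * (g x.2.1 * h x.2.2) ∂(P.prod (μ.prod μ)) =
      (∫ ω, f ω ∂P) * ((∫ t, g t ∂μ) * ∫ t, h t ∂μ) := by
  rw [integral_prod_mul (μ := P) (ν := μ.prod μ) f (fun y => g y.1 * h y.2),
    integral_prod_mul (μ := μ) (ν := μ) g h]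

theorem int3_set (f : Ω → ℂ) (g h : T → ℂ) (A : Set Ω) (B : Set T) :
    ∫ x in A ×ˢ (B ×ˢ Set.univ), f x.1 * (g x.2.1 * h x.2.2) ∂(P.prod (μ.prod μ)) =
      (∫ ω in A, f ω ∂P) * ((∫ t in B, g t ∂μ) * ∫ t, h t ∂μ) := by
  rw [setIntegral_prod_mul (μ := P) (ν := μ.prod μ) f (fun y : T × T => g y.1 * h y.2) A
    (B ×ˢ Set.univ), setIntegral_prod_mul (μ := μ) (ν := μ) g h B Set.univ, setIntegral_univ]

theorem int3_real (f : Ω → ℝ) (g h : T → ℝ) :
    ∫ x, f x.1 * (g x.2.1 * h x.2.2) ∂(P.prod (μ.prod μ)) =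
      (∫ ω, f ω ∂P) * ((∫ t, g t ∂μ) * ∫ t, h t ∂μ) := by
  rw [integral_prod_mul (μ := P) (ν := μ.prod μ) f (fun y => g y.1 * h y.2),
    integral_prod_mul (μ := μ) (ν := μ) g h]

end Prod

/-! ### The successor level -/

section Succ

variable {K M : ℕ} {κ δ ε : ℝ} (L : Level K M κ δ) (S : StepData K ε)

/-- the new probability space -/
abbrev OmS : Type := L.Ω × S.T × S.T

/-- the new probability -/
noncomputable def PS : Measure (OmS L S) := L.P.prod (S.μ.prod S.μ)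

instance instPS : IsProbabilityMeasure (PS L S) :=
  inferInstanceAs (IsProbabilityMeasure (L.P.prod (S.μ.prod S.μ)))

/-- the new system -/
noncomputable def wS (x : OmS L S) : ℕ → ℂ
  | 0 => S.u x.2.1 * S.u x.2.2 * (starRingEnd ℂ) (L.Y x.1)
  | 1 => S.u x.2.2
  | (i + 2) => L.w x.1 i

theorem wS_zero (x : OmS L S) : wS L S x 0 = S.u x.2.1 * S.u x.2.2 * (starRingEnd ℂ) (L.Y x.1) := rfl
theorem wS_one (x : OmS L S) : wS L S x 1 = S.u x.2.2 := rfl
theorem wS_add (x : OmS L S) (i : ℕ) : wS L S x (i + 2) = L.w x.1 i := rfl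

theorem wS_mon (x : OmS L S) (ν : ℕ →₀ ℕ) :
    (ν.prod fun i k => wS L S x i ^ k) =
      (starRingEnd ℂ) (L.Y x.1) ^ ν 0 * ((sh ν).prod fun i k => L.w x.1 i ^ k) *
        (S.u x.2.1 ^ ν 0 * S.u x.2.2 ^ (ν 0 + ν 1)) := by
  rw [prod_sh]
  simp only [wS_zero, wS_one, wS_add]
  ring

theorem wS_st : IsSteinhaus (PS L S) (wS L S) where
  meas i := by
    match i with
    | 0 =>
      refine Measurable.mul (Measurable.mul (S.meas_u.comp (measurable_fst.comp measurable_snd))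
        (S.meas_u.comp (measurable_snd.comp measurable_snd))) ?_
      exact Complex.continuous_conj.measurable.comp (L.meas_Y.comp measurable_fst)
    | 1 => exact S.meas_u.comp (measurable_snd.comp measurable_snd)
    | (i + 2) => exact (L.st.meas i).comp measurable_fst
  norm_one x i := by
    match i with
    | 0 => rw [wS_zero, norm_mul, norm_mul, S.norm_u, S.norm_u, RCLike.norm_conj, L.norm_Y]; simp
    | 1 => rw [wS_one, S.norm_u]
    | (i + 2) => rw [wS_add, L.st.norm_one]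
  orth ν ν' hne := by
    have hd : ∀ x : OmS L S, (ν.prod fun i k => wS L S x i ^ k) *
        (starRingEnd ℂ) (ν'.prod fun i k => wS L S x i ^ k) =
        ((starRingEnd ℂ) (L.Y x.1) ^ ν 0 * L.Y x.1 ^ ν' 0 * (((sh ν).prod fun i k => L.w x.1 i ^ k) *
          (starRingEnd ℂ) ((sh ν').prod fun i k => L.w x.1 i ^ k))) *
        ((S.u x.2.1 ^ ν 0 * (starRingEnd ℂ) (S.u x.2.1) ^ ν' 0) *
          (S.u x.2.2 ^ (ν 0 + ν 1) * (starRingEnd ℂ) (S.u x.2.2) ^ (ν' 0 + ν' 1))) := by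
      intro x
      rw [wS_mon, wS_mon]
      simp only [map_mul, map_pow, Complex.conj_conj]
      ring
    simp only [hd]
    rw [PS, int3 L.P S.μ (fun ω => (starRingEnd ℂ) (L.Y ω) ^ ν 0 * L.Y ω ^ ν' 0 *
        (((sh ν).prod fun i k => L.w ω i ^ k) * (starRingEnd ℂ) ((sh ν').prod fun i k => L.w ω i ^ k)))
      (fun t => S.u t ^ ν 0 * (starRingEnd ℂ) (S.u t) ^ ν' 0)
      (fun t => S.u t ^ (ν 0 + ν 1) * (starRingEnd ℂ) (S.u t) ^ (ν' 0 + ν' 1)), S.int_pow, S.int_pow]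
    by_cases h0 : ν 0 = ν' 0
    · by_cases h1 : ν 1 = ν' 1
      · have h2 : ∀ ω, (starRingEnd ℂ) (L.Y ω) ^ ν 0 * L.Y ω ^ ν' 0 *
          (((sh ν).prod fun i k => L.w ω i ^ k) * (starRingEnd ℂ) ((sh ν').prod fun i k => L.w ω i ^ k)) =
            ((sh ν).prod fun i k => L.w ω i ^ k) * (starRingEnd ℂ) ((sh ν').prod fun i k => L.w ω i ^ k) := by
          intro ω
          rw [← h0, ← mul_pow, conj_mul_self_of_norm (L.norm_Y ω), one_pow, one_mul]
        simp only [h2]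
        rw [L.st.orth _ _ (fun h => hne (sh_ext h0 h1 h)), zero_mul]
      · rw [if_neg (show ¬ (ν 0 + ν 1 = ν' 0 + ν' 1) by omega), mul_zero, mul_zero]
    · rw [if_neg h0, zero_mul, mul_zero]

/-- the new arcs -/
def qS (x : OmS L S) : Om K (M + 1) := omk (L.q x.1) (S.q x.2.1)

theorem qS_pre (s : Om K M) (t : Fin K) :
    qS L S ⁻¹' {omk s t} = (L.q ⁻¹' {s}) ×ˢ ((S.q ⁻¹' {t}) ×ˢ Set.univ) := by
  ext x
  simp only [Set.mem_preimage, Set.mem_singleton_iff, qS, omk_inj, Set.mem_prod, Set.mem_univ,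
    and_true]

theorem int_qS (f : L.Ω → ℂ) (g h : S.T → ℂ) (s : Om K M) (t : Fin K) :
    ∫ x in qS L S ⁻¹' {omk s t}, f x.1 * (g x.2.1 * h x.2.2) ∂(PS L S) =
      (∫ ω in L.q ⁻¹' {s}, f ω ∂L.P) * ((∫ y in S.q ⁻¹' {t}, g y ∂S.μ) * ∫ y, h y ∂S.μ) := by
  rw [qS_pre, PS, int3_set]

/-- the new approximate indicators -/
noncomputable def φS (a : Om K (M + 1)) (x : OmS L S) : ℂ := L.φ (omp a) x.1 * S.φ (oml a) x.2.1

/-- the new approximate walk functions -/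
noncomputable def ΦS (ξ : Xi K (M + 1)) (x : OmS L S) : ℂ :=
  xcases (fun ξ => L.Φ ξ x.1) (fun a => L.φ a x.1 * (S.u x.2.1 / S.γ)) ξ

theorem φS_omk (a : Om K M) (t : Fin K) (x : OmS L S) :
    φS L S (omk a t) x = L.φ a x.1 * S.φ t x.2.1 := rfl
theorem ΦS_xil (ξ : Xi K M) (x : OmS L S) : ΦS L S (xil ξ) x = L.Φ ξ x.1 := rfl
theorem ΦS_xir (a : Om K M) (x : OmS L S) :
    ΦS L S (xir a) x = L.φ a x.1 * (S.u x.2.1 / S.γ) := rfl

/-- new product of auxiliary variables -/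
noncomputable def ZS (x : OmS L S) : ℂ := L.Z x.1 * S.u x.2.2

/-- new fast variable -/
noncomputable def YS (x : OmS L S) : ℂ := L.Y x.1 * (S.u x.2.1 ^ S.D * S.u x.2.2 ^ (2 * S.D))

theorem int_u_div (S : StepData K ε) : Integrable (fun t => S.u t / S.γ) S.μ := by
  refine Integrable.of_bound (C := 1 / ‖S.γ‖) ?_ ?_
  · exact (S.meas_u.div_const _).aestronglyMeasurable
  · exact Filter.Eventually.of_forall fun t => by rw [norm_div, S.norm_u]

theorem intS {f : L.Ω → ℂ} {g : S.T → ℂ} (hf : Integrable f L.P) (hg : Integrable g S.μ) :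
    Integrable (fun x : OmS L S => f x.1 * g x.2.1) (PS L S) := by
  have h1 : Integrable (fun y : S.T × S.T => g y.1) (S.μ.prod S.μ) := hg.comp_fst S.μ
  exact hf.mul_prod h1

theorem eval_shift (x : OmS L S) (p : MvPolynomial ℕ ℂ) :
    MvPolynomial.eval (wS L S x) (MvPolynomial.rename (· + 2) p) =
      MvPolynomial.eval (L.w x.1) p := by
  rw [MvPolynomial.eval_rename]
  rfl

theorem P1S (a : Om K (M + 1)) (n : ℕ) : ∃ p : MvPolynomial ℕ ℂ, ∀ x,
    MvPolynomial.eval (wS L S x) p = ZS L S x * YS L S x ^ (n + 1) * φS L S a x := by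
  choose E hE using L.P1
  refine ⟨∑ j ∈ Finset.range (2 * S.D + 1), MvPolynomial.C (S.coef (oml a) j) *
    MvPolynomial.X 0 ^ (S.D * n + j) * MvPolynomial.X 1 ^ (1 + S.D * n + (2 * S.D - j)) *
      MvPolynomial.rename (· + 2) (E (omp a) (n + S.D * n + j)), fun x => ?_⟩
  have hu := conj_mul_self_of_norm (S.norm_u x.2.1)
  have hY := conj_mul_self_of_norm (L.norm_Y x.1)
  rw [map_sum, φS, S.φ_eq, ZS, YS]
  have h1 : S.u x.2.1 ^ (S.D * (n + 1)) * (starRingEnd ℂ) (S.u x.2.1) ^ S.D = S.u x.2.1 ^ (S.D * n) := by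
    rw [mul_add, mul_one, pow_add, mul_assoc, ← mul_pow, mul_comm (S.u x.2.1), hu, one_pow,
      mul_one]
  have h2 : L.Z x.1 * S.u x.2.2 * (L.Y x.1 * (S.u x.2.1 ^ S.D * S.u x.2.2 ^ (2 * S.D))) ^ (n + 1) *
      (L.φ (omp a) x.1 * ((∑ j ∈ Finset.range (2 * S.D + 1), S.coef (oml a) j * S.u x.2.1 ^ j) *
        (starRingEnd ℂ) (S.u x.2.1) ^ S.D)) =
      (∑ j ∈ Finset.range (2 * S.D + 1), S.coef (oml a) j * S.u x.2.1 ^ j) *
        (L.Z x.1 * L.Y x.1 ^ (n + 1) * L.φ (omp a) x.1 * S.u x.2.2 ^ (1 + 2 * S.D * (n + 1)) *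
          (S.u x.2.1 ^ (S.D * (n + 1)) * (starRingEnd ℂ) (S.u x.2.1) ^ S.D)) := by
    ring
  rw [h2, h1, Finset.sum_mul]
  refine Finset.sum_congr rfl fun j hj => ?_
  have hj' : j ≤ 2 * S.D := by rw [Finset.mem_range] at hj; omega
  obtain ⟨i, hi⟩ := Nat.exists_eq_add_of_le hj'
  simp only [map_mul, map_pow, MvPolynomial.eval_C, MvPolynomial.eval_X, eval_shift, hE,
    wS_zero, wS_one]
  have h3 : 2 * S.D - j = i := by omega
  rw [h3]
  have h4 : (starRingEnd ℂ) (L.Y x.1) ^ (S.D * n + j) * L.Y x.1 ^ (n + S.D * n + j + 1) =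
      L.Y x.1 ^ (n + 1) := by
    have : n + S.D * n + j + 1 = (S.D * n + j) + (n + 1) := by ring
    rw [this, pow_add (L.Y x.1) (S.D * n + j) (n + 1), ← mul_assoc, ← mul_pow, hY, one_pow,
      one_mul]
  have h5 : S.u x.2.2 ^ (1 + 2 * S.D * (n + 1)) =
      S.u x.2.2 ^ (S.D * n + j) * S.u x.2.2 ^ (1 + S.D * n + i) := by
    rw [← pow_add]
    congr 1
    have : 2 * S.D * (n + 1) = 2 * (S.D * n) + 2 * S.D := by ring
    rw [this]
    omega
  calc S.coef (oml a) j * (S.u x.2.1 * S.u x.2.2 * (starRingEnd ℂ) (L.Y x.1)) ^ (S.D * n + j) *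
        S.u x.2.2 ^ (1 + S.D * n + i) *
        (L.Z x.1 * L.Y x.1 ^ (n + S.D * n + j + 1) * L.φ (omp a) x.1)
      = S.coef (oml a) j * S.u x.2.1 ^ (S.D * n + j) *
        (S.u x.2.2 ^ (S.D * n + j) * S.u x.2.2 ^ (1 + S.D * n + i)) *
        (L.Z x.1 * ((starRingEnd ℂ) (L.Y x.1) ^ (S.D * n + j) * L.Y x.1 ^ (n + S.D * n + j + 1)) *
          L.φ (omp a) x.1) := by ring
    _ = _ := by rw [h4, ← h5, pow_add]; ring

theorem P2S (ξ : Xi K (M + 1)) : ∃ p : MvPolynomial ℕ ℂ, ∀ x,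
    MvPolynomial.eval (wS L S x) p = ZS L S x * ΦS L S ξ x := by
  revert ξ
  refine forall_Xi_succ ?_ ?_
  · intro ξ
    obtain ⟨p, hp⟩ := L.P2 ξ
    refine ⟨MvPolynomial.X 1 * MvPolynomial.rename (· + 2) p, fun x => ?_⟩
    rw [map_mul, eval_shift, hp, MvPolynomial.eval_X, wS_one, ZS, ΦS_xil]
    ring
  · intro a
    obtain ⟨p, hp⟩ := L.P1 a 0
    refine ⟨MvPolynomial.C (1 / S.γ) * MvPolynomial.X 0 * MvPolynomial.rename (· + 2) p,
      fun x => ?_⟩
    have hY := conj_mul_self_of_norm (L.norm_Y x.1)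
    rw [map_mul, map_mul, eval_shift, hp, MvPolynomial.eval_X, MvPolynomial.eval_C, wS_zero, ZS,
      ΦS_xir, zero_add, pow_one]
    calc 1 / S.γ * (S.u x.2.1 * S.u x.2.2 * (starRingEnd ℂ) (L.Y x.1)) * (L.Z x.1 * L.Y x.1 * L.φ a x.1)
        = 1 / S.γ * (S.u x.2.1 * S.u x.2.2 * ((starRingEnd ℂ) (L.Y x.1) * L.Y x.1)) *
          (L.Z x.1 * L.φ a x.1) := by ring
      _ = _ := by rw [hY]; ring

theorem card_succ_cast : (Fintype.card (Om K (M + 1)) : ℂ) = Fintype.card (Om K M) * K := by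
  rw [card_Om_succ]
  push_cast
  rfl

theorem card_succ_cast' : (Fintype.card (Om K (M + 1)) : ℝ) = Fintype.card (Om K M) * K := by
  rw [card_Om_succ]
  push_cast
  rfl

theorem int_one' : ∫ _y, (1 : ℂ) ∂S.μ = 1 := by simp

theorem P3S (a b : Om K (M + 1)) : ∫ x in qS L S ⁻¹' {b}, φS L S a x ∂(PS L S) =
    if a = b then (1 : ℂ) / (Fintype.card (Om K (M + 1)) : ℂ) else 0 := by
  rw [← omk_eta a, ← omk_eta b]
  have h := int_qS L S (L.φ (omp a)) (S.φ (oml a)) (fun _ => 1) (omp b) (oml b)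
  simp only [mul_one] at h
  simp only [φS_omk]
  rw [h, L.P3, S.dual, int_one', card_succ_cast]
  by_cases h1 : omp a = omp b
  · by_cases h2 : oml a = oml b
    · rw [if_pos h1, if_pos h2, if_pos (omk_inj.2 ⟨h1, h2⟩)]
      field_simp
    · rw [if_neg h2, if_neg (fun h => h2 (omk_inj.1 h).2)]
      ring
  · rw [if_neg h1, if_neg (fun h => h1 (omk_inj.1 h).1)]
    ring

theorem P4S (ξ : Xi K (M + 1)) (b : Om K (M + 1)) :
    ∫ x in qS L S ⁻¹' {b}, ΦS L S ξ x ∂(PS L S) =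
      bet K (M + 1) ξ b / (Fintype.card (Om K (M + 1)) : ℂ) := by
  rw [← omk_eta b]
  revert ξ
  refine forall_Xi_succ ?_ ?_
  · intro ξ
    have h := int_qS L S (L.Φ ξ) (fun _ => 1) (fun _ => 1) (omp b) (oml b)
    simp only [mul_one] at h
    simp only [ΦS_xil]
    rw [h, L.P4, S.int_one, int_one', card_succ_cast, bet_xil]
    field_simp
  · intro a
    have h := int_qS L S (L.φ a) (fun t => S.u t / S.γ) (fun _ => 1) (omp b) (oml b)
    simp only [mul_one] at h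
    simp only [ΦS_xir]
    have hγ := S.γ_ne
    rw [h, L.P3, integral_div, S.int_u, int_one', card_succ_cast, bet_xir]
    by_cases h1 : a = omp b
    · rw [if_pos h1, if_pos h1.symm]
      field_simp
    · rw [if_neg h1, if_neg (Ne.symm h1)]
      ring

theorem P5S (ν : ℕ →₀ ℕ) : ∃ c : Xi K (M + 1) → ℂ, ∀ s,
    ∫ x in qS L S ⁻¹' {s}, (ν.prod fun i k => wS L S x i ^ k) * (starRingEnd ℂ) (ZS L S x) ∂(PS L S) =
      (∑ ξ, c ξ * bet K (M + 1) ξ s) / (Fintype.card (Om K (M + 1)) : ℂ) := by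
  have hd : ∀ x : OmS L S, (ν.prod fun i k => wS L S x i ^ k) * (starRingEnd ℂ) (ZS L S x) =
      ((starRingEnd ℂ) (L.Y x.1) ^ ν 0 * ((sh ν).prod fun i k => L.w x.1 i ^ k) * (starRingEnd ℂ) (L.Z x.1)) *
        (S.u x.2.1 ^ ν 0 * (S.u x.2.2 ^ (ν 0 + ν 1) * (starRingEnd ℂ) (S.u x.2.2) ^ 1)) := by
    intro x
    rw [wS_mon, ZS]
    simp only [map_mul]
    ring
  simp only [hd]
  have hint : ∀ s, ∫ x in qS L S ⁻¹' {s}, ((starRingEnd ℂ) (L.Y x.1) ^ ν 0 *
      ((sh ν).prod fun i k => L.w x.1 i ^ k) * (starRingEnd ℂ) (L.Z x.1)) *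
        (S.u x.2.1 ^ ν 0 * (S.u x.2.2 ^ (ν 0 + ν 1) * (starRingEnd ℂ) (S.u x.2.2) ^ 1)) ∂(PS L S) =
      (∫ ω in L.q ⁻¹' {omp s}, ((starRingEnd ℂ) (L.Y ω) ^ ν 0 *
      ((sh ν).prod fun i k => L.w ω i ^ k) * (starRingEnd ℂ) (L.Z ω)) ∂L.P) *
        ((∫ t in S.q ⁻¹' {oml s}, S.u t ^ ν 0 ∂S.μ) * (if ν 0 + ν 1 = 1 then 1 else 0)) := by
    intro s
    rw [← omk_eta s, omp_omk, oml_omk, ← S.int_pow]
    exact int_qS L S (fun ω => (starRingEnd ℂ) (L.Y ω) ^ ν 0 *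
      ((sh ν).prod fun i k => L.w ω i ^ k) * (starRingEnd ℂ) (L.Z ω)) (fun t => S.u t ^ ν 0)
      (fun t => S.u t ^ (ν 0 + ν 1) * (starRingEnd ℂ) (S.u t) ^ 1) (omp s) (oml s)
  simp only [hint]
  by_cases h01 : ν 0 + ν 1 = 1
  · simp only [if_pos h01, mul_one]
    rcases Nat.eq_zero_or_pos (ν 0) with h0 | h0
    · obtain ⟨c, hc⟩ := L.P5 (sh ν)
      refine ⟨xcases c (fun _ => 0), fun s => ?_⟩
      simp only [h0, pow_zero, one_mul, hc, S.int_one]
      rw [sum_Xi_succ, card_succ_cast]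
      rw [← omk_eta s]
      simp only [xcases_xil, xcases_xir, bet_xil, omp_omk, zero_mul,
        Finset.sum_const_zero, add_zero]
      field_simp
    · have h0' : ν 0 = 1 := by omega
      refine ⟨xcases (fun _ => 0) (fun a => (∫ ω in L.q ⁻¹' {a}, ((starRingEnd ℂ) (L.Y ω) ^ ν 0 *
        ((sh ν).prod fun i k => L.w ω i ^ k) * (starRingEnd ℂ) (L.Z ω)) ∂L.P) * S.γ *
          (Fintype.card (Om K M) : ℂ)), fun s => ?_⟩
      rcases Nat.eq_zero_or_pos K with hK | hK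
      · subst hK
        exact (oml s).elim0
      have hc : (Fintype.card (Om K M) : ℂ) ≠ 0 := by
        exact_mod_cast (card_Om_pos hK M).ne'
      simp only [h0', pow_one, S.int_u]
      rw [sum_Xi_succ, card_succ_cast]
      rw [← omk_eta s]
      simp only [xcases_xil, xcases_xir, bet_xil, bet_xir, omp_omk, oml_omk, zero_mul,
        Finset.sum_const_zero, zero_add, mul_ite, mul_zero]
      rw [Finset.sum_ite_eq]
      simp only [Finset.mem_univ, if_true]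
      field_simp
  · simp only [if_neg h01, mul_zero]
    refine ⟨fun _ => 0, fun s => ?_⟩
    simp

theorem int_φS_norm (a : Om K M) (t : Fin K) :
    ∫ x, ‖φS L S (omk a t) x‖ ∂(PS L S) = (∫ ω, ‖L.φ a ω‖ ∂L.P) * ∫ y, ‖S.φ t y‖ ∂S.μ := by
  have h := int3_real L.P S.μ (fun ω => ‖L.φ a ω‖) (fun y => ‖S.φ t y‖) (fun _ => 1)
  simp only [mul_one] at h
  simp only [φS_omk, norm_mul]
  rw [PS, h]
  simp

theorem StepData.int_ind (S : StepData K ε) (b : Fin K) :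
    Integrable (fun t => if S.q t = b then (1 : ℂ) else 0) S.μ := by
  refine Integrable.of_bound (C := 1) ?_ ?_
  · exact (Measurable.ite (S.meas_q b) measurable_const measurable_const).aestronglyMeasurable
  · refine Filter.Eventually.of_forall fun t => ?_
    split_ifs <;> simp

theorem StepData.int_sub (S : StepData K ε) (b : Fin K) :
    Integrable (fun t => ‖S.φ b t - (if S.q t = b then (1 : ℂ) else 0)‖) S.μ :=
  ((S.int_φ b).sub (S.int_ind b)).norm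

theorem StepData.norm_ind (S : StepData K ε) (b : Fin K) :
    ∫ t, ‖(if S.q t = b then (1 : ℂ) else 0)‖ ∂S.μ = 1 / (K : ℝ) := by
  have h1 : ∀ t, ‖(if S.q t = b then (1 : ℂ) else 0)‖ =
      (S.q ⁻¹' {b}).indicator (fun _ => (1 : ℝ)) t := by
    intro t
    by_cases h : S.q t = b
    · rw [if_pos h, Set.indicator_of_mem (by simpa using h), norm_one]
    · rw [if_neg h, Set.indicator_of_notMem (by simpa using h), norm_zero]
  simp only [h1]
  rw [integral_indicator (S.meas_q b)]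
  have h2 := S.int_one b
  rw [setIntegral_const] at h2 ⊢
  simp only [smul_eq_mul, mul_one, Complex.real_smul] at h2 ⊢
  have h3 : ((S.μ.real (S.q ⁻¹' {b}) : ℝ) : ℂ) = ((1 / (K : ℝ) : ℝ) : ℂ) := by
    rw [h2]
    push_cast
    rfl
  exact_mod_cast h3

theorem StepData.norm_φ (S : StepData K ε) (b : Fin K) :
    ∫ t, ‖S.φ b t‖ ∂S.μ ≤ (1 + ε) / (K : ℝ) := by
  have h1 : ∫ t, ‖S.φ b t‖ ∂S.μ ≤ ∫ t, (‖S.φ b t - (if S.q t = b then (1 : ℂ) else 0)‖ +
      ‖(if S.q t = b then (1 : ℂ) else 0)‖) ∂S.μ := by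
    refine integral_mono (S.int_φ b).norm ((S.int_sub b).add (S.int_ind b).norm) fun t => ?_
    have := norm_add_le (S.φ b t - (if S.q t = b then (1 : ℂ) else 0))
      (if S.q t = b then (1 : ℂ) else 0)
    simpa using this
  rw [integral_add (S.int_sub b) (S.int_ind b).norm, S.norm_ind] at h1
  have h2 := S.approx b
  have h3 : (1 + ε) / (K : ℝ) = ε / K + 1 / K := by ring
  rw [h3]
  exact h1.trans (add_le_add_left h2 _)

theorem StepData.one_sub (S : StepData K ε) :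
    ∫ t, ‖1 - ∑ b, S.φ b t‖ ∂S.μ ≤ ε := by
  have h0 : ∀ t, (1 : ℂ) = ∑ b, (if S.q t = b then (1 : ℂ) else 0) := by
    intro t
    simp
  have h1 : ∫ t, ‖1 - ∑ b, S.φ b t‖ ∂S.μ ≤
      ∫ t, ∑ b, ‖S.φ b t - (if S.q t = b then (1 : ℂ) else 0)‖ ∂S.μ := by
    refine integral_mono_of_nonneg (Filter.Eventually.of_forall fun t => norm_nonneg _)
      (integrable_finsetSum _ fun b _ => S.int_sub b)
      (Filter.Eventually.of_forall fun t => ?_)
    have h2 : 1 - ∑ b, S.φ b t = -∑ b, (S.φ b t - (if S.q t = b then (1 : ℂ) else 0)) := by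
      rw [Finset.sum_sub_distrib, ← h0]
      ring
    simp only
    rw [h2, norm_neg]
    exact norm_sum_le _ _
  rw [integral_finsetSum _ fun b _ => S.int_sub b] at h1
  refine h1.trans ((Finset.sum_le_sum fun b _ => S.approx b).trans ?_)
  rw [Finset.sum_const, Finset.card_univ, Fintype.card_fin, nsmul_eq_mul]
  rcases Nat.eq_zero_or_pos K with hK | hK
  · subst hK
    exact ((S.μ).nonempty_of_neZero.elim fun t => (S.q t).elim0)
  · have : (K : ℝ) ≠ 0 := by exact_mod_cast hK.ne'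
    rw [mul_div_cancel₀ _ this]

theorem StepData.u_sub (S : StepData K ε) :
    ∫ t, ‖S.u t / S.γ - ∑ b, rt K b * S.φ b t‖ ∂S.μ ≤ 2 * ε := by
  have h0 : ∀ t, rt K (S.q t) = ∑ b, rt K b * (if S.q t = b then (1 : ℂ) else 0) := by
    intro t
    simp
  have hi := integrable_finsetSum (μ := S.μ) (Finset.univ : Finset (Fin K))
    fun b _ => S.int_sub b
  have h1 : ∫ t, ‖S.u t / S.γ - ∑ b, rt K b * S.φ b t‖ ∂S.μ ≤
      ∫ t, (ε + ∑ b, ‖S.φ b t - (if S.q t = b then (1 : ℂ) else 0)‖) ∂S.μ := by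
    refine integral_mono_of_nonneg (Filter.Eventually.of_forall fun t => norm_nonneg _)
      ((integrable_const _).add hi) (Filter.Eventually.of_forall fun t => ?_)
    have h2 : S.u t / S.γ - ∑ b, rt K b * S.φ b t = (S.u t / S.γ - rt K (S.q t)) +
        -∑ b, rt K b * (S.φ b t - (if S.q t = b then (1 : ℂ) else 0)) := by
      simp only [mul_sub]
      rw [Finset.sum_sub_distrib, ← h0]
      ring
    simp only
    rw [h2]
    refine (norm_add_le _ _).trans (add_le_add (S.close t) ?_)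
    rw [norm_neg]
    refine (norm_sum_le _ _).trans (Finset.sum_le_sum fun b _ => ?_)
    rw [norm_mul, norm_rt, one_mul]
  rw [integral_add (integrable_const _) hi,
    integral_finsetSum _ fun b _ => S.int_sub b] at h1
  refine h1.trans ?_
  have h3 : ∑ b : Fin K, ∫ t, ‖S.φ b t - (if S.q t = b then (1 : ℂ) else 0)‖ ∂S.μ ≤ ε := by
    refine (Finset.sum_le_sum fun b _ => S.approx b).trans ?_
    rw [Finset.sum_const, Finset.card_univ, Fintype.card_fin, nsmul_eq_mul]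
    rcases Nat.eq_zero_or_pos K with hK | hK
    · subst hK
      exact ((S.μ).nonempty_of_neZero.elim fun t => (S.q t).elim0)
    · have : (K : ℝ) ≠ 0 := by exact_mod_cast hK.ne'
      rw [mul_div_cancel₀ _ this]
  have h4 : ∫ _t, ε ∂S.μ = ε := by simp
  rw [h4]
  linarith

theorem Level.norm_comb (L : Level K M κ δ) (d : Om K M → ℂ) :
    ∫ ω, ‖∑ a, d a * L.φ a ω‖ ∂L.P ≤ κ * avg (fun a => ‖d a‖) := by
  have h1 : ∫ ω, ‖∑ a, d a * L.φ a ω‖ ∂L.P ≤ ∫ ω, ∑ a, ‖d a‖ * ‖L.φ a ω‖ ∂L.P := by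
    refine integral_mono_of_nonneg (Filter.Eventually.of_forall fun t => norm_nonneg _)
      (integrable_finsetSum _ fun a _ => (L.int_φ a).norm.const_mul _)
      (Filter.Eventually.of_forall fun t => ?_)
    refine (norm_sum_le _ _).trans (le_of_eq (Finset.sum_congr rfl fun a _ => norm_mul _ _))
  rw [integral_finsetSum _ fun a _ => (L.int_φ a).norm.const_mul _] at h1
  refine h1.trans ?_
  rw [avg, Finset.sum_div, Finset.mul_sum]
  refine Finset.sum_le_sum fun a _ => ?_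
  rw [integral_const_mul]
  have h2 := mul_le_mul_of_nonneg_left (L.P6 a) (norm_nonneg (d a))
  refine h2.trans (le_of_eq ?_)
  ring

theorem P6S (hκ : 0 ≤ κ) (a : Om K (M + 1)) : ∫ x, ‖φS L S a x‖ ∂(PS L S) ≤
    κ * (1 + ε) / (Fintype.card (Om K (M + 1)) : ℝ) := by
  rw [← omk_eta a, int_φS_norm, card_succ_cast']
  have h1 := L.P6 (omp a)
  have h2 := S.norm_φ (oml a)
  have h3 : 0 ≤ ∫ t, ‖S.φ (oml a) t‖ ∂S.μ := integral_nonneg fun t => norm_nonneg _
  have h4 : 0 ≤ κ / (Fintype.card (Om K M) : ℝ) := by positivity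
  refine (mul_le_mul h1 h2 h3 h4).trans (le_of_eq ?_)
  rw [div_mul_div_comm]

theorem P7S (hK : 2 ≤ K) (hκ : 0 ≤ κ) (hδ : 0 ≤ δ) (c : Xi K (M + 1) → ℂ) :
    ∫ x, ‖∑ ξ, c ξ * ΦS L S ξ x - ∑ a, wf c a * φS L S a x‖ ∂(PS L S) ≤
      (δ + 3 * ε * κ) * avg (fun s => ‖wf c s‖) := by
  set c' : Xi K M → ℂ := fun ξ => c (xil ξ) with hc'
  set g : Om K M → ℂ := fun a => c (xir a) with hg
  set R : L.Ω → ℂ := fun ω => ∑ ξ, c' ξ * L.Φ ξ ω - ∑ a, wf c' a * L.φ a ω with hR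
  set A : L.Ω → ℂ := fun ω => ∑ a, wf c' a * L.φ a ω with hA
  set B : L.Ω → ℂ := fun ω => ∑ a, g a * L.φ a ω with hB
  set θ : S.T → ℂ := fun t => 1 - ∑ b, S.φ b t with hθ
  set ψ : S.T → ℂ := fun t => S.u t / S.γ - ∑ b, rt K b * S.φ b t with hψ
  have hA' : Integrable A L.P := integrable_finsetSum _ fun a _ => (L.int_φ a).const_mul _
  have hB' : Integrable B L.P := integrable_finsetSum _ fun a _ => (L.int_φ a).const_mul _
  have hR' : Integrable R L.P :=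
    (integrable_finsetSum _ fun ξ _ => (L.int_Φ ξ).const_mul _).sub hA'
  have hθ' : Integrable θ S.μ :=
    (integrable_const _).sub (integrable_finsetSum _ fun b _ => S.int_φ b)
  have hψ' : Integrable ψ S.μ :=
    (int_u_div S).sub (integrable_finsetSum _ fun b _ => (S.int_φ b).const_mul _)
  have hid : ∀ x : OmS L S, ∑ ξ, c ξ * ΦS L S ξ x - ∑ a, wf c a * φS L S a x =
      R x.1 * 1 + (A x.1 * θ x.2.1 + B x.1 * ψ x.2.1) := by
    intro x
    rw [sum_Xi_succ, sum_Om_succ]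
    simp only [ΦS_xil, ΦS_xir, φS_omk, wf_succ]
    have h1 : ∑ a : Om K M, ∑ b : Fin K, (wf (fun ξ => c (xil ξ)) a + rt K b * c (xir a)) *
        (L.φ a x.1 * S.φ b x.2.1) = A x.1 * (∑ b, S.φ b x.2.1) +
          B x.1 * ∑ b, rt K b * S.φ b x.2.1 := by
      simp only [hA, hB]
      rw [Finset.sum_mul_sum, Finset.sum_mul_sum, ← Finset.sum_add_distrib]
      refine Finset.sum_congr rfl fun a _ => ?_
      rw [← Finset.sum_add_distrib]
      refine Finset.sum_congr rfl fun b _ => ?_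
      simp only [hc', hg]
      ring
    have h2 : ∑ a : Om K M, c (xir a) * (L.φ a x.1 * (S.u x.2.1 / S.γ)) =
        B x.1 * (S.u x.2.1 / S.γ) := by
      simp only [hB]
      rw [Finset.sum_mul]
      refine Finset.sum_congr rfl fun a _ => ?_
      simp only [hg]
      ring
    rw [h1, h2]
    simp only [hR, hθ, hψ, hA]
    ring
  simp only [hid]
  have i1 : Integrable (fun x : OmS L S => R x.1 * 1) (PS L S) :=
    intS L S hR' (integrable_const (1 : ℂ))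
  have i2 : Integrable (fun x : OmS L S => A x.1 * θ x.2.1) (PS L S) := intS L S hA' hθ'
  have i3 : Integrable (fun x : OmS L S => B x.1 * ψ x.2.1) (PS L S) := intS L S hB' hψ'
  have e1 : ∀ (f : L.Ω → ℂ) (h : S.T → ℂ), ∫ x : OmS L S, ‖f x.1 * h x.2.1‖ ∂(PS L S) =
      (∫ ω, ‖f ω‖ ∂L.P) * ∫ y, ‖h y‖ ∂S.μ := by
    intro f h
    have h' := int3_real L.P S.μ (fun ω => ‖f ω‖) (fun y => ‖h y‖) (fun _ => 1)
    simp only [mul_one] at h'
    simp only [norm_mul]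
    rw [PS, h']
    simp
  have h1 : ∫ x : OmS L S, ‖R x.1 * 1 + (A x.1 * θ x.2.1 + B x.1 * ψ x.2.1)‖ ∂(PS L S) ≤
      ∫ x : OmS L S, (‖R x.1 * 1‖ + (‖A x.1 * θ x.2.1‖ + ‖B x.1 * ψ x.2.1‖)) ∂(PS L S) := by
    refine integral_mono (i1.add (i2.add i3)).norm (i1.norm.add (i2.norm.add i3.norm)) fun x => ?_
    exact (norm_add_le _ _).trans (add_le_add_right (norm_add_le _ _) _)
  refine h1.trans ?_
  have i4 : Integrable (fun x : OmS L S => ‖A x.1 * θ x.2.1‖ + ‖B x.1 * ψ x.2.1‖) (PS L S) :=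
    i2.norm.add i3.norm
  have h2 : ∫ x : OmS L S, (‖R x.1 * 1‖ + (‖A x.1 * θ x.2.1‖ + ‖B x.1 * ψ x.2.1‖)) ∂(PS L S) =
      ∫ x : OmS L S, ‖R x.1 * 1‖ ∂(PS L S) +
        ∫ x : OmS L S, (‖A x.1 * θ x.2.1‖ + ‖B x.1 * ψ x.2.1‖) ∂(PS L S) :=
    integral_add i1.norm i4
  have h3 : ∫ x : OmS L S, (‖A x.1 * θ x.2.1‖ + ‖B x.1 * ψ x.2.1‖) ∂(PS L S) =
    ∫ x : OmS L S, ‖A x.1 * θ x.2.1‖ ∂(PS L S) + ∫ x : OmS L S, ‖B x.1 * ψ x.2.1‖ ∂(PS L S) :=
    integral_add i2.norm i3.norm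
  have h4 : ∫ x : OmS L S, ‖R x.1 * 1‖ ∂(PS L S) = ∫ ω, ‖R ω‖ ∂L.P := by
    have := e1 R (fun _ => 1)
    rw [this]
    simp
  rw [h2, h3, h4, e1, e1]
  obtain ⟨a1, a2⟩ := avg_wf_le hK c
  have b1 : ∫ ω, ‖R ω‖ ∂L.P ≤ δ * avg (fun s => ‖wf c' s‖) := L.P7 c'
  have b2 : ∫ ω, ‖A ω‖ ∂L.P ≤ κ * avg (fun s => ‖wf c' s‖) := L.norm_comb (wf c')
  have b3 : ∫ ω, ‖B ω‖ ∂L.P ≤ κ * avg (fun s => ‖g s‖) := L.norm_comb g
  have c1 := S.one_sub
  have c2 := S.u_sub
  have hn : 0 ≤ avg (fun s : Om K (M + 1) => ‖wf c s‖) := by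
    unfold avg
    positivity
  have hn' : 0 ≤ avg (fun s : Om K M => ‖wf c' s‖) := by
    unfold avg
    positivity
  have hn'' : 0 ≤ avg (fun s : Om K M => ‖g s‖) := by
    unfold avg
    positivity
  set N := avg (fun s : Om K (M + 1) => ‖wf c s‖)
  have d1 : (∫ ω, ‖A ω‖ ∂L.P) * (∫ y, ‖θ y‖ ∂S.μ) ≤ (κ * N) * ε :=
    mul_le_mul (b2.trans (mul_le_mul_of_nonneg_left a1 hκ)) c1
      (integral_nonneg fun t => norm_nonneg _) (mul_nonneg hκ hn)
  have d2 : (∫ ω, ‖B ω‖ ∂L.P) * (∫ y, ‖ψ y‖ ∂S.μ) ≤ (κ * N) * (2 * ε) :=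
    mul_le_mul (b3.trans (mul_le_mul_of_nonneg_left a2 hκ)) c2
      (integral_nonneg fun t => norm_nonneg _) (mul_nonneg hκ hn)
  have d3 : ∫ ω, ‖R ω‖ ∂L.P ≤ δ * N := b1.trans (mul_le_mul_of_nonneg_left a1 hδ)
  calc _ ≤ δ * N + ((κ * N) * ε + (κ * N) * (2 * ε)) := add_le_add d3 (add_le_add d1 d2)
    _ = _ := by ring

/-- the successor level -/
noncomputable def Level.succ (hK : 2 ≤ K) (hκ : 0 ≤ κ) (hδ : 0 ≤ δ) :
    Level K (M + 1) (κ * (1 + ε)) (δ + 3 * ε * κ) where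
  Ω := OmS L S
  P := PS L S
  w := wS L S
  st := wS_st L S
  q := qS L S
  meas_q s := by
    rw [← omk_eta s, qS_pre]
    exact (L.meas_q _).prod ((S.meas_q _).prod MeasurableSet.univ)
  Z := ZS L S
  meas_Z := (L.meas_Z.comp measurable_fst).mul (S.meas_u.comp (measurable_snd.comp measurable_snd))
  norm_Z x := by rw [ZS, norm_mul, L.norm_Z, S.norm_u, one_mul]
  Y := YS L S
  meas_Y := (L.meas_Y.comp measurable_fst).mul
    (((S.meas_u.comp (measurable_fst.comp measurable_snd)).pow_const _).mul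
      ((S.meas_u.comp (measurable_snd.comp measurable_snd)).pow_const _))
  norm_Y x := by
    rw [YS, norm_mul, norm_mul, norm_pow, norm_pow, L.norm_Y, S.norm_u, S.norm_u]
    simp
  φ := φS L S
  int_φ a := intS L S (L.int_φ (omp a)) (S.int_φ (oml a))
  Φ := ΦS L S
  int_Φ := by
    refine forall_Xi_succ ?_ ?_
    · intro ξ
      have := intS L S (L.int_Φ ξ) (integrable_const (1 : ℂ))
      simp only [mul_one] at this
      exact this
    · intro a
      exact intS L S (L.int_φ a) (int_u_div S)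
  P1 := P1S L S
  P2 := P2S L S
  P3 := P3S L S
  P4 := P4S L S
  P5 := P5S L S
  P6 := P6S L S hκ
  P7 := P7S L S hK hκ hδ

end Succ

/-- the point -/
def om0 (K : ℕ) : Om K 0 := (() : Unit)

theorem pre0 {Ω : Type} (K : ℕ) (s : Om K 0) : (fun _ : Ω => om0 K) ⁻¹' {s} = Set.univ :=
  Set.eq_univ_of_forall fun _ => rfl

theorem card0 (K : ℕ) : Fintype.card (Om K 0) = 1 := rfl

/-- the level zero -/
noncomputable def Level.zero (K : ℕ) : Level K 0 1 0 where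
  Ω := ℕ → AddCircle (1 : ℝ)
  P := Measure.infinitePi (fun _ : ℕ => (AddCircle.haarAddCircle : Measure (AddCircle (1 : ℝ))))
  w θ i := fourier 1 (θ i)
  st := isSteinhaus_fourier ℕ
  q _ := om0 K
  meas_q s := by
    rw [pre0]
    exact MeasurableSet.univ
  Z _ := 1
  meas_Z := measurable_const
  norm_Z _ := norm_one
  Y _ := 1
  meas_Y := measurable_const
  norm_Y _ := norm_one
  φ _ _ := 1
  int_φ _ := integrable_const _
  Φ _ _ := 1
  int_Φ _ := integrable_const _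
  P1 a n := ⟨1, fun ω => by simp⟩
  P2 ξ := ⟨1, fun ω => by simp⟩
  P3 a b := by
    rw [pre0, card0, if_pos (show a = b from rfl)]
    simp
  P4 ξ b := by
    rw [pre0, card0]
    simp [bet]
  P5 ν := by
    refine ⟨fun _ => ∫ ω : ℕ → AddCircle (1 : ℝ), (ν.prod fun i k => (fourier 1 (ω i) : ℂ) ^ k) *
      (starRingEnd ℂ) 1 ∂(Measure.infinitePi
        (fun _ : ℕ => (AddCircle.haarAddCircle : Measure (AddCircle (1 : ℝ))))), fun b => ?_⟩
    rw [pre0, card0, setIntegral_univ]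
    change _ = (∑ _ξ : Unit, _ * (1 : ℂ)) / _
    simp
  P6 a := by
    rw [card0]
    simp
  P7 c := by
    have h1 : ∑ ξ : Xi K 0, c ξ * (1 : ℂ) -
        ∑ a : Om K 0, (∑ ξ, c ξ * bet K 0 ξ a) * 1 = 0 := by
      change ∑ ξ : Unit, c ξ * (1 : ℂ) - ∑ _a : Unit, (∑ ξ : Unit, c ξ * (1 : ℂ)) * 1 = 0
      simp
    rw [h1]
    simp

/-- all levels -/
theorem exists_level {K : ℕ} (hK : 2 ≤ K) {ε : ℝ} (hε : 0 ≤ ε) (S : StepData K ε) (M : ℕ) :
    Nonempty (Level K M ((1 + ε) ^ M) (3 * ((1 + ε) ^ M - 1))) := by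
  induction M with
  | zero =>
    simp only [pow_zero, sub_self, mul_zero]
    exact ⟨Level.zero K⟩
  | succ M ih =>
    obtain ⟨L⟩ := ih
    have h1 : (1 : ℝ) ≤ (1 + ε) ^ M := one_le_pow₀ (by linarith)
    have L' := L.succ S hK (by positivity) (by linarith)
    have e1 : (1 + ε) ^ M * (1 + ε) = (1 + ε) ^ (M + 1) := by ring
    have e2 : 3 * ((1 + ε) ^ M - 1) + 3 * ε * (1 + ε) ^ M = 3 * ((1 + ε) ^ (M + 1) - 1) := by ring
    rw [e1, e2] at L'
    exact ⟨L'⟩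

end HBasis.Emb
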