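import Pool.Agent.HBasis.Bellman

/-!
Good systems: ordered finite systems of functions for which the partial sums are controlled
by the Bellman function.
-/

set_option autoImplicit false

open Finset

namespace HBasis

/-- A finite system of functions `β ξ`, ordered by the rank `e`, is good if the Bellman
inequality propagates through it. -/
def Good {Ω Ξ : Type} [Fintype Ω] [Fintype Ξ] (e : Ξ → ℕ) (β : Ξ → Ω → ℂ) : Prop :=
  ∀ i : Ξ, ∃ w : ℝ, 0 ≤ w ∧ ∀ (h : Ξ → ℂ) (a b : ℂ), h i = a + b →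
    w * U a b ≤ ∑ ω, U ((∑ j, if e j < e i then h j * β j ω else 0) + a * β i ω)
      (b * β i ω + ∑ j, if e i < e j then h j * β j ω else 0)

/-- partial sums of a good system are bounded in `L¹`. -/
theorem Good.partial_sum_le {Ω Ξ : Type} [Fintype Ω] [Fintype Ξ] {e : Ξ → ℕ} {β : Ξ → Ω → ℂ}
    (hinj : Function.Injective e) (hg : Good e β) (h : Ξ → ℂ) (r : ℕ) :
    ∑ ω, ‖∑ j, if e j < r then h j * β j ω else 0‖ ≤ 4 * √2 * ∑ ω, ‖∑ j, h j * β j ω‖ := by
  classical
  -- choose the smallest index with rank at least `r`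
  by_cases hr : ∃ i, r ≤ e i
  · obtain ⟨i, hi, hmin⟩ : ∃ i, r ≤ e i ∧ ∀ j, r ≤ e j → e i ≤ e j := by
      obtain ⟨i, hi, hm⟩ := (univ.filter fun i => r ≤ e i).exists_min_image e
        (by obtain ⟨i, hi⟩ := hr; exact ⟨i, by simp [hi]⟩)
      exact ⟨i, by simpa using hi, fun j hj => hm j (by simp [hj])⟩
    have hlt : ∀ j, e j < r ↔ e j < e i := by
      intro j
      constructor
      · intro h; omega
      · intro h; by_contra hc; have := hmin j (by omega); omega
    obtain ⟨w, hw, H⟩ := hg i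
    have H := H h 0 (h i) (by ring)
    have h0 : 0 ≤ ∑ ω, U ((∑ j, if e j < e i then h j * β j ω else 0) + 0 * β i ω)
        (h i * β i ω + ∑ j, if e i < e j then h j * β j ω else 0) :=
      (mul_nonneg hw (U_zero_left_nonneg _)).trans H
    have hle : ∑ ω, U ((∑ j, if e j < e i then h j * β j ω else 0) + 0 * β i ω)
        (h i * β i ω + ∑ j, if e i < e j then h j * β j ω else 0) ≤
        ∑ ω, (4 * √2 * ‖∑ j, h j * β j ω‖ - ‖∑ j, if e j < r then h j * β j ω else 0‖) := by
      apply Finset.sum_le_sum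
      intro ω _
      refine (U_le _ _).trans (le_of_eq ?_)
      have e1 : (∑ j, if e j < e i then h j * β j ω else 0) + 0 * β i ω +
          (h i * β i ω + ∑ j, if e i < e j then h j * β j ω else 0) = ∑ j, h j * β j ω := by
        have : h i * β i ω = ∑ j, if j = i then h j * β j ω else 0 := by simp
        rw [this, zero_mul, add_zero, ← sum_add_distrib, ← sum_add_distrib]
        apply Finset.sum_congr rfl
        intro j _
        rcases lt_trichotomy (e j) (e i) with h1 | h1 | h1
        · have : j ≠ i := by rintro rfl; omega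
          simp [h1, this, h1.le]
        · have : j = i := hinj h1
          subst this; simp
        · have : j ≠ i := by rintro rfl; omega
          simp [h1, this, h1.le]
      rw [e1]
      simp only [zero_mul, add_zero, hlt]
    have := h0.trans hle
    rw [sum_sub_distrib, ← mul_sum] at this
    linarith
  · push Not at hr
    have : ∀ ω, (∑ j, if e j < r then h j * β j ω else 0) = ∑ j, h j * β j ω := by
      intro ω
      apply Finset.sum_congr rfl
      intro j _
      simp [hr j]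
    simp_rw [this]
    have h0 : 0 ≤ ∑ ω, ‖∑ j, h j * β j ω‖ := Finset.sum_nonneg fun _ _ => norm_nonneg _
    nlinarith [sqrt2_ge_one]

/-- trivial system. -/
theorem good_unit (e : Unit → ℕ) : Good (Ω := Unit) (Ξ := Unit) e (fun _ _ => (1 : ℂ)) := by
  intro i
  refine ⟨1, zero_le_one, ?_⟩
  intro h a b hab
  simp

/-- Extension by one step. -/
theorem Good.extend {Ω Ξ S : Type} [Fintype Ω] [DecidableEq Ω] [Fintype Ξ] [Fintype S] [Nonempty S]
    (s : S → ℂ) (hs : ∀ i, ‖s i‖ = 1) (h1 : ∑ i, s i = 0) (h2 : ∑ i, s i ^ 2 = 0)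
    {e : Ξ → ℕ} {β : Ξ → Ω → ℂ} (hg : Good e β) (e' : Ω → ℕ) (he' : Function.Injective e')
    (hee : ∀ ξ ω, e ξ < e' ω) :
    Good (Ω := Ω × S) (Ξ := Ξ ⊕ Ω) (Sum.elim e e')
      (fun ξ ω => Sum.elim (fun ξ' => β ξ' ω.1) (fun a => if ω.1 = a then s ω.2 else 0) ξ) := by
  have hS : (0 : ℝ) < Fintype.card S := by exact_mod_cast Fintype.card_pos
  rintro (i | a₀)
  · obtain ⟨w, hw, H⟩ := hg i
    refine ⟨Fintype.card S * w, by positivity, ?_⟩
    intro h a b hab
    have H := H (fun ξ => h (Sum.inl ξ)) a b hab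
    rw [mul_assoc]
    refine (mul_le_mul_of_nonneg_left H hS.le).trans ?_
    rw [mul_sum, Fintype.sum_prod_type]
    apply Finset.sum_le_sum
    intro ω _
    have L1 : ∀ t : S, (∑ j : Ξ ⊕ Ω, if Sum.elim e e' j < Sum.elim e e' (Sum.inl i) then
        h j * Sum.elim (fun ξ' => β ξ' ω) (fun x => if ω = x then s t else 0) j else 0) =
        ∑ j, if e j < e i then h (Sum.inl j) * β j ω else 0 := by
      intro t
      rw [Fintype.sum_sum_type]
      show (∑ x, if e x < e i then h (Sum.inl x) * β x ω else 0) +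
        (∑ x : Ω, if e' x < e i then h (Sum.inr x) * (if ω = x then s t else 0) else 0) = _
      have : (∑ x : Ω, if e' x < e i then h (Sum.inr x) * (if ω = x then s t else 0) else 0) = 0 := by
        apply Finset.sum_eq_zero
        intro x _
        have := hee i x
        rw [if_neg (by omega)]
      rw [this, add_zero]
    have L2 : ∀ t : S, (∑ j : Ξ ⊕ Ω, if Sum.elim e e' (Sum.inl i) < Sum.elim e e' j then
        h j * Sum.elim (fun ξ' => β ξ' ω) (fun x => if ω = x then s t else 0) j else 0) =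
        (∑ j, if e i < e j then h (Sum.inl j) * β j ω else 0) + s t * h (Sum.inr ω) := by
      intro t
      rw [Fintype.sum_sum_type]
      show (∑ x, if e i < e x then h (Sum.inl x) * β x ω else 0) +
        (∑ x : Ω, if e i < e' x then h (Sum.inr x) * (if ω = x then s t else 0) else 0) = _
      congr 1
      rw [Finset.sum_eq_single ω]
      · rw [if_pos (hee i ω)]; simp [mul_comm]
      · intro x _ hx
        have : ¬ (ω = x) := fun hc => hx hc.symm
        simp [this]
      · simp
    have := U_step' s hs h1 h2 ((∑ j, if e j < e i then h (Sum.inl j) * β j ω else 0) + a * β i ω)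
      (b * β i ω + ∑ j, if e i < e j then h (Sum.inl j) * β j ω else 0) (h (Sum.inr ω))
    refine this.trans (le_of_eq ?_)
    apply Finset.sum_congr rfl
    intro t _
    rw [L1 t, L2 t, ← add_assoc]
    rfl
  · refine ⟨Fintype.card S, hS.le, ?_⟩
    intro h a b hab
    rw [Fintype.sum_prod_type]
    have hmain : ∀ ω : Ω, (if ω = a₀ then (Fintype.card S : ℝ) * U a b else 0) ≤
        ∑ t : S, U ((∑ j, if Sum.elim e e' j < Sum.elim e e' (Sum.inr a₀) then
          h j * Sum.elim (fun ξ' => β ξ' ω) (fun x => if ω = x then s t else 0) j else 0) +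
            a * (if ω = a₀ then s t else 0))
          (b * (if ω = a₀ then s t else 0) +
            ∑ j, if Sum.elim e e' (Sum.inr a₀) < Sum.elim e e' j then
          h j * Sum.elim (fun ξ' => β ξ' ω) (fun x => if ω = x then s t else 0) j else 0) := by
      intro ω
      set Y : ℂ := ∑ ξ, h (Sum.inl ξ) * β ξ ω with hY
      have L1 : ∀ t : S, (∑ j : Ξ ⊕ Ω, if Sum.elim e e' j < Sum.elim e e' (Sum.inr a₀) then
          h j * Sum.elim (fun ξ' => β ξ' ω) (fun x => if ω = x then s t else 0) j else 0) =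
          Y + if e' ω < e' a₀ then s t * h (Sum.inr ω) else 0 := by
        intro t
        rw [Fintype.sum_sum_type]
        show (∑ x, if e x < e' a₀ then h (Sum.inl x) * β x ω else 0) +
          (∑ x : Ω, if e' x < e' a₀ then h (Sum.inr x) * (if ω = x then s t else 0) else 0) = _
        congr 1
        · apply Finset.sum_congr rfl
          intro x _
          rw [if_pos (hee x a₀)]
        · rw [Finset.sum_eq_single ω]
          · simp [mul_comm]
          · intro x _ hx
            have : ¬ (ω = x) := fun hc => hx hc.symm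
            simp [this]
          · simp
      have L2 : ∀ t : S, (∑ j : Ξ ⊕ Ω, if Sum.elim e e' (Sum.inr a₀) < Sum.elim e e' j then
          h j * Sum.elim (fun ξ' => β ξ' ω) (fun x => if ω = x then s t else 0) j else 0) =
          if e' a₀ < e' ω then s t * h (Sum.inr ω) else 0 := by
        intro t
        rw [Fintype.sum_sum_type]
        show (∑ x, if e' a₀ < e x then h (Sum.inl x) * β x ω else 0) +
          (∑ x : Ω, if e' a₀ < e' x then h (Sum.inr x) * (if ω = x then s t else 0) else 0) = _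
        have h0 : (∑ x, if e' a₀ < e x then h (Sum.inl x) * β x ω else 0) = 0 := by
          apply Finset.sum_eq_zero
          intro x _
          have := hee x a₀
          rw [if_neg (by omega)]
        rw [h0, zero_add, Finset.sum_eq_single ω]
        · simp [mul_comm]
        · intro x _ hx
          have : ¬ (ω = x) := fun hc => hx hc.symm
          simp [this]
        · simp
      simp only [L1, L2]
      rcases lt_trichotomy (e' ω) (e' a₀) with h3 | h3 | h3
      · have hne : ω ≠ a₀ := by rintro rfl; omega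
        simp only [hne, if_false, h3, if_true, mul_zero, add_zero, if_neg (not_lt.mpr h3.le)]
        exact Finset.sum_nonneg fun t _ => U_zero_right_nonneg _
      · have heq : ω = a₀ := he' h3
        subst heq
        simp only [lt_irrefl, if_false, if_true, add_zero]
        have := U_step_conj s hs h1 h2 Y a b
        refine this.trans (le_of_eq ?_)
        apply Finset.sum_congr rfl
        intro t _
        rw [mul_comm a, mul_comm b]
      · have hne : ω ≠ a₀ := by rintro rfl; omega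
        simp only [hne, if_false, h3, if_true, mul_zero, add_zero, zero_add,
          if_neg (not_lt.mpr h3.le)]
        have := U_step' s hs h1 h2 Y 0 (h (Sum.inr ω))
        refine le_trans (mul_nonneg hS.le (U_zero_right_nonneg _)) (this.trans (le_of_eq ?_))
        simp
    refine le_trans (le_of_eq ?_) (Finset.sum_le_sum fun ω _ => hmain ω)
    simp

/-- Lexicographic product: the second factor is more significant. -/
theorem Good.prod {Ω₁ Ξ₁ Ω₂ Ξ₂ : Type} [Fintype Ω₁] [Fintype Ξ₁] [Fintype Ω₂] [Fintype Ξ₂]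
    [DecidableEq Ξ₂]
    {e₁ : Ξ₁ → ℕ} {β₁ : Ξ₁ → Ω₁ → ℂ} {e₂ : Ξ₂ → ℕ} {β₂ : Ξ₂ → Ω₂ → ℂ}
    (hg₁ : Good e₁ β₁) (hg₂ : Good e₂ β₂) (he₁ : Function.Injective e₁)
    (he₂ : Function.Injective e₂)
    (n : ℕ) (hn : ∀ ξ, e₁ ξ < n) :
    Good (Ω := Ω₁ × Ω₂) (Ξ := Ξ₁ × Ξ₂) (fun ξ => e₁ ξ.1 + n * e₂ ξ.2)
      (fun ξ ω => β₁ ξ.1 ω.1 * β₂ ξ.2 ω.2) := by
  classical
  rintro ⟨i₁, i₂⟩
  obtain ⟨w₁, hw₁, H₁⟩ := hg₁ i₁
  obtain ⟨w₂, hw₂, H₂⟩ := hg₂ i₂
  refine ⟨w₂ * w₁, mul_nonneg hw₂ hw₁, ?_⟩
  intro h a b hab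
  have H₁ := H₁ (fun ξ => h (ξ, i₂)) a b hab
  rw [mul_assoc]
  refine (mul_le_mul_of_nonneg_left H₁ hw₂).trans ?_
  rw [mul_sum, Fintype.sum_prod_type]
  apply Finset.sum_le_sum
  intro ω₁ _
  have H₂ := H₂ (fun ξ₂ => ∑ ξ₁, h (ξ₁, ξ₂) * β₁ ξ₁ ω₁)
    ((∑ j, if e₁ j < e₁ i₁ then h (j, i₂) * β₁ j ω₁ else 0) + a * β₁ i₁ ω₁)
    (b * β₁ i₁ ω₁ + ∑ j, if e₁ i₁ < e₁ j then h (j, i₂) * β₁ j ω₁ else 0) ?_
  · refine H₂.trans (le_of_eq ?_)
    apply Finset.sum_congr rfl
    intro ω₂ _
    have hlt : ∀ (j₁ : Ξ₁) (j₂ : Ξ₂), (e₁ j₁ + n * e₂ j₂ < e₁ i₁ + n * e₂ i₂) ↔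
        (e₂ j₂ < e₂ i₂ ∨ (j₂ = i₂ ∧ e₁ j₁ < e₁ i₁)) := by
      intro j₁ j₂
      have a1 := hn j₁
      have a2 := hn i₁
      rcases lt_trichotomy (e₂ j₂) (e₂ i₂) with h3 | h3 | h3
      · have : n * e₂ j₂ + n ≤ n * e₂ i₂ := by
          calc n * e₂ j₂ + n = n * (e₂ j₂ + 1) := by ring
            _ ≤ _ := Nat.mul_le_mul_left _ h3
        constructor
        · intro _; left; exact h3
        · intro _; omega
      · have : j₂ = i₂ := he₂ h3
        subst this
        simp
      · have : n * e₂ i₂ + n ≤ n * e₂ j₂ := by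
          calc n * e₂ i₂ + n = n * (e₂ i₂ + 1) := by ring
            _ ≤ _ := Nat.mul_le_mul_left _ h3
        have hne : j₂ ≠ i₂ := by rintro rfl; omega
        constructor
        · intro _; omega
        · rintro (h4 | h4)
          · omega
          · exact absurd h4.1 hne
    have hgt : ∀ (j₁ : Ξ₁) (j₂ : Ξ₂), (e₁ i₁ + n * e₂ i₂ < e₁ j₁ + n * e₂ j₂) ↔
        (e₂ i₂ < e₂ j₂ ∨ (j₂ = i₂ ∧ e₁ i₁ < e₁ j₁)) := by
      intro j₁ j₂
      have a1 := hn j₁
      have a2 := hn i₁
      rcases lt_trichotomy (e₂ j₂) (e₂ i₂) with h3 | h3 | h3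
      · have : n * e₂ j₂ + n ≤ n * e₂ i₂ := by
          calc n * e₂ j₂ + n = n * (e₂ j₂ + 1) := by ring
            _ ≤ _ := Nat.mul_le_mul_left _ h3
        have hne : j₂ ≠ i₂ := by rintro rfl; omega
        constructor
        · intro _; omega
        · rintro (h4 | h4)
          · omega
          · exact absurd h4.1 hne
      · have : j₂ = i₂ := he₂ h3
        subst this
        simp
      · have : n * e₂ i₂ + n ≤ n * e₂ j₂ := by
          calc n * e₂ i₂ + n = n * (e₂ i₂ + 1) := by ring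
            _ ≤ _ := Nat.mul_le_mul_left _ h3
        constructor
        · intro _; left; exact h3
        · intro _; omega
    have E1 : (∑ j, if e₂ j < e₂ i₂ then (∑ ξ₁, h (ξ₁, j) * β₁ ξ₁ ω₁) * β₂ j ω₂ else 0) +
        ((∑ j, if e₁ j < e₁ i₁ then h (j, i₂) * β₁ j ω₁ else 0) + a * β₁ i₁ ω₁) * β₂ i₂ ω₂ =
        (∑ j : Ξ₁ × Ξ₂, if e₁ j.1 + n * e₂ j.2 < e₁ i₁ + n * e₂ i₂ then
          h j * (β₁ j.1 ω₁ * β₂ j.2 ω₂) else 0) + a * (β₁ i₁ ω₁ * β₂ i₂ ω₂) := by
      rw [Fintype.sum_prod_type_right]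
      have : (∑ y : Ξ₂, ∑ x : Ξ₁, if e₁ x + n * e₂ y < e₁ i₁ + n * e₂ i₂ then
          h (x, y) * (β₁ x ω₁ * β₂ y ω₂) else 0) =
          (∑ y, if e₂ y < e₂ i₂ then (∑ ξ₁, h (ξ₁, y) * β₁ ξ₁ ω₁) * β₂ y ω₂ else 0) +
          ∑ y, if y = i₂ then (∑ j, if e₁ j < e₁ i₁ then h (j, y) * β₁ j ω₁ else 0) * β₂ y ω₂ else 0 := by
        rw [← sum_add_distrib]
        apply Finset.sum_congr rfl
        intro y _
        simp only [hlt]
        by_cases hy : y = i₂
        · subst hy
          simp only [lt_irrefl, true_and, false_or, if_false, if_true, zero_add]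
          rw [sum_mul]
          apply Finset.sum_congr rfl
          intro x _
          split_ifs <;> ring
        · simp only [hy, false_and, or_false, if_false, add_zero]
          split_ifs with h5
          · rw [sum_mul]
            apply Finset.sum_congr rfl
            intro x _
            ring
          · simp
      rw [this]
      simp only [Finset.sum_ite_eq', Finset.mem_univ, if_true]
      ring
    have E2 : (b * β₁ i₁ ω₁ + ∑ j, if e₁ i₁ < e₁ j then h (j, i₂) * β₁ j ω₁ else 0) * β₂ i₂ ω₂ +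
        (∑ j, if e₂ i₂ < e₂ j then (∑ ξ₁, h (ξ₁, j) * β₁ ξ₁ ω₁) * β₂ j ω₂ else 0) =
        b * (β₁ i₁ ω₁ * β₂ i₂ ω₂) +
        (∑ j : Ξ₁ × Ξ₂, if e₁ i₁ + n * e₂ i₂ < e₁ j.1 + n * e₂ j.2 then
          h j * (β₁ j.1 ω₁ * β₂ j.2 ω₂) else 0) := by
      rw [Fintype.sum_prod_type_right]
      have : (∑ y : Ξ₂, ∑ x : Ξ₁, if e₁ i₁ + n * e₂ i₂ < e₁ x + n * e₂ y then
          h (x, y) * (β₁ x ω₁ * β₂ y ω₂) else 0) =
          (∑ y, if e₂ i₂ < e₂ y then (∑ ξ₁, h (ξ₁, y) * β₁ ξ₁ ω₁) * β₂ y ω₂ else 0) +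
          ∑ y, if y = i₂ then (∑ j, if e₁ i₁ < e₁ j then h (j, y) * β₁ j ω₁ else 0) * β₂ y ω₂ else 0 := by
        rw [← sum_add_distrib]
        apply Finset.sum_congr rfl
        intro y _
        simp only [hgt]
        by_cases hy : y = i₂
        · subst hy
          simp only [lt_irrefl, true_and, false_or, if_false, if_true, zero_add]
          rw [sum_mul]
          apply Finset.sum_congr rfl
          intro x _
          split_ifs <;> ring
        · simp only [hy, false_and, or_false, if_false, add_zero]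
          split_ifs with h5
          · rw [sum_mul]
            apply Finset.sum_congr rfl
            intro x _
            ring
          · simp
      rw [this]
      simp only [Finset.sum_ite_eq', Finset.mem_univ, if_true]
      ring
    rw [E1, E2]
  · -- the splitting
    have hsplit : ∀ ξ₁, h (ξ₁, i₂) * β₁ ξ₁ ω₁ =
        (if e₁ ξ₁ < e₁ i₁ then h (ξ₁, i₂) * β₁ ξ₁ ω₁ else 0) +
        (if e₁ i₁ < e₁ ξ₁ then h (ξ₁, i₂) * β₁ ξ₁ ω₁ else 0) +
        (if ξ₁ = i₁ then h (ξ₁, i₂) * β₁ ξ₁ ω₁ else 0) := by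
      intro ξ₁
      rcases lt_trichotomy (e₁ ξ₁) (e₁ i₁) with h3 | h3 | h3
      · have : ξ₁ ≠ i₁ := by rintro rfl; omega
        simp [h3, this, h3.le]
      · have : ξ₁ = i₁ := he₁ h3
        simp [this]
      · have : ξ₁ ≠ i₁ := by rintro rfl; omega
        simp [h3, this, h3.le]
    rw [Finset.sum_congr rfl (fun ξ₁ _ => hsplit ξ₁), sum_add_distrib, sum_add_distrib]
    simp only [Finset.sum_ite_eq', Finset.mem_univ, if_true]
    rw [hab]
    ring

end HBasis
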