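import Pool.Agent.HBasis.Defs

/-!
The `L¹`-norm of a polynomial in unimodular random variables which are orthogonal like
independent Steinhaus variables does not depend on the system.
-/

set_option autoImplicit false

open MeasureTheory Finset

namespace HBasis

/-- A system of unimodular random variables orthogonal like independent Steinhaus variables. -/
structure IsSteinhaus {Ω σ : Type} [MeasurableSpace Ω] (P : Measure Ω) (w : Ω → σ → ℂ) : Prop where
  meas : ∀ i, Measurable fun ω => w ω i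
  norm_one : ∀ ω i, ‖w ω i‖ = 1
  orth : ∀ ν ν' : σ →₀ ℕ, ν ≠ ν' →
    ∫ ω, (ν.prod fun i k => w ω i ^ k) * (starRingEnd ℂ) (ν'.prod fun i k => w ω i ^ k) ∂P = 0

section

variable {Ω σ : Type} [MeasurableSpace Ω] {P : Measure Ω} {w : Ω → σ → ℂ}

lemma IsSteinhaus.meas_mon (h : IsSteinhaus P w) (ν : σ →₀ ℕ) :
    Measurable fun ω => (ν.prod fun i k => w ω i ^ k) := by
  unfold Finsupp.prod
  exact Finset.measurable_fun_prod _ fun i _ => (h.meas i).pow_const _

lemma IsSteinhaus.norm_mon (h : IsSteinhaus P w) (ν : σ →₀ ℕ) (ω : Ω) :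
    ‖(ν.prod fun i k => w ω i ^ k)‖ = 1 := by
  unfold Finsupp.prod
  rw [norm_prod]
  apply Finset.prod_eq_one
  intro i _
  rw [norm_pow, h.norm_one, one_pow]

lemma eval_eq_sum (x : σ → ℂ) (p : MvPolynomial σ ℂ) :
    MvPolynomial.eval x p = ∑ ν ∈ p.support, p.coeff ν * (ν.prod fun i k => x i ^ k) := by
  rw [MvPolynomial.eval_eq]; rfl

lemma IsSteinhaus.meas_eval (h : IsSteinhaus P w) (p : MvPolynomial σ ℂ) :
    Measurable fun ω => MvPolynomial.eval (w ω) p := by
  simp_rw [eval_eq_sum]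
  exact Finset.measurable_fun_sum _ fun ν _ => (h.meas_mon ν).const_mul _

lemma IsSteinhaus.norm_eval_le (h : IsSteinhaus P w) (p : MvPolynomial σ ℂ) (ω : Ω) :
    ‖MvPolynomial.eval (w ω) p‖ ≤ ∑ ν ∈ p.support, ‖p.coeff ν‖ := by
  rw [eval_eq_sum]
  refine (norm_sum_le _ _).trans (le_of_eq ?_)
  apply Finset.sum_congr rfl
  intro ν _
  rw [norm_mul, h.norm_mon, mul_one]

lemma IsSteinhaus.integral_sq [IsProbabilityMeasure P] (h : IsSteinhaus P w)
    (p : MvPolynomial σ ℂ) :
    ∫ ω, ‖MvPolynomial.eval (w ω) p‖ ^ 2 ∂P = ∑ ν ∈ p.support, ‖p.coeff ν‖ ^ 2 := by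
  have hc : ∫ ω, ((‖MvPolynomial.eval (w ω) p‖ ^ 2 : ℝ) : ℂ) ∂P =
      ((∑ ν ∈ p.support, ‖p.coeff ν‖ ^ 2 : ℝ) : ℂ) := by
    have e1 : ∀ ω, ((‖MvPolynomial.eval (w ω) p‖ ^ 2 : ℝ) : ℂ) =
        ∑ ν ∈ p.support, ∑ ν' ∈ p.support, (p.coeff ν * (starRingEnd ℂ) (p.coeff ν')) *
          ((ν.prod fun i k => w ω i ^ k) * (starRingEnd ℂ) (ν'.prod fun i k => w ω i ^ k)) := by
      intro ω
      rw [← Complex.normSq_eq_norm_sq, ← Complex.mul_conj, eval_eq_sum, map_sum, sum_mul_sum]
      apply Finset.sum_congr rfl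
      intro ν _
      apply Finset.sum_congr rfl
      intro ν' _
      rw [map_mul]; ring
    simp_rw [e1]
    have hint : ∀ ν ν' : σ →₀ ℕ, Integrable (fun ω =>
        (ν.prod fun i k => w ω i ^ k) * (starRingEnd ℂ) (ν'.prod fun i k => w ω i ^ k)) P := by
      intro ν ν'
      refine Integrable.of_bound (C := 1) ?_ ?_
      · exact ((h.meas_mon ν).mul (Complex.continuous_conj.measurable.comp
          (h.meas_mon ν'))).aestronglyMeasurable
      · refine Filter.Eventually.of_forall fun ω => ?_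
        rw [norm_mul, RCLike.norm_conj, h.norm_mon, h.norm_mon, one_mul]
    rw [integral_finsetSum _ fun ν _ => integrable_finsetSum _ fun ν' _ =>
      (hint ν ν').const_mul _]
    have e2 : ∀ ν ∈ p.support, ∫ ω, ∑ ν' ∈ p.support, (p.coeff ν * (starRingEnd ℂ) (p.coeff ν')) *
          ((ν.prod fun i k => w ω i ^ k) * (starRingEnd ℂ) (ν'.prod fun i k => w ω i ^ k)) ∂P =
          ((‖p.coeff ν‖ ^ 2 : ℝ) : ℂ) := by
      intro ν hν
      rw [integral_finsetSum _ fun ν' _ => (hint ν ν').const_mul _]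
      rw [Finset.sum_eq_single ν]
      · rw [integral_const_mul]
        have : ∀ ω, ((ν.prod fun i k => w ω i ^ k) * (starRingEnd ℂ) (ν.prod fun i k => w ω i ^ k)) = 1 := by
          intro ω
          rw [Complex.mul_conj, Complex.normSq_eq_norm_sq, h.norm_mon]; simp
        simp_rw [this]
        rw [Complex.mul_conj, Complex.normSq_eq_norm_sq]
        simp
      · intro ν' _ hne
        rw [integral_const_mul, h.orth ν ν' (Ne.symm hne), mul_zero]
      · intro hc; exact absurd hν hc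
    rw [Finset.sum_congr rfl e2]
    push_cast
    rfl
  rw [integral_complex_ofReal] at hc
  exact_mod_cast hc

lemma IsSteinhaus.integral_pow [IsProbabilityMeasure P] (h : IsSteinhaus P w)
    (p : MvPolynomial σ ℂ) (n : ℕ) :
    ∫ ω, (‖MvPolynomial.eval (w ω) p‖ ^ 2) ^ n ∂P = ∑ ν ∈ (p ^ n).support, ‖(p ^ n).coeff ν‖ ^ 2 := by
  rw [← h.integral_sq (p ^ n)]
  congr 1
  ext ω
  rw [map_pow, norm_pow]; ring

lemma IsSteinhaus.integral_poly [IsProbabilityMeasure P] (h : IsSteinhaus P w)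
    (p : MvPolynomial σ ℂ) (φ : Polynomial ℝ) :
    ∫ ω, φ.eval (‖MvPolynomial.eval (w ω) p‖ ^ 2) ∂P =
      ∑ n ∈ φ.support, φ.coeff n * ∑ ν ∈ (p ^ n).support, ‖(p ^ n).coeff ν‖ ^ 2 := by
  simp_rw [Polynomial.eval_eq_sum, Polynomial.sum]
  rw [integral_finsetSum]
  · apply Finset.sum_congr rfl
    intro n _
    rw [integral_const_mul, h.integral_pow]
  · intro n _
    apply Integrable.const_mul
    refine Integrable.of_bound (C := ((∑ ν ∈ p.support, ‖p.coeff ν‖) ^ 2) ^ n) ?_ ?_
    · exact (((h.meas_eval p).norm.pow_const 2).pow_const n).aestronglyMeasurable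
    · refine Filter.Eventually.of_forall fun ω => ?_
      rw [Real.norm_of_nonneg (by positivity)]
      have := h.norm_eval_le p ω
      gcongr

lemma IsSteinhaus.integral_norm_eq [IsProbabilityMeasure P] (h : IsSteinhaus P w)
    {Ω' : Type} [MeasurableSpace Ω'] {P' : Measure Ω'} {w' : Ω' → σ → ℂ} [IsProbabilityMeasure P']
    (h' : IsSteinhaus P' w') (p : MvPolynomial σ ℂ) :
    ∫ ω, ‖MvPolynomial.eval (w ω) p‖ ∂P = ∫ ω, ‖MvPolynomial.eval (w' ω) p‖ ∂P' := by
  set B := ∑ ν ∈ p.support, ‖p.coeff ν‖ with hB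
  have hB0 : 0 ≤ B := Finset.sum_nonneg fun _ _ => norm_nonneg _
  apply eq_of_forall_dist_le
  intro ε hε
  obtain ⟨φ, hφ⟩ := exists_polynomial_near_of_continuousOn 0 (B ^ 2) Real.sqrt
    Real.continuous_sqrt.continuousOn (ε / 2) (by positivity)
  have key : ∀ {Ω'' : Type} [MeasurableSpace Ω''] {Q : Measure Ω''} [IsProbabilityMeasure Q]
      {u : Ω'' → σ → ℂ} (hu : IsSteinhaus Q u),
      |∫ ω, ‖MvPolynomial.eval (u ω) p‖ ∂Q -
        ∫ ω, φ.eval (‖MvPolynomial.eval (u ω) p‖ ^ 2) ∂Q| ≤ ε / 2 := by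
    intro Ω'' _ Q _ u hu
    have hb : ∀ ω, ‖MvPolynomial.eval (u ω) p‖ ≤ B := hu.norm_eval_le p
    have hi1 : Integrable (fun ω => ‖MvPolynomial.eval (u ω) p‖) Q := by
      refine Integrable.of_bound (C := B) (hu.meas_eval p).norm.aestronglyMeasurable ?_
      exact Filter.Eventually.of_forall fun ω => by rw [norm_norm]; exact hb ω
    have hdiff : ∀ ω, ‖‖MvPolynomial.eval (u ω) p‖ - φ.eval (‖MvPolynomial.eval (u ω) p‖ ^ 2)‖ ≤ ε / 2 := by
      intro ω
      have := hφ (‖MvPolynomial.eval (u ω) p‖ ^ 2) ⟨by positivity, by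
        have := hb ω
        gcongr⟩
      rw [Real.sqrt_sq (norm_nonneg _)] at this
      rw [Real.norm_eq_abs, abs_sub_comm]
      exact this.le
    have hi2 : Integrable (fun ω => φ.eval (‖MvPolynomial.eval (u ω) p‖ ^ 2)) Q := by
      have hm : Measurable fun ω => φ.eval (‖MvPolynomial.eval (u ω) p‖ ^ 2) :=
        φ.continuous.measurable.comp ((hu.meas_eval p).norm.pow_const 2)
      refine Integrable.of_bound (C := B + ε / 2) hm.aestronglyMeasurable ?_
      refine Filter.Eventually.of_forall fun ω => ?_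
      have h1 := hdiff ω
      have h2 := hb ω
      calc ‖φ.eval (‖MvPolynomial.eval (u ω) p‖ ^ 2)‖ =
          ‖‖MvPolynomial.eval (u ω) p‖ - (‖MvPolynomial.eval (u ω) p‖ -
            φ.eval (‖MvPolynomial.eval (u ω) p‖ ^ 2))‖ := by congr 1; ring
        _ ≤ ‖‖MvPolynomial.eval (u ω) p‖‖ + ‖(‖MvPolynomial.eval (u ω) p‖ -
            φ.eval (‖MvPolynomial.eval (u ω) p‖ ^ 2))‖ := norm_sub_le _ _
        _ ≤ B + ε / 2 := by rw [norm_norm]; linarith
    rw [← integral_sub hi1 hi2, ← Real.norm_eq_abs]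
    refine (norm_integral_le_of_norm_le_const (Filter.Eventually.of_forall hdiff)).trans ?_
    simp
  have k1 := key h
  have k2 := key h'
  rw [h.integral_poly p φ] at k1
  rw [h'.integral_poly p φ] at k2
  rw [Real.dist_eq]
  rw [abs_le] at *
  constructor <;> linarith [k1.1, k1.2, k2.1, k2.2]

end

lemma integral_fourier (n : ℤ) : ∫ t : AddCircle (1 : ℝ), fourier n t ∂AddCircle.haarAddCircle =
    if n = 0 then (1 : ℂ) else 0 := by
  have h := congrFun (fourierCoeff_fourier (T := (1 : ℝ)) n) 0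
  simp only [fourierCoeff, neg_zero, fourier_zero, one_smul, Pi.single_apply] at h
  rw [h]
  simp only [eq_comm]

/-- the canonical system on the torus. -/
theorem isSteinhaus_fourier (σ : Type) :
    IsSteinhaus (Measure.infinitePi (fun _ : σ => (AddCircle.haarAddCircle :
      Measure (AddCircle (1 : ℝ))))) (fun (θ : σ → AddCircle (1 : ℝ)) i => (fourier 1 (θ i) : ℂ)) where
  meas i := (fourier 1).continuous.measurable.comp (measurable_pi_apply i)
  norm_one θ i := by rw [fourier_one]; exact Circle.norm_coe _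
  orth ν ν' hne := by
    classical
    obtain ⟨i₀, hi₀⟩ : ∃ i, ν i ≠ ν' i := by
      by_contra hc
      push Not at hc
      exact hne (Finsupp.ext hc)
    set s := ν.support ∪ ν'.support with hs
    have hpow : ∀ (t : AddCircle (1 : ℝ)) (k : ℕ), (fourier 1 t : ℂ) ^ k = fourier (k : ℤ) t := by
      intro t k
      rw [fourier_apply, fourier_apply]
      simp only [one_smul, natCast_zsmul]
      rw [AddCircle.toCircle_nsmul]
      simp
    have e1 : ∀ θ : σ → AddCircle (1 : ℝ), ((ν.prod fun i k => (fourier 1 (θ i) : ℂ) ^ k) *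
        (starRingEnd ℂ) (ν'.prod fun i k => (fourier 1 (θ i) : ℂ) ^ k)) =
        (fun y : (∀ _ : s, AddCircle (1 : ℝ)) => ∏ i : s, (fourier ((ν i : ℤ) - ν' i) (y i) : ℂ))
          (s.restrict θ) := by
      intro θ
      rw [Finsupp.prod_of_support_subset ν Finset.subset_union_left _ (by simp),
        Finsupp.prod_of_support_subset ν' (Finset.subset_union_right (s₁ := ν.support)) _ (by simp),
        map_prod, ← Finset.prod_mul_distrib]
      rw [← Finset.prod_coe_sort]
      apply Finset.prod_congr rfl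
      intro i _
      rw [hpow, hpow, ← fourier_neg, ← fourier_add, sub_eq_add_neg]
      rfl
    rw [integral_congr_ae (Filter.Eventually.of_forall e1)]
    have hmeas : AEStronglyMeasurable (fun y : (∀ _ : s, AddCircle (1 : ℝ)) =>
        ∏ i : s, (fourier ((ν i : ℤ) - ν' i) (y i) : ℂ))
        (Measure.pi (fun _ : s => (AddCircle.haarAddCircle : Measure (AddCircle (1 : ℝ))))) := by
      apply Continuous.aestronglyMeasurable
      fun_prop
    have key := integral_restrict_infinitePi (ι := σ) (X := fun _ => AddCircle (1 : ℝ))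
      (μ := fun _ : σ => (AddCircle.haarAddCircle : Measure (AddCircle (1 : ℝ)))) (s := s) hmeas
    refine key.trans ?_
    rw [integral_fintype_prod_eq_prod (f := fun (i : s) (t : AddCircle (1 : ℝ)) =>
      (fourier ((ν i : ℤ) - ν' i) t : ℂ))]
    have hi : i₀ ∈ s := by
      rw [hs, Finset.mem_union, Finsupp.mem_support_iff, Finsupp.mem_support_iff]
      omega
    apply Finset.prod_eq_zero (Finset.mem_univ ⟨i₀, hi⟩)
    rw [integral_fourier]
    rw [if_neg]
    intro h
    apply hi₀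
    have : (ν i₀ : ℤ) = ν' i₀ := by linarith
    exact_mod_cast this

/-- **KL lemma**: the `L¹`-norm does not depend on the Steinhaus system. -/
theorem IsSteinhaus.integral_norm_eval {Ω σ : Type} [MeasurableSpace Ω] {P : Measure Ω}
    [IsProbabilityMeasure P] {w : Ω → σ → ℂ} (h : IsSteinhaus P w) (p : MvPolynomial σ ℂ) :
    ∫ ω, ‖MvPolynomial.eval (w ω) p‖ ∂P = pnorm p :=
  h.integral_norm_eq (isSteinhaus_fourier σ) p

end HBasis
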