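import Pool.Agent.Helper36.HBasis.L1B

set_option autoImplicit false

open MeasureTheory Finset

namespace HBasis

namespace L1Sum

theorem norm_fourier (k : ℤ) (t : AddCircle (1 : ℝ)) : ‖(fourier k t : ℂ)‖ = 1 := by
  rw [fourier_apply, Circle.norm_coe]

section lift

variable {X Z : Type} [NormedAddCommGroup X] [NormedSpace ℂ X]
  [NormedAddCommGroup Z] [NormedSpace ℂ Z]

omit [NormedSpace ℂ X] in
theorem summable_norm (y : lp (fun _ : ℕ => X) 1) : Summable fun n => ‖y n‖ := by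
  have h := (lp.memℓp y).summable (by norm_num : (0 : ℝ) < (1 : ENNReal).toReal)
  simpa using h

omit [NormedSpace ℂ X] in
theorem norm_eq (y : lp (fun _ : ℕ => X) 1) : ‖y‖ = ∑' n, ‖y n‖ := by
  have h := lp.norm_eq_tsum_rpow (by norm_num : (0 : ℝ) < (1 : ENNReal).toReal) y
  simpa using h

/-- Operators out of an `ℓ₁`-sum. -/
theorem exists_lift [CompleteSpace Z] (T : ℕ → X →L[ℂ] Z) (C : ℝ)
    (hT : ∀ n, ‖T n‖ ≤ C) :
    ∃ J : lp (fun _ : ℕ => X) 1 →L[ℂ] Z, ∀ y, HasSum (fun n => T n (y n)) (J y) := by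
  have hb : ∀ (y : lp (fun _ : ℕ => X) 1) (n : ℕ), ‖T n (y n)‖ ≤ C * ‖y n‖ := fun y n =>
    (T n).le_of_opNorm_le (hT n) _
  have hs : ∀ y : lp (fun _ : ℕ => X) 1, Summable fun n => T n (y n) := fun y =>
    Summable.of_norm_bounded ((summable_norm y).mul_left C) (hb y)
  refine ⟨LinearMap.mkContinuous
    { toFun := fun y => ∑' n, T n (y n)
      map_add' := fun y z => ?_
      map_smul' := fun c y => ?_ } C ?_, fun y => (hs y).hasSum⟩
  · rw [← (hs y).tsum_add (hs z)]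
    congr 1
    funext n
    rw [lp.coeFn_add, Pi.add_apply, map_add]
  · rw [RingHom.id_apply, ← (hs y).tsum_const_smul c]
    congr 1
    funext n
    rw [lp.coeFn_smul, Pi.smul_apply, map_smul]
  · intro y
    change ‖∑' n, T n (y n)‖ ≤ _
    rw [norm_eq, ← tsum_mul_left]
    exact tsum_of_norm_bounded ((summable_norm y).mul_left C).hasSum (hb y)

end lift

/-- The coefficient. -/
noncomputable def coef (I : Set (AddCircle (1 : ℝ))) (d : ℕ) (ψ : Polynomial ℂ) : ℂ :=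
  ∫ t in I, fourier (-(d : ℤ)) t * ψ.eval (fourier 1 t : ℂ) ∂hc

theorem iota_Jp_Mu (I : Set (AddCircle (1 : ℝ))) (d : ℕ) (ψ : Polynomial ℂ)
    (p : MvPolynomial ℕ ℂ) : iota (Jp I d (Mu ψ p)) = coef I d ψ • iota p := by
  rw [← map_smul, ← sub_eq_zero, ← map_sub, ← norm_eq_zero, norm_iota]
  have : ∀ θ : ℕ → AddCircle (1 : ℝ),
      MvPolynomial.eval (wv θ) (Jp I d (Mu ψ p) - coef I d ψ • p) = 0 := by
    intro θ
    rw [map_sub, MvPolynomial.smul_eval, eval_Jp]
    simp only [eval_Mu, ← mul_assoc]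
    rw [integral_mul_const]
    unfold coef
    ring
  have h2 : pnorm (Jp I d (Mu ψ p) - coef I d ψ • p) =
    ∫ θ, ‖MvPolynomial.eval (wv θ) (Jp I d (Mu ψ p) - coef I d ψ • p)‖ ∂mInf := rfl
  rw [h2]
  simp only [this, norm_zero, integral_zero]

/-- all coordinates at once. -/
noncomputable def Tp (I : ℕ → Set (AddCircle (1 : ℝ))) (d : ℕ → ℕ)
    (hI : ∀ n, MeasurableSet (I n)) (hd : Pairwise (Function.onFun Disjoint I)) :
    MvPolynomial ℕ ℂ →ₗ[ℂ] lp (fun _ : ℕ => H1) 1 where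
  toFun p := ⟨fun n => iota (Jp (I n) (d n) p), memℓp_gen' (C := pnorm p) (by
    intro s
    simp only [ENNReal.toReal_one, Real.rpow_one, norm_iota]
    exact sum_pnorm_Jp_le I hI hd d p s)⟩
  map_add' p q := by
    apply lp.ext
    funext n
    change iota (Jp (I n) (d n) (p + q)) = iota (Jp (I n) (d n) p) + iota (Jp (I n) (d n) q)
    rw [map_add, map_add]
  map_smul' c p := by
    apply lp.ext
    funext n
    change iota (Jp (I n) (d n) (c • p)) = c • iota (Jp (I n) (d n) p)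
    rw [map_smul, map_smul]

theorem norm_Tp (I : ℕ → Set (AddCircle (1 : ℝ))) (d : ℕ → ℕ)
    (hI : ∀ n, MeasurableSet (I n)) (hd : Pairwise (Function.onFun Disjoint I))
    (p : MvPolynomial ℕ ℂ) : ‖Tp I d hI hd p‖ ≤ 1 * pnorm p := by
  rw [one_mul]
  apply lp.norm_le_of_forall_sum_le (by norm_num) (pnorm_nonneg p)
  intro s
  simp only [ENNReal.toReal_one, Real.rpow_one]
  calc ∑ n ∈ s, ‖(Tp I d hI hd p) n‖ = ∑ n ∈ s, pnorm (Jp (I n) (d n) p) := by
        apply Finset.sum_congr rfl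
        intro n _
        exact norm_iota _
    _ ≤ pnorm p := sum_pnorm_Jp_le I hI hd d p s

theorem Tp_apply (I : ℕ → Set (AddCircle (1 : ℝ))) (d : ℕ → ℕ)
    (hI : ∀ n, MeasurableSet (I n)) (hd : Pairwise (Function.onFun Disjoint I))
    (p : MvPolynomial ℕ ℂ) (n : ℕ) : (Tp I d hI hd p) n = iota (Jp (I n) (d n) p) := rfl

/-- The coefficient estimate. -/
theorem sum_coef_le (I : ℕ → Set (AddCircle (1 : ℝ))) (d : ℕ → ℕ) (ψ : Polynomial ℂ)
    (hI : ∀ n, MeasurableSet (I n)) (hd : Pairwise (Function.onFun Disjoint I)) (n : ℕ)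
    (g : AddCircle (1 : ℝ) → ℂ) (hg : Integrable g hc) (hg0 : ∀ t ∉ I n, g t = 0)
    (hg1 : ∫ t in I n, g t ∂hc = 1)
    (hgψ : ∫ t, ‖fourier (-(d n : ℤ)) t * ψ.eval (fourier 1 t : ℂ) - g t‖ ∂hc ≤ 1 / 8)
    (s : Finset ℕ) :
    ∑ m ∈ s, ‖coef (I m) (d m) ψ - (if m = n then 1 else 0)‖ ≤ 1 / 8 := by
  have hcont : ∀ k : ℕ, Continuous fun t : AddCircle (1 : ℝ) =>
      (fourier (-(k : ℤ)) t * ψ.eval (fourier 1 t : ℂ) : ℂ) := by
    intro k
    have h1 : Continuous fun t : AddCircle (1 : ℝ) => (fourier (-(k : ℤ)) t : ℂ) :=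
      (fourier (T := (1 : ℝ)) (-(k : ℤ))).continuous
    have h2 : Continuous fun t : AddCircle (1 : ℝ) => (fourier 1 t : ℂ) :=
      (fourier (T := (1 : ℝ)) 1).continuous
    exact h1.mul (ψ.continuous.comp h2)
  have hint : ∀ k : ℕ, Integrable (fun t : AddCircle (1 : ℝ) =>
      (fourier (-(k : ℤ)) t * ψ.eval (fourier 1 t : ℂ) : ℂ)) hc := fun k =>
    (hcont k).integrable_of_hasCompactSupport (HasCompactSupport.of_compactSpace _)
  have hD : Integrable (fun t => ‖fourier (-(d n : ℤ)) t * ψ.eval (fourier 1 t : ℂ) - g t‖) hc :=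
    ((hint (d n)).sub hg).norm
  have hterm : ∀ m, ‖coef (I m) (d m) ψ - (if m = n then 1 else 0)‖ ≤
      ∫ t in I m, ‖fourier (-(d n : ℤ)) t * ψ.eval (fourier 1 t : ℂ) - g t‖ ∂hc := by
    intro m
    by_cases hm : m = n
    · subst hm
      rw [if_pos rfl, ← hg1]
      unfold coef
      rw [← integral_sub (hint (d m)).integrableOn hg.integrableOn]
      exact norm_integral_le_integral_norm _
    · rw [if_neg hm, sub_zero]
      unfold coef
      refine (norm_integral_le_integral_norm _).trans (le_of_eq ?_)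
      apply setIntegral_congr_fun (hI m)
      intro t ht
      have h0 : g t = 0 := hg0 t (fun h => Set.disjoint_left.1 (hd hm) ht h)
      change ‖(fourier (-(d m : ℤ)) t * ψ.eval (fourier 1 t : ℂ) : ℂ)‖ =
        ‖(fourier (-(d n : ℤ)) t * ψ.eval (fourier 1 t : ℂ) - g t : ℂ)‖
      rw [h0, sub_zero, norm_mul, norm_mul, norm_fourier, norm_fourier]
  calc ∑ m ∈ s, ‖coef (I m) (d m) ψ - (if m = n then 1 else 0)‖ ≤
      ∑ m ∈ s, ∫ t in I m, ‖fourier (-(d n : ℤ)) t * ψ.eval (fourier 1 t : ℂ) - g t‖ ∂hc :=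
        Finset.sum_le_sum fun m _ => hterm m
    _ = ∫ t in ⋃ m ∈ s, I m,
          ‖fourier (-(d n : ℤ)) t * ψ.eval (fourier 1 t : ℂ) - g t‖ ∂hc := by
        rw [integral_biUnion_finset s (fun n _ => hI n)
            (fun i _ j _ hij => hd hij) (fun n _ => hD.integrableOn)]
    _ ≤ ∫ t, ‖fourier (-(d n : ℤ)) t * ψ.eval (fourier 1 t : ℂ) - g t‖ ∂hc :=
        setIntegral_le_integral hD (Filter.Eventually.of_forall fun _ => norm_nonneg _)
    _ ≤ 1 / 8 := hgψ

end L1Sum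

open L1Sum in
/-- `ℓ₁(H¹)` is isomorphic to a complemented subspace of `H¹`. -/
theorem l1_complemented : L1Complemented := by
  obtain ⟨I, ψ, d, hI, hd, hgg⟩ := exists_bumps
  choose g hg hg0 hgn hg1 hgψ using hgg
  -- norms of the multipliers
  have hψ : ∀ n, ∫ t, ‖(ψ n).eval (fourier 1 t : ℂ)‖ ∂hc ≤ 9 / 8 := by
    intro n
    have hcont : Continuous fun t : AddCircle (1 : ℝ) =>
        (fourier (-(d n : ℤ)) t * (ψ n).eval (fourier 1 t : ℂ) : ℂ) := by
      have h1 : Continuous fun t : AddCircle (1 : ℝ) => (fourier (-(d n : ℤ)) t : ℂ) :=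
        (fourier (T := (1 : ℝ)) (-(d n : ℤ))).continuous
      have h2 : Continuous fun t : AddCircle (1 : ℝ) => (fourier 1 t : ℂ) :=
        (fourier (T := (1 : ℝ)) 1).continuous
      exact h1.mul ((ψ n).continuous.comp h2)
    have hint : Integrable (fun t : AddCircle (1 : ℝ) =>
        (fourier (-(d n : ℤ)) t * (ψ n).eval (fourier 1 t : ℂ) : ℂ)) hc :=
      hcont.integrable_of_hasCompactSupport (HasCompactSupport.of_compactSpace _)
    calc ∫ t, ‖(ψ n).eval (fourier 1 t : ℂ)‖ ∂hc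
        ≤ ∫ t, (‖fourier (-(d n : ℤ)) t * (ψ n).eval (fourier 1 t : ℂ) - g n t‖ + ‖g n t‖) ∂hc := by
          apply integral_mono_of_nonneg
          · exact Filter.Eventually.of_forall fun _ => norm_nonneg _
          · exact ((hint.sub (hg n)).norm.add (hg n).norm)
          · refine Filter.Eventually.of_forall fun t => ?_
            change ‖(ψ n).eval (fourier 1 t : ℂ)‖ ≤
              ‖(fourier (-(d n : ℤ)) t * (ψ n).eval (fourier 1 t : ℂ) - g n t : ℂ)‖ + ‖g n t‖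
            have h1 : ‖(ψ n).eval (fourier 1 t : ℂ)‖ =
                ‖(fourier (-(d n : ℤ)) t * (ψ n).eval (fourier 1 t : ℂ) : ℂ)‖ := by
              rw [norm_mul, norm_fourier, one_mul]
            rw [h1]
            exact norm_le_norm_sub_add _ _
      _ = (∫ t, ‖fourier (-(d n : ℤ)) t * (ψ n).eval (fourier 1 t : ℂ) - g n t‖ ∂hc) +
            ∫ t, ‖g n t‖ ∂hc := integral_add (hint.sub (hg n)).norm (hg n).norm
      _ ≤ 1 / 8 + 1 := add_le_add (hgψ n) (hgn n).le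
      _ = 9 / 8 := by norm_num
  have hM : ∀ n, ∃ M : H1 →L[ℂ] H1, (∀ p, M (iota p) = iota (Mu (ψ n) p)) ∧ ‖M‖ ≤ 9 / 8 := by
    intro n
    refine exists_extend (iota.comp (Mu (ψ n))) (9 / 8) (by norm_num) fun p => ?_
    change ‖iota (Mu (ψ n) p)‖ ≤ _
    rw [norm_iota, pnorm_Mu]
    exact mul_le_mul_of_nonneg_right (hψ n) (pnorm_nonneg p)
  choose M hM1 hM2 using hM
  obtain ⟨J, hJ⟩ := exists_lift M (9 / 8) hM2
  obtain ⟨T, hT, -⟩ := exists_extend (Tp I d hI hd) 1 zero_le_one (norm_Tp I d hI hd)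
  -- coordinates
  have hco : ∀ (m n : ℕ) (x : H1), (T (M n x)) m = coef (I m) (d m) (ψ n) • x := by
    intro m n x
    have h : ((lp.evalCLM ℂ (fun _ : ℕ => H1) 1 m).comp (T.comp (M n))) =
        coef (I m) (d m) (ψ n) • ContinuousLinearMap.id ℂ H1 := by
      apply ext_iota
      intro p
      change (T (M n (iota p))) m = coef (I m) (d m) (ψ n) • iota p
      rw [hM1, hT, Tp_apply, iota_Jp_Mu]
    exact DFunLike.congr_fun h x
  -- the error
  have herr : ∀ (n : ℕ) (x : H1), ‖T (M n x) - lp.single 1 n x‖ ≤ 1 / 8 * ‖x‖ := by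
    intro n x
    apply lp.norm_le_of_forall_sum_le (by norm_num) (by positivity)
    intro s
    simp only [ENNReal.toReal_one, Real.rpow_one]
    have h1 : ∀ m, (T (M n x) - lp.single 1 n x : lp (fun _ : ℕ => H1) 1) m =
        (coef (I m) (d m) (ψ n) - (if m = n then 1 else 0)) • x := by
      intro m
      rw [lp.coeFn_sub, Pi.sub_apply, hco, sub_smul]
      congr 1
      by_cases hm : m = n
      · subst hm
        rw [lp.single_apply_self, if_pos rfl, one_smul]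
      · rw [lp.single_apply_ne _ _ _ hm, if_neg hm, zero_smul]
    calc ∑ m ∈ s, ‖(T (M n x) - lp.single 1 n x : lp (fun _ : ℕ => H1) 1) m‖ =
        (∑ m ∈ s, ‖coef (I m) (d m) (ψ n) - (if m = n then 1 else 0)‖) * ‖x‖ := by
          rw [Finset.sum_mul]
          apply Finset.sum_congr rfl
          intro m _
          rw [h1, norm_smul]
      _ ≤ 1 / 8 * ‖x‖ := mul_le_mul_of_nonneg_right
          (sum_coef_le I d (ψ n) hI hd n (g n) (hg n) (hg0 n) (hg1 n) (hgψ n) s) (norm_nonneg _)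
  have hR : ‖(1 : lp (fun _ : ℕ => H1) 1 →L[ℂ] lp (fun _ : ℕ => H1) 1) - T.comp J‖ < 1 := by
    refine lt_of_le_of_lt (ContinuousLinearMap.opNorm_le_bound _ (by norm_num : (0 : ℝ) ≤ 1 / 8)
      fun y => ?_) (by norm_num)
    have h1 : HasSum (fun n => T (M n (y n))) (T (J y)) := (hJ y).mapL T
    have h2 : HasSum (fun n => lp.single 1 n (y n)) y := lp.hasSum_single (by simp) y
    have h3 := h2.sub h1
    change ‖y - T (J y)‖ ≤ _
    rw [norm_eq y, ← tsum_mul_left, ← h3.tsum_eq]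
    refine tsum_of_norm_bounded ((summable_norm y).mul_left (1 / 8)).hasSum fun n => ?_
    rw [norm_sub_rev]
    exact herr n (y n)
  let u : (lp (fun _ : ℕ => H1) 1 →L[ℂ] lp (fun _ : ℕ => H1) 1)ˣ :=
    Units.oneSub ((1 : lp (fun _ : ℕ => H1) 1 →L[ℂ] lp (fun _ : ℕ => H1) 1) - T.comp J) hR
  have hu : ∀ y, (u : lp (fun _ : ℕ => H1) 1 →L[ℂ] lp (fun _ : ℕ => H1) 1) y = T (J y) := by
    intro y
    change ((1 : lp (fun _ : ℕ => H1) 1 →L[ℂ] lp (fun _ : ℕ => H1) 1) -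
      ((1 : lp (fun _ : ℕ => H1) 1 →L[ℂ] lp (fun _ : ℕ => H1) 1) - T.comp J)) y = T (J y)
    rw [sub_sub_cancel]
    rfl
  refine ⟨J, (↑u⁻¹ : lp (fun _ : ℕ => H1) 1 →L[ℂ] lp (fun _ : ℕ => H1) 1).comp T, fun y => ?_⟩
  change (↑u⁻¹ : lp (fun _ : ℕ => H1) 1 →L[ℂ] lp (fun _ : ℕ => H1) 1) (T (J y)) = y
  rw [← hu y]
  have h4 := DFunLike.congr_fun (Units.inv_mul u) y
  exact h4

end HBasis
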