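import Pool.Agent.HBasis.LocalAB
import Pool.Agent.Helper36.HBasis.Walk

/-!
The local data needed by the assembly theorem.
-/

set_option autoImplicit false

open MeasureTheory Finset

namespace HBasis

/-- the statement of the embedding theorem -/
def EmbedFactor : Prop := ∀ (M : ℕ) (η : ℝ), 0 < η →
    ∃ K₀ : ℕ, ∀ K ≥ K₀, ∃ (D : Xi K M → MvPolynomial ℕ ℂ)
      (D' : MvPolynomial ℕ ℂ →ₗ[ℂ] (Xi K M → ℂ)),
      (∀ c : Xi K M → ℂ,
        pnorm (∑ ξ, c ξ • D ξ) ≤ (1 + η) * avg (fun s : Om K M => ‖∑ ξ, c ξ * bet K M ξ s‖)) ∧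
      (∀ p : MvPolynomial ℕ ℂ,
        avg (fun s : Om K M => ‖∑ ξ, D' p ξ * bet K M ξ s‖) ≤ (1 + η) * pnorm p) ∧
      (∀ ξ, D' (D ξ) = Pi.single ξ 1)

lemma kappa_pow_le (j : ℕ) : (1 + 1 / ((j : ℝ) + 1)) ^ j ≤ 3 := by
  have h1 : (1 + 1 / ((j : ℝ) + 1)) ≤ Real.exp (1 / ((j : ℝ) + 1)) := by
    have := Real.add_one_le_exp (1 / ((j : ℝ) + 1))
    linarith
  calc (1 + 1 / ((j : ℝ) + 1)) ^ j ≤ (Real.exp (1 / ((j : ℝ) + 1))) ^ j := by
        apply pow_le_pow_left₀ (by positivity) h1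
    _ = Real.exp (j * (1 / ((j : ℝ) + 1))) := by rw [← Real.exp_nat_mul]
    _ ≤ Real.exp 1 := by
        apply Real.exp_le_exp.mpr
        rw [mul_one_div, div_le_one (by positivity)]
        linarith
    _ ≤ 3 := by
        have := Real.exp_one_lt_d9
        linarith

lemma nonempty_Om (K : ℕ) (hK : 0 < K) : ∀ M, Nonempty (Om K M)
  | 0 => ⟨()⟩
  | (M + 1) => by
      obtain ⟨a⟩ := nonempty_Om K hK M
      exact ⟨(a, ⟨0, hK⟩)⟩

lemma exists_bet_ne_zero (K : ℕ) (hK : 0 < K) : ∀ M (ξ : Xi K M), ∃ ω, bet K M ξ ω ≠ 0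
  | 0, _ => ⟨(), one_ne_zero⟩
  | (M + 1), Sum.inl ξ => by
      obtain ⟨ω, hω⟩ := exists_bet_ne_zero K hK M ξ
      exact ⟨(ω, ⟨0, hK⟩), hω⟩
  | (M + 1), Sum.inr a => by
      refine ⟨(a, ⟨0, hK⟩), ?_⟩
      show (if a = a then rt K ⟨0, hK⟩ else 0) ≠ 0
      rw [if_pos rfl]
      intro h
      have := norm_rt K ⟨0, hK⟩
      rw [h] at this
      simp at this

lemma exists_bet_ne_zero_nonempty (K : ℕ) : ∀ M, Nonempty (Xi K M)
  | 0 => ⟨()⟩
  | (M + 1) => by
      obtain ⟨a⟩ := exists_bet_ne_zero_nonempty K M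
      exact ⟨Sum.inl a⟩

section

variable {Ω Ξ : Type} [Fintype Ω] [Nonempty Ω] [Fintype Ξ] (β : Ξ → Ω → ℂ)

lemma Wn_nonneg (d : ℕ) (c : (Fin d → Ξ) → ℂ) : 0 ≤ Wn β d c := by
  unfold Wn avg
  apply div_nonneg (Finset.sum_nonneg fun _ _ => norm_nonneg _)
  positivity

lemma Wn_add_le (d : ℕ) (c c' : (Fin d → Ξ) → ℂ) : Wn β d (c + c') ≤ Wn β d c + Wn β d c' := by
  unfold Wn avg
  rw [← add_div]
  apply div_le_div_of_nonneg_right _ (by positivity)
  rw [← Finset.sum_add_distrib]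
  apply Finset.sum_le_sum
  intro ω _
  refine le_trans (le_of_eq ?_) (norm_add_le _ _)
  congr 1
  rw [← Finset.sum_add_distrib]
  apply Finset.sum_congr rfl
  intro ξ _
  rw [Pi.add_apply, add_mul]

lemma Wn_neg (d : ℕ) (c : (Fin d → Ξ) → ℂ) : Wn β d (-c) = Wn β d c := by
  unfold Wn
  congr 1
  funext ω
  rw [← norm_neg]
  congr 1
  rw [← Finset.sum_neg_distrib]
  apply Finset.sum_congr rfl
  intro ξ _
  rw [Pi.neg_apply]; ring

variable [DecidableEq Ξ]

lemma Wn_partial {e : Ξ → ℕ} (hg : Good e β) (he : Function.Injective e) (n : ℕ)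
    (hn : ∀ ξ, e ξ < n) (d r : ℕ) (c : (Fin d → Ξ) → ℂ) :
    Wn β d (fun ξ => if trk e n d ξ < r then c ξ else 0) ≤ 4 * √2 * Wn β d c := by
  have h := Good.partial_sum_le (trk_injective e he n hn d) (Good.pow hg he n hn d) c r
  unfold Wn avg
  rw [← mul_div_assoc]
  apply div_le_div_of_nonneg_right _ (by positivity)
  refine le_trans (le_of_eq ?_) h
  apply Finset.sum_congr rfl
  intro ω _
  beta_reduce
  congr 1
  apply Finset.sum_congr rfl
  intro ξ _
  split_ifs <;> simp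

lemma Wn_single (d : ℕ) (ξ : Fin d → Ξ) (a : ℂ) :
    Wn β d (Pi.single ξ a) = ‖a‖ * avg (fun ω => ‖tpow β d ξ ω‖) := by
  unfold Wn avg
  rw [← mul_div_assoc]
  congr 1
  rw [Finset.mul_sum]
  apply Finset.sum_congr rfl
  intro ω _
  beta_reduce
  rw [Finset.sum_eq_single ξ]
  · rw [Pi.single_eq_same, norm_mul]
  · intro ξ' _ hne
    rw [Pi.single_eq_of_ne hne, zero_mul]
  · intro h; exact absurd (Finset.mem_univ _) h

lemma coord_bound {e : Ξ → ℕ} (hg : Good e β) (he : Function.Injective e) (n : ℕ)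
    (hn : ∀ ξ, e ξ < n) (hne : ∀ ξ, ∃ ω, β ξ ω ≠ 0) (d : ℕ) (ξ : Fin d → Ξ) :
    ∃ C : ℝ, 0 ≤ C ∧ ∀ c : (Fin d → Ξ) → ℂ, ‖c ξ‖ ≤ C * Wn β d c := by
  have hpos : 0 < avg (fun ω => ‖tpow β d ξ ω‖) := by
    unfold avg
    apply div_pos _ (by exact_mod_cast Fintype.card_pos)
    choose g hg' using hne
    apply Finset.sum_pos' (fun _ _ => norm_nonneg _)
    refine ⟨fun j => g (ξ j), Finset.mem_univ _, ?_⟩
    rw [norm_pos_iff]
    unfold tpow
    exact Finset.prod_ne_zero_iff.mpr fun j _ => hg' (ξ j)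
  refine ⟨8 * √2 / avg (fun ω => ‖tpow β d ξ ω‖), by positivity, ?_⟩
  intro c
  rw [div_mul_eq_mul_div, le_div_iff₀ hpos, ← Wn_single]
  have h1 := Wn_partial β hg he n hn d (trk e n d ξ + 1) c
  have h2 := Wn_partial β hg he n hn d (trk e n d ξ) c
  have e1 : (Pi.single ξ (c ξ) : (Fin d → Ξ) → ℂ) =
      (fun ξ' => if trk e n d ξ' < trk e n d ξ + 1 then c ξ' else 0) +
      -(fun ξ' => if trk e n d ξ' < trk e n d ξ then c ξ' else 0) := by
    funext ξ'
    simp only [Pi.add_apply, Pi.neg_apply]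
    by_cases h : ξ' = ξ
    · subst h
      simp
    · rw [Pi.single_eq_of_ne h]
      have hne' : trk e n d ξ' ≠ trk e n d ξ := fun hc => h (trk_injective e he n hn d hc)
      by_cases h3 : trk e n d ξ' < trk e n d ξ
      · rw [if_pos (by omega), if_pos h3]; ring
      · rw [if_neg (by omega), if_neg h3]; ring
  rw [e1]
  refine (Wn_add_le β d _ _).trans ?_
  rw [Wn_neg]
  linarith

end

lemma bdd_trunc (j : ℕ) (p : MvPolynomial ℕ ℂ) : Bdd j (2 ^ (j + 1)) (multLin (tsym j) p) := by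
  classical
  intro ν hν
  have hcoeff : MvPolynomial.coeff ν (multLin (tsym j) p) = tsym j ν * MvPolynomial.coeff ν p := by
    rw [multLin_apply, MvPolynomial.coeff_sum]
    simp_rw [MvPolynomial.coeff_smul, MvPolynomial.coeff_monomial]
    by_cases h : ν ∈ p.support
    · rw [Finset.sum_eq_single ν]
      · simp
      · intro b _ hb
        simp [hb]
      · intro hc; exact absurd h hc
    · rw [MvPolynomial.notMem_support_iff] at h
      rw [h, mul_zero]
      apply Finset.sum_eq_zero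
      intro b hb
      by_cases hbν : b = ν
      · subst hbν
        rw [h]; simp
      · simp [hbν]
  have hne : tsym j ν ≠ 0 := by
    intro h
    rw [MvPolynomial.mem_support_iff, hcoeff, h, zero_mul] at hν
    exact hν rfl
  have h1 : wdeg (fun _ => 1) ν < 2 * 2 ^ j := by
    by_contra hc
    push Not at hc
    apply hne
    unfold tsym
    rw [vdp_zero hc, zero_mul]
  have h2 : wdeg (tailW j) ν = 0 := by
    by_contra hc
    apply hne
    unfold tsym
    rw [if_neg hc, mul_zero]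
  constructor
  · intro i hi
    rw [wdeg_eq_zero_iff] at h2
    apply h2 i
    unfold tailW
    rw [if_pos hi]
    exact one_ne_zero
  · intro i
    by_cases hi : i ∈ ν.support
    · have : ν i ≤ wdeg (fun _ => 1) ν := by
        unfold wdeg Finsupp.sum
        have := Finset.single_le_sum (f := fun i => ν i * 1) (fun _ _ => Nat.zero_le _) hi
        simpa using this
      rw [pow_succ']
      omega
    · rw [Finsupp.notMem_support_iff] at hi
      rw [hi]; omega

theorem local_data (hemb : EmbedFactor) (T : ℕ → H1 →L[ℂ] H1)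
    (hT : ∀ j p, T j (iota p) = iota (multLin (tsym j) p)) (j : ℕ) :
    ∃ (n : ℕ) (e : Fin n → H1) (f : Fin n → H1 →L[ℂ] ℂ) (A B : H1 →L[ℂ] H1), 0 < n ∧
      (∀ i i', f i (e i') = if i = i' then 1 else 0) ∧
      (∀ r : ℕ, ∀ x, ‖∑ i : Fin n with i.val < r, f i x • e i‖ ≤ 60 * ‖x‖) ∧
      ‖A‖ ≤ 60 ∧ ‖B‖ ≤ 60 ∧
      (∀ x, B (∑ i, f i (A x) • e i) = T j x) := by
  classical
  set η : ℝ := 1 / ((j : ℝ) + 1) with hη
  have hη0 : 0 < η := by positivity
  obtain ⟨M, K₁, hwalk⟩ := walk_factor (2 ^ (j + 1)) η hη0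
  obtain ⟨K₂, hembK⟩ := hemb M η hη0
  set K := max (max K₁ K₂) 3 with hK
  have hK3 : 3 ≤ K := le_max_right _ _
  obtain ⟨A₁, B₁, hA₁, hB₁, hBA₁⟩ := hwalk K ((le_max_left _ _).trans (le_max_left _ _))
  obtain ⟨D, D', hD, hD', hDD'⟩ := hembK K ((le_max_right _ _).trans (le_max_left _ _))
  haveI : Nonempty (Om K M) := nonempty_Om K (by omega) M
  haveI : Nonempty (Xi K M) := exists_bet_ne_zero_nonempty K M
  have hgood := good_walk K hK3 M
  have hinj := rkX_injective K M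
  have hlt := rkX_lt K M
  set cX := Fintype.card (Xi K M) with hcX
  have hκ : (1 + η) ^ j ≤ 3 := kappa_pow_le j
  have hκ0 : 0 ≤ 1 + η := by positivity
  -- norms of the four maps
  have nD : ∀ c, pnorm (∑ ξ, c ξ • Dd D j ξ) ≤ 3 * Wn (bet K M) j c := fun c =>
    (pnorm_Dd_le (bet K M) D (1 + η) hκ0 hD j c).trans
      (mul_le_mul_of_nonneg_right hκ (Wn_nonneg _ _ _))
  have nD' : ∀ p, Wn (bet K M) j (Dd' D' j p) ≤ 3 * pnorm p := fun p =>
    (Wn_Dd'_le (bet K M) D' (1 + η) hκ0 hD' j p).trans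
      (mul_le_mul_of_nonneg_right hκ (pnorm_nonneg _))
  have nB : ∀ c, pnorm (∑ ξ, c ξ • Bd B₁ j ξ) ≤ 3 * Wn (bet K M) j c := fun c =>
    (pnorm_Bd_le (bet K M) B₁ (1 + η) hκ0 hB₁ j c).trans
      (mul_le_mul_of_nonneg_right hκ (Wn_nonneg _ _ _))
  have nA : ∀ p, Wn (bet K M) j (Ad A₁ j (multLin (tsym j) p)) ≤ 9 * pnorm p := by
    intro p
    have h1 := (Wn_Ad_le (bet K M) A₁ (1 + η) hκ0 hA₁ j _ (bdd_trunc j p)).trans
      (mul_le_mul_of_nonneg_right hκ (pnorm_nonneg _))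
    have h2 := pnorm_trunc_le j p
    linarith
  -- enumeration
  have hcard : Fintype.card (Fin j → Xi K M) = cX ^ j := by simp [hcX]
  let en0 : (Fin j → Xi K M) → Fin (cX ^ j) := fun ξ => ⟨trk (rkX K M) cX j ξ, trk_lt _ _ hlt j ξ⟩
  have hen0 : Function.Bijective en0 := by
    rw [Fintype.bijective_iff_injective_and_card]
    refine ⟨fun a b h => trk_injective _ hinj cX hlt j (Fin.ext_iff.mp h), ?_⟩
    rw [hcard, Fintype.card_fin]
  let en : (Fin j → Xi K M) ≃ Fin (cX ^ j) := Equiv.ofBijective en0 hen0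
  have hen : ∀ ξ, ((en ξ : Fin (cX ^ j)) : ℕ) = trk (rkX K M) cX j ξ := fun ξ => rfl
  -- coordinate functionals
  have hf : ∀ ξ : Fin j → Xi K M, ∃ F : H1 →L[ℂ] ℂ, ∀ p, F (iota p) = Dd' D' j p ξ := by
    intro ξ
    obtain ⟨C, hC0, hC⟩ := coord_bound (bet K M) hgood hinj cX hlt
      (exists_bet_ne_zero K (by omega) M) j ξ
    obtain ⟨F, hF, _⟩ := exists_extend
      ((LinearMap.proj ξ : ((Fin j → Xi K M) → ℂ) →ₗ[ℂ] ℂ) ∘ₗ Dd' D' j) (C * 3) (by positivity)
      (by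
        intro p
        have h1 := hC (Dd' D' j p)
        have h2 := mul_le_mul_of_nonneg_left (nD' p) hC0
        show ‖Dd' D' j p ξ‖ ≤ _
        linarith)
    exact ⟨F, hF⟩
  choose F hF using hf
  -- the operators
  let SA : MvPolynomial ℕ ℂ →ₗ[ℂ] MvPolynomial ℕ ℂ :=
    (Fintype.linearCombination ℂ (Dd D j)) ∘ₗ Ad A₁ j ∘ₗ multLin (tsym j)
  have hSA : ∀ p, SA p = ∑ ξ, Ad A₁ j (multLin (tsym j) p) ξ • Dd D j ξ := fun p => rfl
  let SB : MvPolynomial ℕ ℂ →ₗ[ℂ] MvPolynomial ℕ ℂ :=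
    (Fintype.linearCombination ℂ (Bd B₁ j)) ∘ₗ Dd' D' j
  have hSB : ∀ p, SB p = ∑ ξ, Dd' D' j p ξ • Bd B₁ j ξ := fun p => rfl
  obtain ⟨A, hA, hAn⟩ := exists_extend (iota ∘ₗ SA) 60 (by norm_num) (by
    intro p
    show ‖iota (SA p)‖ ≤ _
    rw [norm_iota, hSA]
    have h1 := nD (Ad A₁ j (multLin (tsym j) p))
    have h2 := nA p
    have h3 := pnorm_nonneg p
    linarith)
  obtain ⟨B, hB, hBn⟩ := exists_extend (iota ∘ₗ SB) 60 (by norm_num) (by
    intro p
    show ‖iota (SB p)‖ ≤ _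
    rw [norm_iota, hSB]
    have h1 := nB (Dd' D' j p)
    have h2 := nD' p
    have h3 := pnorm_nonneg p
    linarith)
  have hDDlin : ∀ c : (Fin j → Xi K M) → ℂ, Dd' D' j (∑ ξ, c ξ • Dd D j ξ) = c := by
    intro c
    rw [map_sum]
    simp_rw [map_smul, Dd'_Dd D' D hDD' j]
    funext η'
    rw [Finset.sum_apply]
    simp [Pi.single_apply]
  refine ⟨cX ^ j, fun i => iota (Dd D j (en.symm i)), fun i => F (en.symm i), A, B, ?_, ?_, ?_,
    hAn, hBn, ?_⟩
  · exact pow_pos Fintype.card_pos j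
  · intro i i'
    rw [hF, Dd'_Dd D' D hDD' j, Pi.single_apply]
    simp
  · intro r x
    refine denseRange_iota.induction_on (p := fun x => ‖∑ i : Fin (cX ^ j) with i.val < r,
      F (en.symm i) x • iota (Dd D j (en.symm i))‖ ≤ 60 * ‖x‖) x ?_ ?_
    · apply isClosed_le
      · apply Continuous.norm
        apply continuous_finsetSum
        intro i _
        exact ((F (en.symm i)).continuous).smul continuous_const
      · fun_prop
    · intro p
      have e1 : ∑ i : Fin (cX ^ j) with i.val < r, F (en.symm i) (iota p) • iota (Dd D j (en.symm i)) =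
          iota (∑ ξ, (if trk (rkX K M) cX j ξ < r then Dd' D' j p ξ else 0) • Dd D j ξ) := by
        rw [map_sum, Finset.sum_filter]
        rw [← Equiv.sum_comp en]
        apply Finset.sum_congr rfl
        intro ξ _
        rw [hen, Equiv.symm_apply_apply, hF, map_smul]
        split_ifs
        · rfl
        · rw [zero_smul]
      rw [e1, norm_iota, norm_iota]
      have h1 := nD (fun ξ => if trk (rkX K M) cX j ξ < r then Dd' D' j p ξ else 0)
      have h2 := Wn_partial (bet K M) hgood hinj cX hlt j r (Dd' D' j p)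
      have h3 := nD' p
      have h4 := pnorm_nonneg p
      have h5 : √2 ≤ 1.5 := by
        rw [show (1.5 : ℝ) = √(1.5 ^ 2) by rw [Real.sqrt_sq (by norm_num)]]
        apply Real.sqrt_le_sqrt
        norm_num
      have h6 : 0 ≤ Wn (bet K M) j (Dd' D' j p) := Wn_nonneg _ _ _
      have h7 : 4 * √2 * Wn (bet K M) j (Dd' D' j p) ≤ 6 * Wn (bet K M) j (Dd' D' j p) := by
        nlinarith
      linarith
  · intro x
    have hext : (B.comp ((∑ i, (F (en.symm i)).smulRight (iota (Dd D j (en.symm i)))).comp A)) =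
        T j := by
      apply ext_iota
      intro p
      rw [ContinuousLinearMap.comp_apply, ContinuousLinearMap.comp_apply, hA, hT]
      show B ((∑ i, (F (en.symm i)).smulRight (iota (Dd D j (en.symm i)))) (iota (SA p))) = _
      rw [_root_.sum_apply]
      simp_rw [ContinuousLinearMap.smulRight_apply, hF]
      rw [hSA, hDDlin]
      have e2 : ∑ i : Fin (cX ^ j), Ad A₁ j (multLin (tsym j) p) (en.symm i) •
          iota (Dd D j (en.symm i)) = iota (∑ ξ, Ad A₁ j (multLin (tsym j) p) ξ • Dd D j ξ) := by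
        rw [map_sum, ← Equiv.sum_comp en]
        apply Finset.sum_congr rfl
        intro ξ _
        rw [Equiv.symm_apply_apply, map_smul]
      rw [e2, hB]
      show iota (SB _) = _
      rw [hSB, hDDlin, Bd_Ad A₁ B₁ hBA₁ j _ (bdd_trunc j p)]
    have := congrFun (congrArg DFunLike.coe hext) x
    rw [← this, ContinuousLinearMap.comp_apply, ContinuousLinearMap.comp_apply,
      _root_.sum_apply]
    rfl

end HBasis
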