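import Pool.Agent.HBasis.LocalDp

/-!
Tensor powers of the factorisation of one-variable polynomials through the walk space.
-/

set_option autoImplicit false

open MeasureTheory Finset

namespace HBasis

section AB

variable {Ω Ξ : Type} [Fintype Ω] [Nonempty Ω] [Fintype Ξ] [DecidableEq Ξ] (β : Ξ → Ω → ℂ)

/-- tensor power of `B` -/
noncomputable def Bd (B : Ξ → Polynomial ℂ) (d : ℕ) (ξ : Fin d → Ξ) : MvPolynomial ℕ ℂ :=
  MvPolynomial.rename (Fin.val : Fin d → ℕ)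
    (∏ j : Fin d, Polynomial.aeval (MvPolynomial.X j : MvPolynomial (Fin d) ℂ) (B (ξ j)))

lemma eval_aeval_X {d : ℕ} (x : Fin d → ℂ) (j : Fin d) (q : Polynomial ℂ) :
    MvPolynomial.eval x (Polynomial.aeval (MvPolynomial.X j : MvPolynomial (Fin d) ℂ) q) =
      q.eval (x j) := by
  rw [Polynomial.aeval_def, Polynomial.hom_eval₂, MvPolynomial.eval_X]
  have : (MvPolynomial.eval x).comp (algebraMap ℂ (MvPolynomial (Fin d) ℂ)) = RingHom.id ℂ := by
    ext a
    simp [MvPolynomial.algebraMap_eq]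
  rw [this]
  rfl

theorem pnorm_Bd_le (B : Ξ → Polynomial ℂ) (κ : ℝ) (hκ : 0 ≤ κ)
    (hB : ∀ c : Ξ → ℂ, ∫ θ : AddCircle (1 : ℝ), ‖∑ ξ, c ξ * (B ξ).eval (fourier 1 θ : ℂ)‖
      ∂AddCircle.haarAddCircle ≤ κ * avg (fun s => ‖∑ ξ, c ξ * β ξ s‖))
    (d : ℕ) (c : (Fin d → Ξ) → ℂ) :
    pnorm (∑ ξ, c ξ • Bd B d ξ) ≤ κ ^ d * Wn β d c := by
  have e1 : ∑ ξ, c ξ • Bd B d ξ = MvPolynomial.rename (Fin.val : Fin d → ℕ)
      (∑ ξ, c ξ • ∏ j : Fin d, Polynomial.aeval (MvPolynomial.X j : MvPolynomial (Fin d) ℂ) (B (ξ j))) := by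
    rw [map_sum]
    apply Finset.sum_congr rfl
    intro ξ _
    rw [map_smul]
    rfl
  rw [e1, pnorm_rename _ Fin.val_injective, pnorm_fin]
  have e2 : ∀ θ : Fin d → AddCircle (1 : ℝ),
      MvPolynomial.eval (fun i => (fourier 1 (θ i) : ℂ))
        (∑ ξ, c ξ • ∏ j : Fin d, Polynomial.aeval (MvPolynomial.X j : MvPolynomial (Fin d) ℂ) (B (ξ j))) =
      ∑ ξ, c ξ * ∏ j, (B (ξ j)).eval (fourier 1 (θ j) : ℂ) := by
    intro θ
    rw [map_sum]
    apply Finset.sum_congr rfl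
    intro ξ _
    rw [MvPolynomial.smul_eval, map_prod]
    congr 1
    apply Finset.prod_congr rfl
    intro j _
    rw [eval_aeval_X]
  simp_rw [e2]
  apply tensor_from_finite β hA (fun ξ θ => (B ξ).eval (fourier 1 θ : ℂ)) _ _ κ hκ hB
  · intro ξ
    exact ((B ξ).continuous.comp (fourier (T := (1 : ℝ)) 1).continuous).measurable
  · intro ξ
    have hc : Continuous (fun θ : AddCircle (1 : ℝ) => (B ξ).eval (fourier 1 θ : ℂ)) :=
      (B ξ).continuous.comp (fourier (T := (1 : ℝ)) 1).continuous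
    obtain ⟨C, hC⟩ := (isCompact_range hc).isBounded.exists_norm_le
    exact ⟨C, fun t => hC _ ⟨t, rfl⟩⟩

/-- exponents -/
noncomputable def exk (d N : ℕ) (k : Fin d → Fin (N + 1)) : Fin d →₀ ℕ :=
  Finsupp.equivFunOnFinite.symm (fun j => (k j : ℕ))

lemma exk_injective (d N : ℕ) : Function.Injective (exk d N) := by
  intro a b h
  funext j
  have := DFunLike.congr_fun h j
  apply Fin.ext
  exact this

/-- tensor power of `A` -/
noncomputable def Ad {N : ℕ} (A : Fin (N + 1) → Ξ → ℂ) (d : ℕ) :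
    MvPolynomial ℕ ℂ →ₗ[ℂ] ((Fin d → Ξ) → ℂ) where
  toFun f := fun ξ => ∑ k : Fin d → Fin (N + 1),
    MvPolynomial.coeff ((exk d N k).mapDomain Fin.val) f * ∏ j, A (k j) (ξ j)
  map_add' f g := by
    funext ξ
    simp only [MvPolynomial.coeff_add, add_mul, Finset.sum_add_distrib, Pi.add_apply]
  map_smul' c f := by
    funext ξ
    simp only [MvPolynomial.coeff_smul, smul_eq_mul, RingHom.id_apply, Pi.smul_apply, mul_sum]
    apply Finset.sum_congr rfl
    intro k _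
    ring

/-- a polynomial is bounded by `d, N` -/
def Bdd (d N : ℕ) (f : MvPolynomial ℕ ℂ) : Prop :=
  ∀ ν ∈ f.support, (∀ i, d ≤ i → ν i = 0) ∧ ∀ i, ν i ≤ N

lemma Bdd.eq_sum {d N : ℕ} {f : MvPolynomial ℕ ℂ} (h : Bdd d N f) :
    f = MvPolynomial.rename (Fin.val : Fin d → ℕ) (∑ k : Fin d → Fin (N + 1),
      MvPolynomial.coeff ((exk d N k).mapDomain Fin.val) f • MvPolynomial.monomial (exk d N k) (1 : ℂ)) := by
  classical
  rw [map_sum]
  simp_rw [map_smul, MvPolynomial.rename_monomial]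
  have hinj : Function.Injective (fun k : Fin d → Fin (N + 1) =>
      ((exk d N k).mapDomain (Fin.val : Fin d → ℕ))) :=
    (Finsupp.mapDomain_injective Fin.val_injective).comp (exk_injective d N)
  have h1 : ∑ k : Fin d → Fin (N + 1), MvPolynomial.coeff ((exk d N k).mapDomain Fin.val) f •
      MvPolynomial.monomial ((exk d N k).mapDomain Fin.val) (1 : ℂ) =
      ∑ ν ∈ Finset.univ.image (fun k : Fin d → Fin (N + 1) =>
        ((exk d N k).mapDomain (Fin.val : Fin d → ℕ))), MvPolynomial.monomial ν (f.coeff ν) := by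
    rw [Finset.sum_image (fun a _ b _ hab => hinj hab)]
    apply Finset.sum_congr rfl
    intro k _
    rw [MvPolynomial.smul_monomial, smul_eq_mul, mul_one]
  rw [h1]
  conv_lhs => rw [f.as_sum]
  apply Finset.sum_subset
  · intro ν hν
    obtain ⟨h2, h3⟩ := h ν hν
    rw [Finset.mem_image]
    refine ⟨fun j => ⟨ν j, Nat.lt_succ_of_le (h3 j)⟩, Finset.mem_univ _, ?_⟩
    ext i
    by_cases hi : i < d
    · have : i = ((⟨i, hi⟩ : Fin d) : ℕ) := rfl
      rw [this, Finsupp.mapDomain_apply Fin.val_injective]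
      rfl
    · rw [Finsupp.mapDomain_of_notMem_range, h2 i (by omega)]
      rintro ⟨j, hj⟩
      have := j.isLt
      omega
  · intro ν _ hν
    rw [MvPolynomial.notMem_support_iff] at hν
    rw [hν]
    exact map_zero _

lemma Bdd.pnorm_eq {d N : ℕ} {f : MvPolynomial ℕ ℂ} (h : Bdd d N f) :
    pnorm f = ∫ θ : Fin d → AddCircle (1 : ℝ), ‖∑ k : Fin d → Fin (N + 1),
      MvPolynomial.coeff ((exk d N k).mapDomain Fin.val) f * ∏ j, fourier ((k j : ℕ) : ℤ) (θ j)‖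
      ∂(Measure.pi fun _ => hA) := by
  conv_lhs => rw [h.eq_sum, pnorm_rename _ Fin.val_injective, pnorm_fin]
  congr 1
  ext θ
  congr 1
  rw [map_sum]
  apply Finset.sum_congr rfl
  intro k _
  rw [MvPolynomial.smul_eval, MvPolynomial.eval_monomial, one_mul]
  congr 1
  rw [Finsupp.prod_fintype _ _ (by simp)]
  apply Finset.prod_congr rfl
  intro j _
  have := fourier_pow 1 (k j) (θ j)
  rw [Nat.cast_one, mul_one] at this
  exact this

theorem Wn_Ad_le {N : ℕ} (A : Fin (N + 1) → Ξ → ℂ) (κ : ℝ) (hκ : 0 ≤ κ)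
    (hAA : ∀ c : Fin (N + 1) → ℂ,
        avg (fun s => ‖∑ ξ, (∑ k, c k * A k ξ) * β ξ s‖) ≤
          κ * ∫ θ : AddCircle (1 : ℝ), ‖∑ k : Fin (N + 1), c k * fourier (k : ℤ) θ‖
            ∂AddCircle.haarAddCircle)
    (d : ℕ) (f : MvPolynomial ℕ ℂ) (hf : Bdd d N f) :
    Wn β d (Ad A d f) ≤ κ ^ d * pnorm f := by
  have key := tensor_to_finite β hA (fun (k : Fin (N + 1)) θ => (fourier ((k : ℕ) : ℤ) θ : ℂ))
    (fun k => (fourier (T := (1 : ℝ)) ((k : ℕ) : ℤ)).continuous.measurable)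
    (fun k => ⟨1, fun θ => (norm_fourier_apply _ θ).le⟩) A κ hκ ?_ d
    (Finsupp.equivFunOnFinite.symm (fun k : Fin d → Fin (N + 1) =>
      MvPolynomial.coeff ((exk d N k).mapDomain Fin.val) f))
  · simp_rw [Finsupp.sum_fintype (Finsupp.equivFunOnFinite.symm (fun k : Fin d → Fin (N + 1) =>
      MvPolynomial.coeff ((exk d N k).mapDomain Fin.val) f))
      (fun i a => a * ∏ j, A (i j) _) (by simp)] at key
    simp_rw [Finsupp.sum_fintype (Finsupp.equivFunOnFinite.symm (fun k : Fin d → Fin (N + 1) =>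
      MvPolynomial.coeff ((exk d N k).mapDomain Fin.val) f))
      (fun i a => a * ∏ j, (fourier (((i j : Fin (N+1)) : ℕ) : ℤ) _ : ℂ)) (by simp)] at key
    rw [hf.pnorm_eq]
    exact key
  · intro c
    have := hAA c
    simp_rw [Finsupp.sum_fintype c (fun i a => a * A i _) (by simp),
        Finsupp.sum_fintype c (fun i a => a * (fourier ((i : ℕ) : ℤ) _ : ℂ)) (by simp)]
    exact this

theorem Bd_Ad {N : ℕ} (A : Fin (N + 1) → Ξ → ℂ) (B : Ξ → Polynomial ℂ)
    (hBA : ∀ k : Fin (N + 1), ∑ ξ, A k ξ • B ξ = Polynomial.X ^ (k : ℕ))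
    (d : ℕ) (f : MvPolynomial ℕ ℂ) (hf : Bdd d N f) :
    ∑ ξ, Ad A d f ξ • Bd B d ξ = f := by
  conv_rhs => rw [hf.eq_sum]
  unfold Bd
  simp_rw [← map_smul]
  rw [← map_sum]
  congr 1
  have e1 : ∀ ξ : Fin d → Ξ, Ad A d f ξ • ∏ j : Fin d,
      Polynomial.aeval (MvPolynomial.X j : MvPolynomial (Fin d) ℂ) (B (ξ j)) =
      ∑ k : Fin d → Fin (N + 1), MvPolynomial.coeff ((exk d N k).mapDomain Fin.val) f •
        ∏ j : Fin d, (A (k j) (ξ j) •
          Polynomial.aeval (MvPolynomial.X j : MvPolynomial (Fin d) ℂ) (B (ξ j))) := by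
    intro ξ
    show (∑ k : Fin d → Fin (N + 1),
      MvPolynomial.coeff ((exk d N k).mapDomain Fin.val) f * ∏ j, A (k j) (ξ j)) • _ = _
    rw [Finset.sum_smul]
    apply Finset.sum_congr rfl
    intro k _
    rw [Finset.prod_smul, smul_smul]
  simp_rw [e1]
  rw [Finset.sum_comm]
  apply Finset.sum_congr rfl
  intro k _
  rw [← Finset.smul_sum]
  have e2 : ∑ ξ : Fin d → Ξ, ∏ j : Fin d, (A (k j) (ξ j) •
          Polynomial.aeval (MvPolynomial.X j : MvPolynomial (Fin d) ℂ) (B (ξ j))) =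
      ∏ j : Fin d, ∑ ξ : Ξ, (A (k j) ξ •
          Polynomial.aeval (MvPolynomial.X j : MvPolynomial (Fin d) ℂ) (B ξ)) := by
    rw [Finset.prod_univ_sum, Fintype.piFinset_univ]
  rw [e2]
  have e3 : ∀ j : Fin d, ∑ ξ : Ξ, (A (k j) ξ •
          Polynomial.aeval (MvPolynomial.X j : MvPolynomial (Fin d) ℂ) (B ξ)) =
      (MvPolynomial.X j : MvPolynomial (Fin d) ℂ) ^ ((k j : ℕ)) := by
    intro j
    simp_rw [← map_smul]
    rw [← map_sum, hBA, map_pow, Polynomial.aeval_X]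
  simp_rw [e3]
  rw [MvPolynomial.monomial_eq, smul_eq_mul, mul_one, Finsupp.prod_fintype _ _ (by simp),
    MvPolynomial.smul_eq_C_mul]
  rfl

end AB

end HBasis
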