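import Pool.Agent.HBasis.Good

/-!
The walk system is good, and powers of good systems are good.
-/

set_option autoImplicit false

open Finset

namespace HBasis

theorem Good.map {Ω Ξ Ω' Ξ' : Type} [Fintype Ω] [Fintype Ξ] [Fintype Ω'] [Fintype Ξ']
    {e : Ξ → ℕ} {β : Ξ → Ω → ℂ} (hg : Good e β) (eΩ : Ω' ≃ Ω) (eΞ : Ξ' ≃ Ξ) :
    Good (fun ξ => e (eΞ ξ)) (fun ξ ω => β (eΞ ξ) (eΩ ω)) := by
  intro i
  obtain ⟨w, hw, H⟩ := hg (eΞ i)
  refine ⟨w, hw, ?_⟩
  intro h a b hab
  have H := H (fun ξ => h (eΞ.symm ξ)) a b (by simpa using hab)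
  refine H.trans (le_of_eq ?_)
  symm
  apply Fintype.sum_equiv eΩ
  intro ω
  congr 2
  · apply Fintype.sum_equiv eΞ
    intro ξ
    simp
  · apply Fintype.sum_equiv eΞ
    intro ξ
    simp

/-- rank on the index set of the walk -/
noncomputable def rkX (K : ℕ) : (M : ℕ) → Xi K M → ℕ
  | 0 => fun _ => 0
  | (M + 1) => fun ξ =>
      Sum.elim (rkX K M) (fun a => Fintype.card (Xi K M) + (Fintype.equivFin (Om K M) a : ℕ)) ξ

lemma rkX_lt (K : ℕ) : ∀ (M : ℕ) (ξ : Xi K M), rkX K M ξ < Fintype.card (Xi K M)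
  | 0, ξ => by
      have : 0 < Fintype.card (Xi K 0) := Fintype.card_pos_iff.mpr ⟨ξ⟩
      exact this
  | (M + 1), ξ => by
      have hc : Fintype.card (Xi K (M + 1)) = Fintype.card (Xi K M) + Fintype.card (Om K M) :=
        Fintype.card_sum
      rw [hc]
      rcases ξ with ξ | a
      · have := rkX_lt K M ξ
        show rkX K M ξ < _
        omega
      · show Fintype.card (Xi K M) + (Fintype.equivFin (Om K M) a : ℕ) < _
        have := (Fintype.equivFin (Om K M) a).isLt
        omega

lemma rkX_injective (K : ℕ) : ∀ M : ℕ, Function.Injective (rkX K M)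
  | 0 => fun a b _ => by cases a; cases b; rfl
  | (M + 1) => by
      have ih := rkX_injective K M
      rintro (ξ | a) (ξ' | a') h
      · have : rkX K M ξ = rkX K M ξ' := h
        rw [ih this]
      · exfalso
        have h : rkX K M ξ = Fintype.card (Xi K M) + (Fintype.equivFin (Om K M) a' : ℕ) := h
        have := rkX_lt K M ξ
        omega
      · exfalso
        have h : Fintype.card (Xi K M) + (Fintype.equivFin (Om K M) a : ℕ) = rkX K M ξ' := h
        have := rkX_lt K M ξ'
        omega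
      · have h : Fintype.card (Xi K M) + (Fintype.equivFin (Om K M) a : ℕ) =
          Fintype.card (Xi K M) + (Fintype.equivFin (Om K M) a' : ℕ) := h
        have h2 : (Fintype.equivFin (Om K M) a) = (Fintype.equivFin (Om K M) a') := by
          apply Fin.ext; omega
        rw [(Fintype.equivFin (Om K M)).injective h2]

lemma norm_rt (K : ℕ) (a : Fin K) : ‖rt K a‖ = 1 := by
  unfold rt
  rw [show (2 * Real.pi * Complex.I * ((a : ℕ) : ℂ) / (K : ℂ)) =
    ((2 * Real.pi * (a : ℕ) / K : ℝ) : ℂ) * Complex.I by push_cast; ring]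
  exact Complex.norm_exp_ofReal_mul_I _

lemma rt_pow (K : ℕ) (a : Fin K) (l : ℕ) :
    rt K a ^ l = (Complex.exp (2 * Real.pi * Complex.I / K) ^ l) ^ (a : ℕ) := by
  unfold rt
  rw [← Complex.exp_nat_mul, ← Complex.exp_nat_mul, ← Complex.exp_nat_mul]
  congr 1
  ring

/-- sums of powers of roots of unity vanish -/
lemma sum_rt_pow (K : ℕ) (hK : 0 < K) (l : ℕ) (hl : ¬ K ∣ l) : ∑ a : Fin K, rt K a ^ l = 0 := by
  have hprim := Complex.isPrimitiveRoot_exp K hK.ne'
  simp_rw [rt_pow]
  set z := Complex.exp (2 * Real.pi * Complex.I / K) ^ l with hz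
  have hz1 : z ≠ 1 := by
    intro h
    exact hl ((hprim.pow_eq_one_iff_dvd l).mp h)
  have hzK : z ^ K = 1 := by
    rw [hz, ← pow_mul, mul_comm l K, pow_mul, hprim.pow_eq_one, one_pow]
  rw [Fin.sum_univ_eq_sum_range (fun i => z ^ i) K, geom_sum_eq hz1, hzK]
  simp

theorem good_walk (K : ℕ) (hK : 3 ≤ K) : ∀ M : ℕ, Good (rkX K M) (bet K M)
  | 0 => good_unit _
  | (M + 1) => by
      have ih := good_walk K hK M
      have : Nonempty (Fin K) := ⟨⟨0, by omega⟩⟩
      have h1 : ∑ i : Fin K, rt K i = 0 := by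
        have := sum_rt_pow K (by omega) 1 (by
          intro h
          have := Nat.le_of_dvd one_pos h
          omega)
        simpa using this
      have h2 : ∑ i : Fin K, rt K i ^ 2 = 0 := by
        exact sum_rt_pow K (by omega) 2 (by
          intro h
          have := Nat.le_of_dvd two_pos h
          omega)
      have := Good.extend (rt K) (norm_rt K) h1 h2 ih
        (fun a => Fintype.card (Xi K M) + (Fintype.equivFin (Om K M) a : ℕ))
        (by
          intro a a' h
          apply (Fintype.equivFin (Om K M)).injective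
          apply Fin.ext
          simpa using h)
        (by
          intro ξ ω
          have := rkX_lt K M ξ
          omega)
      have hb : bet K (M + 1) = (fun (ξ : Xi K M ⊕ Om K M) (ω : Om K M × Fin K) =>
          Sum.elim (fun ξ' => bet K M ξ' ω.1) (fun a => if ω.1 = a then rt K ω.2 else 0) ξ) := by
        funext ξ ω
        rcases ξ with ξ | a <;> rfl
      rw [hb]
      exact this

/-- tensor powers -/
noncomputable def tpow {Ω Ξ : Type} (β : Ξ → Ω → ℂ) (d : ℕ) (ξ : Fin d → Ξ) (ω : Fin d → Ω) : ℂ :=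
  ∏ i, β (ξ i) (ω i)

def trk {Ξ : Type} (e : Ξ → ℕ) (n d : ℕ) (ξ : Fin d → Ξ) : ℕ := ∑ i, e (ξ i) * n ^ (i : ℕ)

lemma trk_lt {Ξ : Type} (e : Ξ → ℕ) (n : ℕ) (hn : ∀ ξ, e ξ < n) :
    ∀ (d : ℕ) (ξ : Fin d → Ξ), trk e n d ξ < n ^ d
  | 0, ξ => by simp [trk]
  | (d + 1), ξ => by
      have ih := trk_lt e n hn d (fun i => ξ i.castSucc)
      unfold trk at ih ⊢
      rw [Fin.sum_univ_castSucc]
      simp only [Fin.val_castSucc, Fin.val_last]
      have h1 := hn (ξ (Fin.last d))
      have : e (ξ (Fin.last d)) * n ^ d + n ^ d ≤ n ^ (d + 1) := by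
        calc e (ξ (Fin.last d)) * n ^ d + n ^ d = (e (ξ (Fin.last d)) + 1) * n ^ d := by ring
          _ ≤ n * n ^ d := Nat.mul_le_mul_right _ h1
          _ = n ^ (d + 1) := by ring
      have ih' : ∑ x : Fin d, e (ξ x.castSucc) * n ^ (x : ℕ) < n ^ d := ih
      omega

lemma trk_injective {Ξ : Type} (e : Ξ → ℕ) (he : Function.Injective e) (n : ℕ) (hn : ∀ ξ, e ξ < n) :
    ∀ d : ℕ, Function.Injective (trk e n d)
  | 0 => fun a b _ => Subsingleton.elim a b
  | (d + 1) => by
      intro a b h
      have ih := trk_injective e he n hn d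
      have ha := trk_lt e n hn d (fun i => a i.castSucc)
      have hb := trk_lt e n hn d (fun i => b i.castSucc)
      have ea : trk e n (d + 1) a = trk e n d (fun i => a i.castSucc) + e (a (Fin.last d)) * n ^ d := by
        unfold trk; rw [Fin.sum_univ_castSucc]; simp
      have eb : trk e n (d + 1) b = trk e n d (fun i => b i.castSucc) + e (b (Fin.last d)) * n ^ d := by
        unfold trk; rw [Fin.sum_univ_castSucc]; simp
      rw [ea, eb] at h
      have hpos : 0 < n ^ d := by omega
      have h1 : e (a (Fin.last d)) = e (b (Fin.last d)) := by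
        have q1 := Nat.add_mul_div_right (trk e n d (fun i => a i.castSucc)) (e (a (Fin.last d))) hpos
        have q2 := Nat.add_mul_div_right (trk e n d (fun i => b i.castSucc)) (e (b (Fin.last d))) hpos
        rw [Nat.div_eq_of_lt ha] at q1
        rw [Nat.div_eq_of_lt hb] at q2
        rw [h] at q1
        omega
      have h2 : trk e n d (fun i => a i.castSucc) = trk e n d (fun i => b i.castSucc) := by
        rw [h1] at h; omega
      have h3 := ih h2
      funext i
      refine Fin.lastCases ?_ (fun j => ?_) i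
      · exact he h1
      · exact congrFun h3 j

theorem Good.pow {Ω Ξ : Type} [Fintype Ω] [Fintype Ξ] [DecidableEq Ξ] {e : Ξ → ℕ} {β : Ξ → Ω → ℂ}
    (hg : Good e β) (he : Function.Injective e) (n : ℕ) (hn : ∀ ξ, e ξ < n) :
    ∀ d : ℕ, Good (trk e n d) (tpow β d)
  | 0 => by
      intro i
      refine ⟨1, zero_le_one, ?_⟩
      intro h a b hab
      simp [trk, tpow]
  | (d + 1) => by
      have ih := Good.pow hg he n hn d
      have hp := Good.prod ih hg (trk_injective e he n hn d) he (n ^ d) (trk_lt e n hn d)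
      have hm := Good.map hp
        ((Fin.snocEquiv (fun _ : Fin (d + 1) => Ω)).symm.trans (Equiv.prodComm _ _))
        ((Fin.snocEquiv (fun _ : Fin (d + 1) => Ξ)).symm.trans (Equiv.prodComm _ _))
      have h1 : trk e n (d + 1) = (fun ξ => (fun ξ : (Fin d → Ξ) × Ξ => trk e n d ξ.1 + n ^ d * e ξ.2)
          (((Fin.snocEquiv (fun _ : Fin (d + 1) => Ξ)).symm.trans (Equiv.prodComm _ _)) ξ)) := by
        funext ξ
        show trk e n (d + 1) ξ = trk e n d (fun i => ξ i.castSucc) + n ^ d * e (ξ (Fin.last d))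
        unfold trk
        rw [Fin.sum_univ_castSucc]
        simp [mul_comm]
      have h2 : tpow β (d + 1) = (fun ξ ω => (fun (ξ : (Fin d → Ξ) × Ξ) (ω : (Fin d → Ω) × Ω) =>
          tpow β d ξ.1 ω.1 * β ξ.2 ω.2)
          (((Fin.snocEquiv (fun _ : Fin (d + 1) => Ξ)).symm.trans (Equiv.prodComm _ _)) ξ)
          (((Fin.snocEquiv (fun _ : Fin (d + 1) => Ω)).symm.trans (Equiv.prodComm _ _)) ω)) := by
        funext ξ ω
        show tpow β (d + 1) ξ ω = tpow β d (fun i => ξ i.castSucc) (fun i => ω i.castSucc) *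
          β (ξ (Fin.last d)) (ω (Fin.last d))
        unfold tpow
        rw [Fin.prod_univ_castSucc]
      rw [h1, h2]
      exact hm

end HBasis
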