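import Pool.Agent.HBasis.Defs

/-! Tensor powers of bounded maps between subspaces of `L¹`. -/

set_option autoImplicit false

open MeasureTheory

namespace HBasis

section tensor
variable {α I Ω Ω' : Type} [MeasurableSpace Ω] [MeasurableSpace Ω']

/-- the mixed function is integrable -/
theorem tensor_mixed_integrable (P : Measure Ω) (P' : Measure Ω') [IsProbabilityMeasure P]
    [IsProbabilityMeasure P'] (G : I → Ω → ℂ) (G' : I → Ω' → ℂ) (hG : ∀ i, Measurable (G i))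
    (hG' : ∀ i, Measurable (G' i)) (bG : ∀ i, ∃ C, ∀ ω, ‖G i ω‖ ≤ C)
    (bG' : ∀ i, ∃ C, ∀ ω, ‖G' i ω‖ ≤ C) (d : ℕ) (s : Finset α) (c : α → ℂ)
    (i0 : α → I) (i : α → Fin d → I) :
    Integrable (fun z : Ω × (Fin d → Ω') => ‖∑ a ∈ s, c a * (G (i0 a) z.1 *
      ∏ j, G' (i a j) (z.2 j))‖) (P.prod (Measure.pi fun _ => P')) := by
  choose B hB using bG
  choose B' hB' using bG'
  refine Integrable.of_bound ?_ (∑ a ∈ s, ‖c a‖ * (B (i0 a) * ∏ j, B' (i a j))) ?_
  · refine Measurable.aestronglyMeasurable ?_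
    refine Measurable.norm (Finset.measurable_sum _ fun a _ => ?_)
    refine measurable_const.mul (((hG _).comp measurable_fst).mul ?_)
    refine Finset.measurable_prod _ fun j _ => ?_
    exact (hG' _).comp ((measurable_pi_apply j).comp measurable_snd)
  · refine Filter.Eventually.of_forall fun z => ?_
    rw [norm_norm]
    refine (norm_sum_le _ _).trans (Finset.sum_le_sum fun a _ => ?_)
    rw [norm_mul, norm_mul, norm_prod]
    refine mul_le_mul_of_nonneg_left ?_ (norm_nonneg _)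
    refine mul_le_mul (hB _ _) (Finset.prod_le_prod (fun _ _ => norm_nonneg _) fun j _ => hB' _ _)
      (Finset.prod_nonneg fun _ _ => norm_nonneg _) ((norm_nonneg _).trans (hB _ z.1))

theorem integral_pi_succ (P : Measure Ω) [IsProbabilityMeasure P] (d : ℕ)
    (G : I → Ω → ℂ) (s : Finset α) (c : α → ℂ) (i : α → Fin (d + 1) → I) :
    ∫ ω : Fin (d + 1) → Ω, ‖∑ a ∈ s, c a * ∏ j, G (i a j) (ω j)‖ ∂(Measure.pi fun _ => P) =
    ∫ z : Ω × (Fin d → Ω), ‖∑ a ∈ s, c a * (G (i a 0) z.1 *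
      ∏ j : Fin d, G (i a j.succ) (z.2 j))‖ ∂(P.prod (Measure.pi fun _ => P)) := by
  have := (measurePreserving_piFinSuccAbove (fun _ : Fin (d + 1) => P) 0).integral_comp'
    (fun z : Ω × (Fin d → Ω) => ‖∑ a ∈ s, c a * (G (i a 0) z.1 *
      ∏ j : Fin d, G (i a j.succ) (z.2 j))‖)
  rw [← this]
  refine integral_congr_ae (Filter.Eventually.of_forall fun ω => ?_)
  simp only [Fin.prod_univ_succ]
  rfl

theorem tensor_aux
    (P : Measure Ω) (P' : Measure Ω') [IsProbabilityMeasure P] [IsProbabilityMeasure P']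
    (G : I → Ω → ℂ) (G' : I → Ω' → ℂ) (hG : ∀ i, Measurable (G i)) (hG' : ∀ i, Measurable (G' i))
    (bG : ∀ i, ∃ C, ∀ ω, ‖G i ω‖ ≤ C) (bG' : ∀ i, ∃ C, ∀ ω, ‖G' i ω‖ ≤ C)
    (κ : ℝ) (hκ : 0 ≤ κ) (s : Finset α)
    (h : ∀ (c : α → ℂ) (i : α → I), ∫ ω', ‖∑ a ∈ s, c a * G' (i a) ω'‖ ∂P' ≤
      κ * ∫ ω, ‖∑ a ∈ s, c a * G (i a) ω‖ ∂P) (d : ℕ) :
    ∀ (c : α → ℂ) (i : α → Fin d → I),
    ∫ ω' : Fin d → Ω', ‖∑ a ∈ s, c a * ∏ j, G' (i a j) (ω' j)‖ ∂(Measure.pi fun _ => P') ≤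
      κ ^ d * ∫ ω : Fin d → Ω, ‖∑ a ∈ s, c a * ∏ j, G (i a j) (ω j)‖
        ∂(Measure.pi fun _ => P) := by
  induction d with
  | zero =>
    intro c i
    simp
  | succ d ih =>
    intro c i
    have I1 := tensor_mixed_integrable P' P' G' G' hG' hG' bG' bG' d s c (fun a => i a 0)
      (fun a j => i a j.succ)
    have I2 := tensor_mixed_integrable P P' G G' hG hG' bG bG' d s c (fun a => i a 0)
      (fun a j => i a j.succ)
    have I3 := tensor_mixed_integrable P P G G hG hG bG bG d s c (fun a => i a 0)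
      (fun a j => i a j.succ)
    rw [integral_pi_succ P' d G' s c i, integral_pi_succ P d G s c i]
    have S1 : ∫ z : Ω' × (Fin d → Ω'), ‖∑ a ∈ s, c a * (G' (i a 0) z.1 *
        ∏ j : Fin d, G' (i a j.succ) (z.2 j))‖ ∂(P'.prod (Measure.pi fun _ => P')) =
        ∫ y : Fin d → Ω', ∫ x : Ω', ‖∑ a ∈ s, c a * (G' (i a 0) x *
        ∏ j : Fin d, G' (i a j.succ) (y j))‖ ∂P' ∂(Measure.pi fun _ => P') :=
      integral_prod_symm _ I1
    have S2 : ∫ z : Ω × (Fin d → Ω), ‖∑ a ∈ s, c a * (G (i a 0) z.1 *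
        ∏ j : Fin d, G (i a j.succ) (z.2 j))‖ ∂(P.prod (Measure.pi fun _ => P)) =
        ∫ x : Ω, ∫ y : Fin d → Ω, ‖∑ a ∈ s, c a * (G (i a 0) x *
        ∏ j : Fin d, G (i a j.succ) (y j))‖ ∂(Measure.pi fun _ => P) ∂P :=
      integral_prod _ I3
    have S3 : ∫ y : Fin d → Ω', ∫ x : Ω, ‖∑ a ∈ s, c a * (G (i a 0) x *
        ∏ j : Fin d, G' (i a j.succ) (y j))‖ ∂P ∂(Measure.pi fun _ => P') =
        ∫ x : Ω, ∫ y : Fin d → Ω', ‖∑ a ∈ s, c a * (G (i a 0) x *
        ∏ j : Fin d, G' (i a j.succ) (y j))‖ ∂(Measure.pi fun _ => P') ∂P :=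
      (integral_prod_symm _ I2).symm.trans (integral_prod _ I2)
    rw [S1, S2]
    have e1 : ∫ y : Fin d → Ω', ∫ x : Ω', ‖∑ a ∈ s, c a * (G' (i a 0) x *
        ∏ j : Fin d, G' (i a j.succ) (y j))‖ ∂P' ∂(Measure.pi fun _ => P') ≤
      ∫ y : Fin d → Ω', κ * ∫ x : Ω, ‖∑ a ∈ s, c a * (G (i a 0) x *
        ∏ j : Fin d, G' (i a j.succ) (y j))‖ ∂P ∂(Measure.pi fun _ => P') := by
      refine integral_mono I1.integral_prod_right (I2.integral_prod_right.const_mul κ) fun y => ?_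
      have := h (fun a => c a * ∏ j : Fin d, G' (i a j.succ) (y j)) (fun a => i a 0)
      have e2 : ∀ x, ∑ a ∈ s, c a * (G' (i a 0) x * ∏ j : Fin d, G' (i a j.succ) (y j)) =
          ∑ a ∈ s, c a * (∏ j : Fin d, G' (i a j.succ) (y j)) * G' (i a 0) x :=
        fun x => Finset.sum_congr rfl fun a _ => by ring
      have e3 : ∀ x, ∑ a ∈ s, c a * (G (i a 0) x * ∏ j : Fin d, G' (i a j.succ) (y j)) =
          ∑ a ∈ s, c a * (∏ j : Fin d, G' (i a j.succ) (y j)) * G (i a 0) x :=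
        fun x => Finset.sum_congr rfl fun a _ => by ring
      simp only [e2, e3]
      exact this
    refine e1.trans ?_
    rw [integral_const_mul, S3, pow_succ', mul_assoc]
    refine mul_le_mul_of_nonneg_left ?_ hκ
    rw [← integral_const_mul]
    refine integral_mono I2.integral_prod_left (I3.integral_prod_left.const_mul _) fun x => ?_
    have := ih (fun a => c a * G (i a 0) x) (fun a j => i a j.succ)
    have e2 : ∀ y : Fin d → Ω', ∑ a ∈ s, c a * (G (i a 0) x *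
        ∏ j : Fin d, G' (i a j.succ) (y j)) =
        ∑ a ∈ s, c a * G (i a 0) x * ∏ j : Fin d, G' (i a j.succ) (y j) :=
      fun y => Finset.sum_congr rfl fun a _ => by ring
    have e3 : ∀ y : Fin d → Ω, ∑ a ∈ s, c a * (G (i a 0) x *
        ∏ j : Fin d, G (i a j.succ) (y j)) =
        ∑ a ∈ s, c a * G (i a 0) x * ∏ j : Fin d, G (i a j.succ) (y j) :=
      fun y => Finset.sum_congr rfl fun a _ => by ring
    simp only [e2, e3]
    exact this

end tensor

/-- TASK T5a (Tensor.lean): tensor powers of bounded maps between subspaces of `L¹`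
(do one coordinate at a time + Fubini). -/
theorem tensor_le {I Ω Ω' : Type} [MeasurableSpace Ω] [MeasurableSpace Ω']
    (P : Measure Ω) (P' : Measure Ω') [IsProbabilityMeasure P] [IsProbabilityMeasure P']
    (G : I → Ω → ℂ) (G' : I → Ω' → ℂ) (hG : ∀ i, Measurable (G i)) (hG' : ∀ i, Measurable (G' i))
    (bG : ∀ i, ∃ C, ∀ ω, ‖G i ω‖ ≤ C) (bG' : ∀ i, ∃ C, ∀ ω, ‖G' i ω‖ ≤ C)
    (κ : ℝ) (hκ : 0 ≤ κ)
    (h : ∀ c : I →₀ ℂ, ∫ ω', ‖c.sum fun i a => a * G' i ω'‖ ∂P' ≤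
      κ * ∫ ω, ‖c.sum fun i a => a * G i ω‖ ∂P)
    (d : ℕ) (c : (Fin d → I) →₀ ℂ) :
    ∫ ω' : Fin d → Ω', ‖c.sum fun i a => a * ∏ j, G' (i j) (ω' j)‖ ∂(Measure.pi fun _ => P') ≤
      κ ^ d * ∫ ω : Fin d → Ω, ‖c.sum fun i a => a * ∏ j, G (i j) (ω j)‖
        ∂(Measure.pi fun _ => P) := by
  refine tensor_aux (α := Fin d → I) P P' G G' hG hG' bG bG' κ hκ c.support ?_ d (fun i => c i)
    (fun i => i)
  intro c' i'
  have key : ∀ {Ω'' : Type} (F : I → Ω'' → ℂ) (ω : Ω''),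
      (∑ a ∈ c.support, Finsupp.single (i' a) (c' a)).sum (fun i a => a * F i ω) =
        ∑ a ∈ c.support, c' a * F (i' a) ω := by
    intro Ω'' F ω
    rw [← Finsupp.sum_finsetSum_index (by simp) (by intros; ring)]
    refine Finset.sum_congr rfl fun a _ => ?_
    rw [Finsupp.sum_single_index (by simp)]
  have := h (∑ a ∈ c.support, Finsupp.single (i' a) (c' a))
  simp only [key] at this
  exact this

/-- uniform measure on a finite type (with its top measurable space) -/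
noncomputable def unif (Ω : Type) [Fintype Ω] : @Measure Ω ⊤ :=
  letI : MeasurableSpace Ω := ⊤
  (Fintype.card Ω : ENNReal)⁻¹ • Measure.count

/-- TASK T5b -/
theorem unif_prob (Ω : Type) [Fintype Ω] [Nonempty Ω] :
    @IsProbabilityMeasure Ω ⊤ (unif Ω) := by
  letI : MeasurableSpace Ω := ⊤
  refine ⟨?_⟩
  show ((Fintype.card Ω : ENNReal)⁻¹ • Measure.count) Set.univ = 1
  rw [Measure.smul_apply, Measure.count_univ, smul_eq_mul]
  simp only [ENat.card_eq_coe_fintype_card, ENat.toENNReal_coe]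
  refine ENNReal.inv_mul_cancel ?_ (ENNReal.natCast_ne_top _)
  exact_mod_cast Fintype.card_ne_zero

theorem integral_unif (Ω : Type) [Fintype Ω] [Nonempty Ω] (f : Ω → ℝ) :
    @integral Ω ℝ _ _ ⊤ (unif Ω) f = avg f := by
  letI : MeasurableSpace Ω := ⊤
  show ∫ ω, f ω ∂((Fintype.card Ω : ENNReal)⁻¹ • Measure.count) = avg f
  rw [integral_smul_measure, integral_count]
  simp only [avg, ENNReal.toReal_inv, ENNReal.toReal_natCast, smul_eq_mul]
  rw [div_eq_inv_mul]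

theorem integral_pi_unif (Ω : Type) [Fintype Ω] [Nonempty Ω] (d : ℕ) (f : (Fin d → Ω) → ℝ) :
    (letI : MeasurableSpace Ω := ⊤; ∫ ω, f ω ∂(Measure.pi fun _ : Fin d => unif Ω)) = avg f := by
  letI : MeasurableSpace Ω := ⊤
  haveI : IsProbabilityMeasure (unif Ω) := unif_prob Ω
  show ∫ ω, f ω ∂(Measure.pi fun _ : Fin d => unif Ω) = avg f
  rw [integral_fintype Integrable.of_finite]
  have : ∀ ω : Fin d → Ω, (Measure.pi fun _ : Fin d => unif Ω).real {ω} =
      ((Fintype.card (Fin d → Ω) : ℕ) : ℝ)⁻¹ := by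
    intro ω
    rw [Measure.real, Measure.pi_singleton]
    have h1 : ∀ x : Ω, unif Ω {x} = (Fintype.card Ω : ENNReal)⁻¹ := by
      intro x
      show ((Fintype.card Ω : ENNReal)⁻¹ • Measure.count) {x} = _
      rw [Measure.smul_apply, Measure.count_singleton, smul_eq_mul, mul_one]
    simp only [h1, Finset.prod_const, Finset.card_univ, Fintype.card_fin, Fintype.card_pi]
    rw [ENNReal.toReal_pow, ENNReal.toReal_inv, ENNReal.toReal_natCast]
    push_cast
    rw [inv_pow]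
  simp only [this, smul_eq_mul, avg]
  rw [← Finset.mul_sum, div_eq_inv_mul]

end HBasis
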