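import Pool.Agent.HBasis.Curry
import Pool.Agent.HBasis.Power
import Pool.Agent.HBasis.Tensor

/-!
Tensor powers of the embedding of the walk space into polynomials.
-/

set_option autoImplicit false

open MeasureTheory Finset

namespace HBasis

/-- the norm of the tensor power of a system. -/
noncomputable def Wn {Ω Ξ : Type} [Fintype Ω] [Fintype Ξ] (β : Ξ → Ω → ℂ) (d : ℕ)
    (c : (Fin d → Ξ) → ℂ) : ℝ :=
  avg (fun ω : Fin d → Ω => ‖∑ ξ, c ξ * tpow β d ξ ω‖)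

section D

variable {Ω Ξ : Type} [Fintype Ω] [Nonempty Ω] [Fintype Ξ] [DecidableEq Ξ] (β : Ξ → Ω → ℂ)

/-- tensor power of `D` -/
noncomputable def Dd (Dp : Ξ → MvPolynomial ℕ ℂ) (d : ℕ) (ξ : Fin d → Ξ) : MvPolynomial ℕ ℂ :=
  ∏ j : Fin d, MvPolynomial.rename (fun l => Nat.pair j l) (Dp (ξ j))

/-- general tensor lemma from a finite system to torus functions -/
theorem tensor_from_finite {Ω' : Type} [MeasurableSpace Ω'] (P' : Measure Ω')
    [IsProbabilityMeasure P'] (G' : Ξ → Ω' → ℂ) (hG' : ∀ i, Measurable (G' i))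
    (bG' : ∀ i, ∃ C, ∀ ω, ‖G' i ω‖ ≤ C) (κ : ℝ) (hκ : 0 ≤ κ)
    (h : ∀ c : Ξ → ℂ, ∫ ω', ‖∑ i, c i * G' i ω'‖ ∂P' ≤ κ * avg (fun ω => ‖∑ i, c i * β i ω‖))
    (d : ℕ) (c : (Fin d → Ξ) → ℂ) :
    ∫ ω' : Fin d → Ω', ‖∑ i, c i * ∏ j, G' (i j) (ω' j)‖ ∂(Measure.pi fun _ => P') ≤
      κ ^ d * Wn β d c := by
  letI : MeasurableSpace Ω := ⊤
  haveI : IsProbabilityMeasure (unif Ω) := unif_prob Ω
  have key := tensor_le (unif Ω) P' β G' (fun i => measurable_from_top) hG'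
    (fun i => by
      obtain ⟨C, hC⟩ := (Set.finite_range (fun ω => ‖β i ω‖)).bddAbove
      exact ⟨C, fun ω => hC ⟨ω, rfl⟩⟩) bG' κ hκ
    (fun c => by
      have := h c
      rw [integral_unif Ω (fun ω => ‖c.sum fun i a => a * β i ω‖)]
      simp_rw [Finsupp.sum_fintype c (fun i a => a * G' i _) (by simp),
        Finsupp.sum_fintype c (fun i a => a * β i _) (by simp)]
      exact this) d (Finsupp.equivFunOnFinite.symm c)
  rw [integral_pi_unif Ω d] at key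
  simp_rw [Finsupp.sum_fintype (Finsupp.equivFunOnFinite.symm c)
    (fun i a => a * ∏ j, G' (i j) _) (by simp)] at key
  simp_rw [Finsupp.sum_fintype (Finsupp.equivFunOnFinite.symm c)
    (fun i a => a * ∏ j, β (i j) _) (by simp)] at key
  exact key

/-- general tensor lemma from functions to a finite system -/
theorem tensor_to_finite {Ω' I : Type} [MeasurableSpace Ω'] (P' : Measure Ω')
    [IsProbabilityMeasure P'] (G : I → Ω' → ℂ) (hG : ∀ i, Measurable (G i))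
    (bG : ∀ i, ∃ C, ∀ ω, ‖G i ω‖ ≤ C) (A : I → Ξ → ℂ) (κ : ℝ) (hκ : 0 ≤ κ)
    (h : ∀ c : I →₀ ℂ, avg (fun ω => ‖∑ ξ, (c.sum fun i a => a * A i ξ) * β ξ ω‖) ≤
      κ * ∫ ω', ‖c.sum fun i a => a * G i ω'‖ ∂P')
    (d : ℕ) (c : (Fin d → I) →₀ ℂ) :
    Wn β d (fun ξ => c.sum fun i a => a * ∏ j, A (i j) (ξ j)) ≤
      κ ^ d * ∫ ω' : Fin d → Ω', ‖c.sum fun i a => a * ∏ j, G (i j) (ω' j)‖
        ∂(Measure.pi fun _ => P') := by
  letI : MeasurableSpace Ω := ⊤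
  haveI : IsProbabilityMeasure (unif Ω) := unif_prob Ω
  have key := tensor_le P' (unif Ω) G (fun i ω => ∑ ξ, A i ξ * β ξ ω) hG
    (fun i => measurable_from_top) bG
    (fun i => by
      obtain ⟨C, hC⟩ := (Set.finite_range (fun ω => ‖∑ ξ, A i ξ * β ξ ω‖)).bddAbove
      exact ⟨C, fun ω => hC ⟨ω, rfl⟩⟩) κ hκ
    (fun c => by
      have := h c
      rw [integral_unif Ω (fun ω => ‖c.sum fun i a => a * ∑ ξ, A i ξ * β ξ ω‖)]
      refine le_trans (le_of_eq ?_) this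
      congr 1
      funext ω
      congr 1
      unfold Finsupp.sum
      simp_rw [mul_sum, sum_mul]
      rw [Finset.sum_comm]
      apply Finset.sum_congr rfl
      intro ξ _
      apply Finset.sum_congr rfl
      intro i _
      ring) d c
  rw [integral_pi_unif Ω d] at key
  refine le_trans (le_of_eq ?_) key
  unfold Wn
  congr 1
  funext ω
  congr 1
  unfold Finsupp.sum tpow
  simp_rw [sum_mul]
  rw [Finset.sum_comm]
  apply Finset.sum_congr rfl
  intro i _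
  simp_rw [Finset.prod_univ_sum]
  rw [mul_sum, Fintype.piFinset_univ]
  apply Finset.sum_congr rfl
  intro ξ _
  rw [Finset.prod_mul_distrib]
  ring

theorem measurable_eval_wv (p : MvPolynomial ℕ ℂ) :
    Measurable (fun θ => MvPolynomial.eval (wv θ) p) := isSteinhaus_wv.meas_eval p

lemma Dd_eq_rename (Dp : Ξ → MvPolynomial ℕ ℂ) (d : ℕ) (ξ : Fin d → Ξ) :
    Dd Dp d ξ = MvPolynomial.rename (fun x : Fin d × ℕ => Nat.pair x.1 x.2)
      (∏ j : Fin d, MvPolynomial.rename (fun l => (j, l)) (Dp (ξ j))) := by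
  unfold Dd
  rw [map_prod]
  apply Finset.prod_congr rfl
  intro j _
  rw [MvPolynomial.rename_rename]
  rfl

lemma pair_injective (d : ℕ) : Function.Injective (fun x : Fin d × ℕ => Nat.pair x.1 x.2) := by
  rintro ⟨a, b⟩ ⟨a', b'⟩ h
  have := Nat.pair_eq_pair.mp h
  ext
  · exact this.1
  · exact this.2

theorem pnorm_Dd_le (Dp : Ξ → MvPolynomial ℕ ℂ) (κ : ℝ) (hκ : 0 ≤ κ)
    (hD : ∀ c : Ξ → ℂ, pnorm (∑ ξ, c ξ • Dp ξ) ≤ κ * avg (fun s => ‖∑ ξ, c ξ * β ξ s‖))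
    (d : ℕ) (c : (Fin d → Ξ) → ℂ) :
    pnorm (∑ ξ, c ξ • Dd Dp d ξ) ≤ κ ^ d * Wn β d c := by
  have e1 : ∑ ξ, c ξ • Dd Dp d ξ = MvPolynomial.rename (fun x : Fin d × ℕ => Nat.pair x.1 x.2)
      (∑ ξ, c ξ • ∏ j : Fin d, MvPolynomial.rename (fun l => (j, l)) (Dp (ξ j))) := by
    rw [map_sum]
    apply Finset.sum_congr rfl
    intro ξ _
    rw [map_smul, Dd_eq_rename]
  rw [e1, pnorm_rename _ (pair_injective d), pnorm_curry]
  have e2 : ∀ θ : Fin d → ℕ → AddCircle (1 : ℝ),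
      MvPolynomial.eval (fun x : Fin d × ℕ => wv (θ x.1) x.2)
        (∑ ξ, c ξ • ∏ j : Fin d, MvPolynomial.rename (fun l => (j, l)) (Dp (ξ j))) =
      ∑ ξ, c ξ * ∏ j, MvPolynomial.eval (wv (θ j)) (Dp (ξ j)) := by
    intro θ
    rw [map_sum]
    apply Finset.sum_congr rfl
    intro ξ _
    rw [MvPolynomial.smul_eval, map_prod]
    congr 1
    apply Finset.prod_congr rfl
    intro j _
    rw [MvPolynomial.eval_rename]
    rfl
  simp_rw [e2]
  apply tensor_from_finite β mInf (fun ξ θ => MvPolynomial.eval (wv θ) (Dp ξ))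
    (fun ξ => measurable_eval_wv _) (fun ξ => ⟨_, isSteinhaus_wv.norm_eval_le (Dp ξ)⟩) κ hκ
  intro c
  refine le_trans (le_of_eq ?_) (hD c)
  unfold pnorm
  congr 1
  ext θ
  congr 1
  rw [map_sum]
  apply Finset.sum_congr rfl
  intro ξ _
  rw [MvPolynomial.smul_eval]
  rfl

end D

end HBasis
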