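import Pool.Agent.HBasis.LocalD

/-!
Tensor powers of the projection of polynomials onto the walk space.
-/

set_option autoImplicit false

open MeasureTheory Finset

namespace HBasis

section Dp

variable {Ω Ξ : Type} [Fintype Ω] [Nonempty Ω] [Fintype Ξ] [DecidableEq Ξ] (β : Ξ → Ω → ℂ)

lemma pairj_injective (j : ℕ) : Function.Injective (fun l : ℕ => Nat.pair j l) := by
  intro a b h
  exact (Nat.pair_eq_pair.mp h).2

/-- weight of the variables outside the first `d` blocks -/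
def blockW (d n : ℕ) : ℕ := if d ≤ (Nat.unpair n).1 then 1 else 0

/-- the `j`-th block of an exponent -/
noncomputable def blk (d : ℕ) (ν : ℕ →₀ ℕ) (j : Fin d) : ℕ →₀ ℕ :=
  ν.comapDomain (fun l => Nat.pair j l) ((pairj_injective j).injOn)

lemma blk_apply (d : ℕ) (ν : ℕ →₀ ℕ) (j : Fin d) (l : ℕ) : blk d ν j l = ν (Nat.pair j l) := rfl

/-- packing of blocks -/
noncomputable def pk (d : ℕ) (x : Fin d → ℕ →₀ ℕ) : ℕ →₀ ℕ :=
  ∑ j : Fin d, (x j).mapDomain (fun l => Nat.pair j l)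

lemma pk_apply_pair (d : ℕ) (x : Fin d → ℕ →₀ ℕ) (j : Fin d) (l : ℕ) :
    pk d x (Nat.pair j l) = x j l := by
  unfold pk
  rw [Finsupp.finsetSum_apply, Finset.sum_eq_single j]
  · rw [Finsupp.mapDomain_apply (pairj_injective j)]
  · intro j' _ hne
    apply Finsupp.mapDomain_of_notMem_range
    rintro ⟨l', hl'⟩
    have := (Nat.pair_eq_pair.mp hl').1
    exact hne (Fin.ext this)
  · intro h; exact absurd (Finset.mem_univ j) h

lemma pk_apply_out (d : ℕ) (x : Fin d → ℕ →₀ ℕ) (n : ℕ) (hn : d ≤ (Nat.unpair n).1) :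
    pk d x n = 0 := by
  unfold pk
  rw [Finsupp.finsetSum_apply]
  apply Finset.sum_eq_zero
  intro j _
  apply Finsupp.mapDomain_of_notMem_range
  rintro ⟨l', hl'⟩
  have h1 : (Nat.unpair n).1 = j := by rw [← hl', Nat.unpair_pair]
  have := j.isLt
  omega

lemma blk_pk (d : ℕ) (x : Fin d → ℕ →₀ ℕ) : blk d (pk d x) = x := by
  funext j
  ext l
  rw [blk_apply, pk_apply_pair]

lemma wdeg_pk (d : ℕ) (x : Fin d → ℕ →₀ ℕ) : wdeg (blockW d) (pk d x) = 0 := by
  rw [wdeg_eq_zero_iff]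
  intro n hn
  apply pk_apply_out
  unfold blockW at hn
  by_contra hc
  rw [if_neg hc] at hn
  exact hn rfl

lemma pk_blk (d : ℕ) (ν : ℕ →₀ ℕ) (h : wdeg (blockW d) ν = 0) : pk d (blk d ν) = ν := by
  rw [wdeg_eq_zero_iff] at h
  ext n
  by_cases hn : (Nat.unpair n).1 < d
  · have : n = Nat.pair ((⟨(Nat.unpair n).1, hn⟩ : Fin d) : ℕ) (Nat.unpair n).2 := by
      simp [Nat.pair_unpair]
    rw [this, pk_apply_pair, blk_apply]
  · rw [pk_apply_out d _ n (by omega), h n]
    unfold blockW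
    rw [if_pos (by omega)]
    exact one_ne_zero

/-- splitting a polynomial into blocks -/
noncomputable def spl (d : ℕ) : MvPolynomial ℕ ℂ →ₗ[ℂ] ((Fin d → ℕ →₀ ℕ) →₀ ℂ) :=
  (MvPolynomial.basisMonomials ℕ ℂ).constr ℂ
    (fun ν => if wdeg (blockW d) ν = 0 then Finsupp.single (blk d ν) 1 else 0)

lemma spl_monomial (d : ℕ) (ν : ℕ →₀ ℕ) :
    spl d (MvPolynomial.monomial ν 1) =
      if wdeg (blockW d) ν = 0 then Finsupp.single (blk d ν) 1 else 0 := by
  unfold spl
  have : MvPolynomial.monomial ν (1 : ℂ) = (MvPolynomial.basisMonomials ℕ ℂ) ν := by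
    rw [MvPolynomial.coe_basisMonomials]
  rw [this, Module.Basis.constr_basis]

lemma spl_monomial' (d : ℕ) (ν : ℕ →₀ ℕ) (a : ℂ) :
    spl d (MvPolynomial.monomial ν a) =
      if wdeg (blockW d) ν = 0 then Finsupp.single (blk d ν) a else 0 := by
  have : MvPolynomial.monomial ν a = a • MvPolynomial.monomial ν (1 : ℂ) := by
    rw [MvPolynomial.smul_monomial, smul_eq_mul, mul_one]
  rw [this, map_smul, spl_monomial]
  split_ifs
  · rw [Finsupp.smul_single, smul_eq_mul, mul_one]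
  · rw [smul_zero]

/-- blocks to polynomials in `Fin d × ℕ` variables -/
noncomputable def unspl (d : ℕ) : ((Fin d → ℕ →₀ ℕ) →₀ ℂ) →ₗ[ℂ] MvPolynomial (Fin d × ℕ) ℂ :=
  Finsupp.linearCombination ℂ
    (fun x => ∏ j : Fin d, MvPolynomial.rename (fun l => (j, l)) (MvPolynomial.monomial (x j) 1))

lemma prod_rename_monomial (d : ℕ) (x : Fin d → ℕ →₀ ℕ) :
    ∏ j : Fin d, MvPolynomial.rename (fun l => Nat.pair j l)
      (MvPolynomial.monomial (x j) (1 : ℂ)) = MvPolynomial.monomial (pk d x) 1 := by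
  simp_rw [MvPolynomial.rename_monomial]
  unfold pk
  rw [MvPolynomial.monomial_sum_one]

lemma rename_unspl_spl (d : ℕ) (f : MvPolynomial ℕ ℂ) :
    MvPolynomial.rename (fun x : Fin d × ℕ => Nat.pair x.1 x.2) (unspl d (spl d f)) =
      multLin (fun ν => if wdeg (blockW d) ν = 0 then 1 else 0) f := by
  conv_lhs => rw [f.as_sum, map_sum, map_sum, map_sum]
  rw [multLin_apply]
  apply Finset.sum_congr rfl
  intro ν _
  rw [spl_monomial']
  split_ifs with h
  · unfold unspl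
    rw [Finsupp.linearCombination_single, map_smul, map_prod]
    simp_rw [MvPolynomial.rename_rename]
    have : ∏ j : Fin d, MvPolynomial.rename ((fun x : Fin d × ℕ => Nat.pair x.1 x.2) ∘ fun l => (j, l))
        (MvPolynomial.monomial (blk d ν j) (1 : ℂ)) = MvPolynomial.monomial (pk d (blk d ν)) 1 :=
      prod_rename_monomial d (blk d ν)
    rw [this, pk_blk d ν h, MvPolynomial.smul_monomial, smul_eq_mul, mul_one, one_smul]
  · rw [map_zero, map_zero, zero_smul]

lemma pnorm_block_le (d : ℕ) (f : MvPolynomial ℕ ℂ) :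
    pnorm (multLin (fun ν => if wdeg (blockW d) ν = 0 then 1 else 0) f) ≤ pnorm f := by
  have h2 := pnorm_mult_le (fun _ => 1) continuous_const (blockW d) f
  have e2 : (fun ν => ∫ t : AddCircle (1 : ℝ), (1 : ℂ) * fourier (wdeg (blockW d) ν : ℤ) t ∂hA) =
      fun ν => if wdeg (blockW d) ν = 0 then (1 : ℂ) else 0 := by
    funext ν
    simp_rw [one_mul]
    rw [integral_fourier]
    simp
  rw [e2] at h2
  simpa using h2

/-- tensor power of `D'` -/
noncomputable def Dd' (D' : MvPolynomial ℕ ℂ →ₗ[ℂ] (Ξ → ℂ)) (d : ℕ) :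
    MvPolynomial ℕ ℂ →ₗ[ℂ] ((Fin d → Ξ) → ℂ) :=
  (Finsupp.linearCombination ℂ
    (fun (x : Fin d → ℕ →₀ ℕ) (ξ : Fin d → Ξ) => ∏ j, D' (MvPolynomial.monomial (x j) 1) (ξ j))) ∘ₗ
    spl d

lemma Dd'_apply (D' : MvPolynomial ℕ ℂ →ₗ[ℂ] (Ξ → ℂ)) (d : ℕ) (f : MvPolynomial ℕ ℂ)
    (ξ : Fin d → Ξ) :
    Dd' D' d f ξ = (spl d f).sum fun x a => a * ∏ j, D' (MvPolynomial.monomial (x j) 1) (ξ j) := by
  unfold Dd'
  rw [LinearMap.comp_apply, Finsupp.linearCombination_apply]
  unfold Finsupp.sum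
  rw [Finset.sum_apply]
  rfl

theorem Wn_Dd'_le (D' : MvPolynomial ℕ ℂ →ₗ[ℂ] (Ξ → ℂ)) (κ : ℝ) (hκ : 0 ≤ κ)
    (hD' : ∀ p, avg (fun s => ‖∑ ξ, D' p ξ * β ξ s‖) ≤ κ * pnorm p)
    (d : ℕ) (f : MvPolynomial ℕ ℂ) :
    Wn β d (Dd' D' d f) ≤ κ ^ d * pnorm f := by
  have key := tensor_to_finite β mInf (fun (ν : ℕ →₀ ℕ) θ => (ν.prod fun i k => wv θ i ^ k))
    (fun ν => isSteinhaus_wv.meas_mon ν) (fun ν => ⟨1, fun θ => (isSteinhaus_wv.norm_mon ν θ).le⟩)
    (fun ν ξ => D' (MvPolynomial.monomial ν 1) ξ) κ hκ ?_ d (spl d f)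
  · have e1 : Dd' D' d f = fun ξ => (spl d f).sum fun x a =>
        a * ∏ j, D' (MvPolynomial.monomial (x j) 1) (ξ j) := by
      funext ξ
      exact Dd'_apply D' d f ξ
    rw [e1]
    refine key.trans ?_
    apply mul_le_mul_of_nonneg_left _ (by positivity)
    refine le_trans (le_of_eq ?_) (pnorm_block_le d f)
    rw [← rename_unspl_spl, pnorm_rename _ (pair_injective d), pnorm_curry]
    congr 1
    ext θ
    congr 1
    unfold unspl
    rw [Finsupp.linearCombination_apply]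
    unfold Finsupp.sum
    rw [map_sum]
    apply Finset.sum_congr rfl
    intro x _
    rw [MvPolynomial.smul_eval, map_prod]
    show (spl d f) x * ∏ j, ((x j).prod fun i k => wv (θ j) i ^ k) = _
    congr 1
    apply Finset.prod_congr rfl
    intro j _
    rw [MvPolynomial.eval_rename, MvPolynomial.eval_monomial, one_mul]
    rfl
  · intro c
    have e2 : ∀ ξ, (c.sum fun i a => a * D' (MvPolynomial.monomial i 1) ξ) =
        D' (c.sum fun i a => a • MvPolynomial.monomial i (1 : ℂ)) ξ := by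
      intro ξ
      unfold Finsupp.sum
      rw [map_sum, Finset.sum_apply]
      apply Finset.sum_congr rfl
      intro i _
      rw [map_smul]
      rfl
    simp_rw [e2]
    refine (hD' _).trans (le_of_eq ?_)
    congr 1
    unfold pnorm
    congr 1
    ext θ
    congr 1
    unfold Finsupp.sum
    rw [map_sum]
    apply Finset.sum_congr rfl
    intro i _
    rw [MvPolynomial.smul_eval, MvPolynomial.eval_monomial, one_mul]
    rfl

/-- multiplicativity of the tensor power -/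
theorem Dd'_prod (D' : MvPolynomial ℕ ℂ →ₗ[ℂ] (Ξ → ℂ)) (d : ℕ) (p : Fin d → MvPolynomial ℕ ℂ)
    (η : Fin d → Ξ) :
    Dd' D' d (∏ j : Fin d, MvPolynomial.rename (fun l => Nat.pair j l) (p j)) η =
      ∏ j, D' (p j) (η j) := by
  have e1 : ∏ j : Fin d, MvPolynomial.rename (fun l => Nat.pair j l) (p j) =
      ∑ x ∈ Fintype.piFinset (fun j => (p j).support), (∏ j, (p j).coeff (x j)) •
        MvPolynomial.monomial (pk d x) (1 : ℂ) := by
    have h1 : ∀ j : Fin d, MvPolynomial.rename (fun l => Nat.pair j l) (p j) =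
        ∑ ν ∈ (p j).support, (p j).coeff ν •
          MvPolynomial.rename (fun l => Nat.pair j l) (MvPolynomial.monomial ν (1 : ℂ)) := by
      intro j
      conv_lhs => rw [(p j).as_sum, map_sum]
      apply Finset.sum_congr rfl
      intro ν _
      rw [← map_smul, MvPolynomial.smul_monomial, smul_eq_mul, mul_one]
    simp_rw [h1]
    rw [Finset.prod_univ_sum]
    apply Finset.sum_congr rfl
    intro x _
    rw [← prod_rename_monomial, Finset.prod_smul]
  rw [e1, map_sum, Finset.sum_apply]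
  have e2 : ∀ x : Fin d → ℕ →₀ ℕ, Dd' D' d ((∏ j, (p j).coeff (x j)) •
        MvPolynomial.monomial (pk d x) (1 : ℂ)) η =
      ∏ j, ((p j).coeff (x j) * D' (MvPolynomial.monomial (x j) 1) (η j)) := by
    intro x
    rw [map_smul, Pi.smul_apply, Dd'_apply, spl_monomial, if_pos (wdeg_pk d x), blk_pk,
      Finsupp.sum_single_index (by simp), Finset.prod_mul_distrib]
    simp
  simp_rw [e2]
  rw [← Finset.prod_univ_sum (fun j => (p j).support)
    (fun j ν => (p j).coeff ν * D' (MvPolynomial.monomial ν 1) (η j))]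
  apply Finset.prod_congr rfl
  intro j _
  conv_rhs => rw [(p j).as_sum, map_sum, Finset.sum_apply]
  apply Finset.sum_congr rfl
  intro ν _
  have : MvPolynomial.monomial ν ((p j).coeff ν) = (p j).coeff ν • MvPolynomial.monomial ν (1 : ℂ) := by
    rw [MvPolynomial.smul_monomial, smul_eq_mul, mul_one]
  rw [this, map_smul]
  rfl

theorem Dd'_Dd (D' : MvPolynomial ℕ ℂ →ₗ[ℂ] (Ξ → ℂ)) (Dp : Ξ → MvPolynomial ℕ ℂ)
    (h : ∀ ξ, D' (Dp ξ) = Pi.single ξ 1) (d : ℕ) (ξ : Fin d → Ξ) :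
    Dd' D' d (Dd Dp d ξ) = Pi.single ξ 1 := by
  funext η
  unfold Dd
  rw [Dd'_prod]
  simp_rw [h]
  by_cases hη : η = ξ
  · subst hη
    simp
  · rw [Pi.single_eq_of_ne hη]
    obtain ⟨j, hj⟩ := Function.ne_iff.mp hη
    apply Finset.prod_eq_zero (Finset.mem_univ j)
    rw [Pi.single_eq_of_ne hj]

end Dp

end HBasis
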