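import Pool.Agent.HBasis.Local
import Pool.Agent.HBasis.Assembly
import Pool.Agent.HBasis.L1Sum

/-!
`H¹(𝕋^∞)` has a Schauder basis.
-/

set_option autoImplicit false

open MeasureTheory Finset Filter Topology

namespace HBasis

theorem exists_basis_H1 (hemb : EmbedFactor) :
    ∃ (e : ℕ → H1) (f : ℕ → H1 →L[ℂ] ℂ),
      (∀ i j, f i (e j) = if i = j then 1 else 0) ∧
      ∀ x, Tendsto (fun N => ∑ k ∈ Finset.range N, f k x • e k) atTop (𝓝 x) := by
  obtain ⟨T, hT, hTn, hTT, hTlim⟩ := exists_trunc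
  obtain ⟨J, J', hJ⟩ := l1_complemented
  exact assembly 60 T (fun j => (hTn j).trans (by norm_num)) hTT hTlim
    (fun j => local_data hemb T hT j) J J' hJ

theorem main_of_embed (hemb : EmbedFactor) :
    ∃ e : ℕ → Lp ℂ 1 mInf, (∀ k, e k ∈ H1) ∧
      ∀ x ∈ H1, ∃! c : ℕ → ℂ,
        Tendsto (fun N : ℕ => ∑ k ∈ Finset.range N, c k • e k) atTop (nhds x) := by
  obtain ⟨e, f, hbi, hconv⟩ := exists_basis_H1 hemb
  refine ⟨fun k => (e k : Lp ℂ 1 mInf), fun k => (e k).2, ?_⟩
  intro x hx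
  have hcoe : ∀ (c : ℕ → ℂ) (N : ℕ), ((∑ k ∈ Finset.range N, c k • e k : H1) : Lp ℂ 1 mInf) =
      ∑ k ∈ Finset.range N, c k • (e k : Lp ℂ 1 mInf) := by
    intro c N
    rw [Submodule.coe_sum]
    rfl
  refine ⟨fun k => f k ⟨x, hx⟩, ?_, ?_⟩
  · have h := (continuous_subtype_val.tendsto _).comp (hconv ⟨x, hx⟩)
    refine h.congr (fun N => ?_)
    exact hcoe (fun k => f k ⟨x, hx⟩) N
  · intro c hc
    have h1 : Tendsto (fun N : ℕ => ∑ k ∈ Finset.range N, c k • e k) atTop (nhds (⟨x, hx⟩ : H1)) := by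
      rw [tendsto_subtype_rng]
      refine hc.congr (fun N => ?_)
      exact (hcoe c N).symm
    funext m
    have h2 := ((f m).continuous.tendsto _).comp h1
    have h3 : Tendsto (fun N : ℕ => f m (∑ k ∈ Finset.range N, c k • e k)) atTop (nhds (c m)) := by
      apply tendsto_const_nhds.congr'
      filter_upwards [eventually_gt_atTop m] with N hN
      rw [map_sum, Finset.sum_eq_single m]
      · rw [map_smul, hbi, if_pos rfl, smul_eq_mul, mul_one]
      · intro k _ hk
        rw [map_smul, hbi, if_neg (Ne.symm hk), smul_zero]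
      · intro h
        exact absurd (Finset.mem_range.mpr hN) h
    exact tendsto_nhds_unique h3 h2

end HBasis
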