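import Pool.Agent.HBasis.XSpace

/-!
Multipliers on `H¹`.
-/

set_option autoImplicit false

open MeasureTheory Finset

namespace HBasis

/-- haar measure on the circle -/
noncomputable abbrev hA : Measure (AddCircle (1 : ℝ)) := AddCircle.haarAddCircle

/-- multiplier operator on polynomials -/
noncomputable def multLin (m : (ℕ →₀ ℕ) → ℂ) : MvPolynomial ℕ ℂ →ₗ[ℂ] MvPolynomial ℕ ℂ :=
  (MvPolynomial.basisMonomials ℕ ℂ).constr ℂ (fun ν => m ν • MvPolynomial.monomial ν 1)

lemma multLin_monomial (m : (ℕ →₀ ℕ) → ℂ) (ν : ℕ →₀ ℕ) (c : ℂ) :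
    multLin m (MvPolynomial.monomial ν c) = m ν • MvPolynomial.monomial ν c := by
  have h : MvPolynomial.monomial ν c = c • (MvPolynomial.basisMonomials ℕ ℂ) ν := by
    rw [MvPolynomial.coe_basisMonomials, MvPolynomial.smul_monomial, smul_eq_mul, mul_one]
  rw [h, map_smul]
  unfold multLin
  rw [Module.Basis.constr_basis, MvPolynomial.coe_basisMonomials]
  rw [smul_comm]

lemma multLin_apply (m : (ℕ →₀ ℕ) → ℂ) (p : MvPolynomial ℕ ℂ) :
    multLin m p = ∑ ν ∈ p.support, m ν • MvPolynomial.monomial ν (p.coeff ν) := by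
  conv_lhs => rw [p.as_sum, map_sum]
  apply Finset.sum_congr rfl
  intro ν _
  rw [multLin_monomial]

lemma eval_multLin (m : (ℕ →₀ ℕ) → ℂ) (p : MvPolynomial ℕ ℂ) (x : ℕ → ℂ) :
    MvPolynomial.eval x (multLin m p) =
      ∑ ν ∈ p.support, m ν * (p.coeff ν * (ν.prod fun i k => x i ^ k)) := by
  rw [multLin_apply, map_sum]
  apply Finset.sum_congr rfl
  intro ν _
  rw [MvPolynomial.smul_eval, MvPolynomial.eval_monomial]

lemma multLin_comp (m m' : (ℕ →₀ ℕ) → ℂ) (p : MvPolynomial ℕ ℂ) :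
    multLin m (multLin m' p) = multLin (fun ν => m ν * m' ν) p := by
  rw [multLin_apply m' p, map_sum, multLin_apply _ p]
  apply Finset.sum_congr rfl
  intro ν _
  rw [map_smul, multLin_monomial, smul_smul, mul_comm]

lemma multLin_eq_self (m : (ℕ →₀ ℕ) → ℂ) (p : MvPolynomial ℕ ℂ) (h : ∀ ν ∈ p.support, m ν = 1) :
    multLin m p = p := by
  rw [multLin_apply]
  conv_rhs => rw [p.as_sum]
  apply Finset.sum_congr rfl
  intro ν hν
  rw [h ν hν, one_smul]

/-- weighted degree. -/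
def wdeg (ω : ℕ → ℕ) (ν : ℕ →₀ ℕ) : ℕ := ν.sum fun i k => k * ω i

lemma norm_fourier_apply (n : ℤ) (t : AddCircle (1 : ℝ)) : ‖(fourier n t : ℂ)‖ = 1 := by
  rw [fourier_apply]; exact Circle.norm_coe _

lemma fourier_pow (n k : ℕ) (t : AddCircle (1 : ℝ)) :
    (fourier (n : ℤ) t : ℂ) ^ k = fourier ((k * n : ℕ) : ℤ) t := by
  rw [fourier_apply, fourier_apply]
  rw [natCast_zsmul, natCast_zsmul, mul_smul, AddCircle.toCircle_nsmul, AddCircle.toCircle_nsmul]
  rw [Circle.coe_pow, Circle.coe_pow, AddCircle.toCircle_nsmul, Circle.coe_pow]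

lemma mon_rot (ω : ℕ → ℕ) (ν : ℕ →₀ ℕ) (x : ℕ → ℂ) (t : AddCircle (1 : ℝ)) :
    (ν.prod fun i k => (x i * fourier (ω i : ℤ) t) ^ k) =
      (ν.prod fun i k => x i ^ k) * fourier (wdeg ω ν : ℤ) t := by
  unfold Finsupp.prod wdeg Finsupp.sum
  simp_rw [mul_pow, Finset.prod_mul_distrib]
  congr 1
  simp_rw [fourier_pow]
  have : ∀ s : Finset ℕ, ∏ i ∈ s, (fourier ((ν i * ω i : ℕ) : ℤ) t : ℂ) =
      fourier ((∑ i ∈ s, ν i * ω i : ℕ) : ℤ) t := by
    intro s
    induction s using Finset.induction_on with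
    | empty => simp
    | insert a s ha ih =>
      rw [Finset.prod_insert ha, Finset.sum_insert ha, ih, Nat.cast_add, fourier_add]
  exact this _

lemma isSteinhaus_rot (ω : ℕ → ℕ) (t : AddCircle (1 : ℝ)) :
    IsSteinhaus mInf (fun θ i => wv θ i * fourier (ω i : ℤ) t) where
  meas i := (isSteinhaus_wv.meas i).mul_const _
  norm_one θ i := by rw [norm_mul, isSteinhaus_wv.norm_one, norm_fourier_apply, one_mul]
  orth ν ν' hne := by
    simp_rw [mon_rot, map_mul]
    have := isSteinhaus_wv.orth ν ν' hne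
    have e : ∀ θ : ℕ → AddCircle (1 : ℝ), (ν.prod fun i k => wv θ i ^ k) * (fourier (wdeg ω ν : ℤ) t) *
        ((starRingEnd ℂ) (ν'.prod fun i k => wv θ i ^ k) * (starRingEnd ℂ) (fourier (wdeg ω ν' : ℤ) t)) =
        ((fourier (wdeg ω ν : ℤ) t) * (starRingEnd ℂ) (fourier (wdeg ω ν' : ℤ) t)) *
        ((ν.prod fun i k => wv θ i ^ k) * (starRingEnd ℂ) (ν'.prod fun i k => wv θ i ^ k)) := by
      intro θ; ring
    simp_rw [e]
    rw [integral_const_mul, this, mul_zero]

theorem pnorm_mult_le (κ : AddCircle (1 : ℝ) → ℂ) (hκ : Continuous κ) (ω : ℕ → ℕ)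
    (p : MvPolynomial ℕ ℂ) :
    pnorm (multLin (fun ν => ∫ t, κ t * fourier (wdeg ω ν : ℤ) t ∂hA) p) ≤
      (∫ t, ‖κ t‖ ∂hA) * pnorm p := by
  set F : (ℕ → AddCircle (1 : ℝ)) → AddCircle (1 : ℝ) → ℂ :=
    fun θ t => MvPolynomial.eval (fun i => wv θ i * fourier (ω i : ℤ) t) p with hF
  have hFsum : ∀ θ t, F θ t = ∑ ν ∈ p.support,
      p.coeff ν * ((ν.prod fun i k => wv θ i ^ k) * fourier (wdeg ω ν : ℤ) t) := by
    intro θ t
    rw [hF]
    simp only
    rw [eval_eq_sum]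
    apply Finset.sum_congr rfl
    intro ν _
    rw [mon_rot]
  have hbdd : ∀ θ t, ‖F θ t‖ ≤ ∑ ν ∈ p.support, ‖p.coeff ν‖ :=
    fun θ t => (isSteinhaus_rot ω t).norm_eval_le p θ
  have hFmeas : Measurable (fun x : (ℕ → AddCircle (1 : ℝ)) × AddCircle (1 : ℝ) => F x.1 x.2) := by
    simp_rw [hFsum]
    apply Finset.measurable_fun_sum
    intro ν _
    apply Measurable.const_mul
    apply Measurable.mul
    · exact (isSteinhaus_wv.meas_mon ν).comp measurable_fst
    · exact (fourier (wdeg ω ν : ℤ)).continuous.measurable.comp measurable_snd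
  have hκm : Measurable κ := hκ.measurable
  obtain ⟨Cκ, hCκ⟩ : ∃ C, ∀ t, ‖κ t‖ ≤ C := by
    obtain ⟨C, hC⟩ := (isCompact_range hκ).isBounded.exists_norm_le
    exact ⟨C, fun t => hC _ ⟨t, rfl⟩⟩
  have hCκ0 : 0 ≤ Cκ := (norm_nonneg _).trans (hCκ 0)
  -- pointwise formula
  have hpt : ∀ θ, MvPolynomial.eval (wv θ)
      (multLin (fun ν => ∫ t, κ t * fourier (wdeg ω ν : ℤ) t ∂hA) p) = ∫ t, κ t * F θ t ∂hA := by
    intro θ
    rw [eval_multLin]
    simp_rw [hFsum, Finset.mul_sum]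
    rw [integral_finsetSum]
    · apply Finset.sum_congr rfl
      intro ν _
      rw [← integral_mul_const]
      congr 1
      ext t
      ring
    · intro ν _
      apply Continuous.integrable_of_hasCompactSupport
      · have := (fourier (T := (1 : ℝ)) (wdeg ω ν : ℤ)).continuous
        fun_prop
      · exact HasCompactSupport.of_compactSpace _
  unfold pnorm
  have hint2 : Integrable (fun x : (ℕ → AddCircle (1 : ℝ)) × AddCircle (1 : ℝ) =>
      ‖κ x.2‖ * ‖F x.1 x.2‖) (mInf.prod hA) := by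
    refine Integrable.of_bound (C := Cκ * ∑ ν ∈ p.support, ‖p.coeff ν‖) ?_ ?_
    · exact ((hκm.comp measurable_snd).norm.mul hFmeas.norm).aestronglyMeasurable
    · refine Filter.Eventually.of_forall fun x => ?_
      rw [norm_mul, norm_norm, norm_norm]
      exact mul_le_mul (hCκ _) (hbdd _ _) (norm_nonneg _) hCκ0
  calc ∫ θ, ‖MvPolynomial.eval (wv θ)
        (multLin (fun ν => ∫ t, κ t * fourier (wdeg ω ν : ℤ) t ∂hA) p)‖ ∂mInf
      ≤ ∫ θ, (∫ t, ‖κ t‖ * ‖F θ t‖ ∂hA) ∂mInf := by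
        apply integral_mono_of_nonneg
        · exact Filter.Eventually.of_forall fun θ => norm_nonneg _
        · exact hint2.integral_prod_left
        · refine Filter.Eventually.of_forall fun θ => ?_
          simp only
          rw [hpt]
          refine (norm_integral_le_integral_norm _).trans (le_of_eq ?_)
          congr 1
          ext t
          rw [norm_mul]
    _ = ∫ t, (∫ θ, ‖κ t‖ * ‖F θ t‖ ∂mInf) ∂hA := integral_integral_swap hint2
    _ = ∫ t, ‖κ t‖ * pnorm p ∂hA := by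
        congr 1
        ext t
        rw [integral_const_mul, (isSteinhaus_rot ω t).integral_norm_eval p]
    _ = (∫ t, ‖κ t‖ ∂hA) * pnorm p := by rw [integral_mul_const]
    _ = _ := rfl

end HBasis
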