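import Pool.Agent.HBasis.Mult

/-!
The truncation operators `T j` on `H¹`.
-/

set_option autoImplicit false

open MeasureTheory Finset Filter Topology

namespace HBasis

/-- Fejér kernel (real). -/
noncomputable def fejR (L : ℕ) (t : AddCircle (1 : ℝ)) : ℝ :=
  ‖∑ k ∈ range L, (fourier (k : ℤ) t : ℂ)‖ ^ 2 / L

lemma continuous_fejR (L : ℕ) : Continuous (fejR L) := by
  unfold fejR
  have : Continuous fun t : AddCircle (1 : ℝ) => ∑ k ∈ range L, (fourier (k : ℤ) t : ℂ) := by
    apply continuous_finsetSum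
    intro k _
    exact (fourier (k : ℤ)).continuous
  fun_prop

lemma fejR_nonneg (L : ℕ) (t : AddCircle (1 : ℝ)) : 0 ≤ fejR L t := by
  unfold fejR; positivity

lemma fejR_cast (L : ℕ) (t : AddCircle (1 : ℝ)) :
    ((fejR L t : ℝ) : ℂ) = (∑ a ∈ range L, ∑ b ∈ range L, (fourier ((a : ℤ) - b) t : ℂ)) / L := by
  unfold fejR
  rw [Complex.ofReal_div, ← Complex.normSq_eq_norm_sq, ← Complex.mul_conj, map_sum, sum_mul_sum]
  congr 1
  apply Finset.sum_congr rfl
  intro a _
  apply Finset.sum_congr rfl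
  intro b _
  rw [← fourier_neg, ← fourier_add]
  rfl

lemma integral_fejR_mul (L : ℕ) (k : ℕ) :
    ∫ t, ((fejR L t : ℝ) : ℂ) * fourier (k : ℤ) t ∂hA = ((L - k : ℕ) : ℂ) / L := by
  have hint : ∀ n : ℤ, Integrable (fun t : AddCircle (1 : ℝ) => (fourier n t : ℂ)) hA := by
    intro n
    exact (fourier n).continuous.integrable_of_hasCompactSupport (HasCompactSupport.of_compactSpace _)
  have e1 : ∀ t : AddCircle (1 : ℝ), ((fejR L t : ℝ) : ℂ) * fourier (k : ℤ) t =
      (∑ a ∈ range L, ∑ b ∈ range L, (fourier ((a : ℤ) - b + k) t : ℂ)) / L := by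
    intro t
    rw [fejR_cast, div_mul_eq_mul_div, sum_mul]
    congr 1
    apply Finset.sum_congr rfl
    intro a _
    rw [sum_mul]
    apply Finset.sum_congr rfl
    intro b _
    rw [← fourier_add]
  simp_rw [e1]
  rw [integral_div]
  congr 1
  rw [integral_finsetSum _ fun a _ => integrable_finsetSum _ fun b _ => hint _]
  have e2 : ∀ a ∈ range L, ∫ t : AddCircle (1 : ℝ), ∑ b ∈ range L, (fourier ((a : ℤ) - b + k) t : ℂ) ∂hA =
      if a + k < L then 1 else 0 := by
    intro a _
    rw [integral_finsetSum _ fun b _ => hint _]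
    simp_rw [integral_fourier]
    have : ∀ b ∈ range L, (if (a : ℤ) - b + k = 0 then (1 : ℂ) else 0) = if b = a + k then 1 else 0 := by
      intro b _
      congr 1
      apply propext
      constructor <;> intro h <;> omega
    rw [Finset.sum_congr rfl this, Finset.sum_ite_eq']
    simp only [mem_range]
  rw [Finset.sum_congr rfl e2, Finset.sum_ite, Finset.sum_const_zero, add_zero, Finset.sum_const,
    nsmul_eq_mul, mul_one]
  congr 1
  have : (range L).filter (fun a => a + k < L) = range (L - k) := by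
    ext a; simp only [mem_filter, mem_range]; omega
  rw [this, card_range]

lemma integral_fejR (L : ℕ) (hL : 0 < L) : ∫ t, fejR L t ∂hA = 1 := by
  have h := integral_fejR_mul L 0
  simp only [Nat.cast_zero, fourier_zero, mul_one, Nat.sub_zero] at h
  rw [div_self (by exact_mod_cast hL.ne'), integral_complex_ofReal] at h
  exact_mod_cast h

/-- de la Vallée-Poussin kernel. -/
noncomputable def vdpK (n : ℕ) (t : AddCircle (1 : ℝ)) : ℂ :=
  ((2 * fejR (2 * n) t - fejR n t : ℝ) : ℂ)

lemma continuous_vdpK (n : ℕ) : Continuous (vdpK n) := by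
  unfold vdpK
  have h1 := continuous_fejR (2 * n)
  have h2 := continuous_fejR n
  fun_prop

lemma integral_norm_vdpK (n : ℕ) (hn : 0 < n) : ∫ t, ‖vdpK n t‖ ∂hA ≤ 3 := by
  have hi : ∀ L, Integrable (fejR L) hA := fun L =>
    (continuous_fejR L).integrable_of_hasCompactSupport (HasCompactSupport.of_compactSpace _)
  calc ∫ t, ‖vdpK n t‖ ∂hA ≤ ∫ t, (2 * fejR (2 * n) t + fejR n t) ∂hA := by
        apply integral_mono_of_nonneg
        · exact Filter.Eventually.of_forall fun t => norm_nonneg _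
        · exact ((hi _).const_mul 2).add (hi _)
        · refine Filter.Eventually.of_forall fun t => ?_
          simp only
          unfold vdpK
          rw [Complex.norm_real, Real.norm_eq_abs, abs_le]
          have h1 := fejR_nonneg (2 * n) t
          have h2 := fejR_nonneg n t
          constructor <;> linarith
    _ = 3 := by
        rw [integral_add ((hi _).const_mul 2) (hi _), integral_const_mul, integral_fejR _ (by omega),
          integral_fejR _ hn]
        norm_num

/-- coefficients of the de la Vallée-Poussin kernel -/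
noncomputable def vdp (n k : ℕ) : ℂ := ∫ t, vdpK n t * fourier (k : ℤ) t ∂hA

lemma vdp_eq (n k : ℕ) : vdp n k =
    2 * (((2 * n - k : ℕ) : ℂ) / (2 * n : ℕ)) - ((n - k : ℕ) : ℂ) / n := by
  unfold vdp vdpK
  have hint : ∀ L : ℕ, Integrable (fun t : AddCircle (1 : ℝ) => ((fejR L t : ℝ) : ℂ) * fourier (k : ℤ) t) hA := by
    intro L
    apply Continuous.integrable_of_hasCompactSupport
    · have h1 := continuous_fejR L
      have h2 := (fourier (T := (1 : ℝ)) (k : ℤ)).continuous
      fun_prop
    · exact HasCompactSupport.of_compactSpace _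
  have e : ∀ t : AddCircle (1 : ℝ), (((2 * fejR (2 * n) t - fejR n t : ℝ) : ℂ)) * fourier (k : ℤ) t =
      2 * (((fejR (2 * n) t : ℝ) : ℂ) * fourier (k : ℤ) t) - ((fejR n t : ℝ) : ℂ) * fourier (k : ℤ) t := by
    intro t; push_cast; ring
  simp_rw [e]
  rw [integral_sub ((hint _).const_mul 2) (hint _), integral_const_mul, integral_fejR_mul,
    integral_fejR_mul]

lemma vdp_one {n k : ℕ} (hn : 0 < n) (hk : k ≤ n) : vdp n k = 1 := by
  rw [vdp_eq, Nat.cast_sub hk, Nat.cast_sub (by omega : k ≤ 2 * n)]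
  have : (n : ℂ) ≠ 0 := by exact_mod_cast hn.ne'
  push_cast
  field_simp
  ring

lemma vdp_zero {n k : ℕ} (hk : 2 * n ≤ k) : vdp n k = 0 := by
  rw [vdp_eq, Nat.sub_eq_zero_of_le hk, Nat.sub_eq_zero_of_le (by omega)]
  simp

/-- tail weight -/
def tailW (d i : ℕ) : ℕ := if d ≤ i then 1 else 0

/-- symbol of the truncation -/
noncomputable def tsym (j : ℕ) (ν : ℕ →₀ ℕ) : ℂ :=
  vdp (2 ^ j) (wdeg (fun _ => 1) ν) * (if wdeg (tailW j) ν = 0 then 1 else 0)

lemma pnorm_trunc_le (j : ℕ) (p : MvPolynomial ℕ ℂ) : pnorm (multLin (tsym j) p) ≤ 3 * pnorm p := by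
  have h1 := pnorm_mult_le (vdpK (2 ^ j)) (continuous_vdpK _) (fun _ => 1)
    (multLin (fun ν => if wdeg (tailW j) ν = 0 then 1 else 0) p)
  have h2 := pnorm_mult_le (fun _ => 1) continuous_const (tailW j) p
  have e2 : (fun ν => ∫ t : AddCircle (1 : ℝ), (1 : ℂ) * fourier (wdeg (tailW j) ν : ℤ) t ∂hA) =
      fun ν => if wdeg (tailW j) ν = 0 then (1 : ℂ) else 0 := by
    funext ν
    simp_rw [one_mul]
    rw [integral_fourier]
    simp
  rw [e2] at h2
  have e3 : (∫ _t : AddCircle (1 : ℝ), ‖(1 : ℂ)‖ ∂hA) = 1 := by simp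
  rw [e3, one_mul] at h2
  have e1 : multLin (fun ν => ∫ t, vdpK (2 ^ j) t * fourier (wdeg (fun _ => 1) ν : ℤ) t ∂hA)
      (multLin (fun ν => if wdeg (tailW j) ν = 0 then 1 else 0) p) = multLin (tsym j) p := by
    rw [multLin_comp]; rfl
  rw [e1] at h1
  have h3 := integral_norm_vdpK (2 ^ j) (by positivity)
  have h4 : 0 ≤ pnorm (multLin (fun ν => if wdeg (tailW j) ν = 0 then 1 else 0) p) := pnorm_nonneg _
  have h5 : 0 ≤ pnorm p := pnorm_nonneg _
  calc pnorm (multLin (tsym j) p) ≤ _ := h1
    _ ≤ 3 * pnorm (multLin (fun ν => if wdeg (tailW j) ν = 0 then 1 else 0) p) :=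
        mul_le_mul_of_nonneg_right h3 h4
    _ ≤ 3 * pnorm p := by linarith

lemma wdeg_eq_zero_iff (ω : ℕ → ℕ) (ν : ℕ →₀ ℕ) : wdeg ω ν = 0 ↔ ∀ i, ω i ≠ 0 → ν i = 0 := by
  unfold wdeg Finsupp.sum
  rw [Finset.sum_eq_zero_iff]
  constructor
  · intro h i hi
    by_contra hc
    have := h i (Finsupp.mem_support_iff.mpr hc)
    rcases Nat.mul_eq_zero.mp this with h1 | h1
    · exact hc h1
    · exact hi h1
  · intro h i hi
    by_cases hω : ω i = 0
    · show ν i * ω i = 0
      rw [hω, mul_zero]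
    · exact absurd (h i hω) (Finsupp.mem_support_iff.mp hi)

lemma tsym_mul {i j : ℕ} (hij : i < j) (ν : ℕ →₀ ℕ) : tsym i ν * tsym j ν = tsym i ν := by
  by_cases h : tsym i ν = 0
  · rw [h, zero_mul]
  · have h1 : wdeg (fun _ => 1) ν < 2 * 2 ^ i := by
      by_contra hc
      push Not at hc
      apply h
      unfold tsym
      rw [vdp_zero hc, zero_mul]
    have h2 : wdeg (tailW i) ν = 0 := by
      by_contra hc
      apply h
      unfold tsym
      rw [if_neg hc, mul_zero]
    have h3 : wdeg (tailW j) ν = 0 := by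
      rw [wdeg_eq_zero_iff] at h2 ⊢
      intro k hk
      apply h2 k
      unfold tailW at *
      split_ifs at hk with h4
      · rw [if_pos (by omega)]; exact one_ne_zero
      · exact absurd rfl hk
    have h4 : tsym j ν = 1 := by
      unfold tsym
      rw [if_pos h3, mul_one]
      apply vdp_one (by positivity)
      have : 2 * 2 ^ i ≤ 2 ^ j := by
        rw [← pow_succ']
        exact Nat.pow_le_pow_right (by norm_num) hij
      omega
    rw [h4, mul_one]

lemma tsym_eventually (ν : ℕ →₀ ℕ) : ∀ᶠ j in atTop, tsym j ν = 1 := by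
  have h1 : ∀ᶠ j : ℕ in atTop, wdeg (fun _ => 1) ν ≤ 2 ^ j := by
    filter_upwards [eventually_ge_atTop (wdeg (fun _ => 1) ν)] with j hj
    exact hj.trans (Nat.lt_two_pow_self).le
  have h2 : ∀ᶠ j : ℕ in atTop, wdeg (tailW j) ν = 0 := by
    filter_upwards [eventually_gt_atTop (ν.support.sup id)] with j hj
    rw [wdeg_eq_zero_iff]
    intro i hi
    by_contra hc
    have : i ≤ ν.support.sup id := Finset.le_sup (f := id) (Finsupp.mem_support_iff.mpr hc)
    unfold tailW at hi
    rw [if_neg (by omega)] at hi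
    exact hi rfl
  filter_upwards [h1, h2] with j a b
  unfold tsym
  rw [if_pos b, mul_one, vdp_one (by positivity) a]

/-- the truncation operators exist -/
theorem exists_trunc : ∃ T : ℕ → H1 →L[ℂ] H1, (∀ j p, T j (iota p) = iota (multLin (tsym j) p)) ∧
    (∀ j, ‖T j‖ ≤ 3) ∧ (∀ i j, i < j → (T i).comp (T j) = T i ∧ (T j).comp (T i) = T i) ∧
    (∀ x, Tendsto (fun j => T j x) atTop (𝓝 x)) := by
  have hex : ∀ j, ∃ T : H1 →L[ℂ] H1, (∀ p, T (iota p) = iota (multLin (tsym j) p)) ∧ ‖T‖ ≤ 3 := by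
    intro j
    apply exists_extend (iota ∘ₗ multLin (tsym j)) 3 (by norm_num)
    intro p
    show ‖iota (multLin (tsym j) p)‖ ≤ _
    rw [norm_iota]
    exact pnorm_trunc_le j p
  choose T hT hTn using hex
  refine ⟨T, hT, hTn, ?_, ?_⟩
  · intro i j hij
    constructor
    · apply ext_iota
      intro p
      rw [ContinuousLinearMap.comp_apply, hT, hT, hT, multLin_comp,
        show (fun ν => tsym i ν * tsym j ν) = tsym i from funext fun ν => tsym_mul hij ν]
    · apply ext_iota
      intro p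
      rw [ContinuousLinearMap.comp_apply, hT, hT, multLin_comp,
        show (fun ν => tsym j ν * tsym i ν) = tsym i from
          funext fun ν => (mul_comm _ _).trans (tsym_mul hij ν)]
  · intro x
    rw [Metric.tendsto_atTop]
    intro ε hε
    obtain ⟨p, hp⟩ := denseRange_iota.exists_dist_lt x (show 0 < ε / 5 by positivity)
    have hev : ∀ᶠ j in atTop, ∀ ν ∈ p.support, tsym j ν = 1 := by
      rw [Filter.eventually_all_finset]
      intro ν _
      exact tsym_eventually ν
    obtain ⟨N, hN⟩ := Filter.eventually_atTop.mp hev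
    refine ⟨N, fun j hj => ?_⟩
    have e1 : T j (iota p) = iota p := by
      rw [hT, multLin_eq_self _ p (hN j hj)]
    have e2 : dist (T j x) (T j (iota p)) ≤ 3 * dist x (iota p) := by
      rw [dist_eq_norm, ← map_sub, dist_eq_norm]
      exact (T j).le_of_opNorm_le (hTn j) _
    calc dist (T j x) x ≤ dist (T j x) (T j (iota p)) + dist (T j (iota p)) x := dist_triangle _ _ _
      _ ≤ 3 * dist x (iota p) + dist (iota p) x := by rw [e1] at *; linarith
      _ < ε := by rw [dist_comm (iota p) x]; linarith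

end HBasis
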