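import Pool.Agent.HBasis.KL

/-!
The space `H¹(𝕋^∞)` and the dense image of the polynomials.
-/

set_option autoImplicit false

open MeasureTheory Finset

namespace HBasis

/-- Haar measure of the infinite torus -/
noncomputable abbrev mInf : Measure (ℕ → AddCircle (1 : ℝ)) :=
  Measure.infinitePi (fun _ : ℕ => (AddCircle.haarAddCircle : Measure (AddCircle (1 : ℝ))))

/-- the classes of analytic monomials -/
def monSet : Set (Lp ℂ 1 mInf) :=
  {g | ∃ ν : ℕ →₀ ℕ, (g : (ℕ → AddCircle (1 : ℝ)) → ℂ) =ᵐ[mInf]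
    (fun θ => ∏ j ∈ ν.support, fourier (ν j : ℤ) (θ j))}

/-- `H¹(𝕋^∞)`. -/
noncomputable def H1 : Submodule ℂ (Lp ℂ 1 mInf) :=
  (Submodule.span ℂ monSet).topologicalClosure

noncomputable instance : CompleteSpace H1 :=
  (Submodule.isClosed_topologicalClosure _).completeSpace_coe

/-- the canonical variables -/
noncomputable def wv (θ : ℕ → AddCircle (1 : ℝ)) (i : ℕ) : ℂ := fourier 1 (θ i)

lemma isSteinhaus_wv : IsSteinhaus mInf wv := isSteinhaus_fourier ℕ

lemma integrable_eval (p : MvPolynomial ℕ ℂ) :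
    Integrable (fun θ => MvPolynomial.eval (wv θ) p) mInf :=
  Integrable.of_bound (isSteinhaus_wv.meas_eval p).aestronglyMeasurable _
    (Filter.Eventually.of_forall (isSteinhaus_wv.norm_eval_le p))

/-- polynomials as elements of `L¹`. -/
noncomputable def iota0 : MvPolynomial ℕ ℂ →ₗ[ℂ] Lp ℂ 1 mInf where
  toFun p := (integrable_eval p).toL1 (fun θ => MvPolynomial.eval (wv θ) p)
  map_add' p q := by
    rw [← Integrable.toL1_add]
    congr 1
    ext θ
    simp
  map_smul' c p := by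
    rw [RingHom.id_apply, ← Integrable.toL1_smul]
    congr 1
    ext θ
    simp

lemma coeFn_iota0 (p : MvPolynomial ℕ ℂ) :
    (iota0 p : (ℕ → AddCircle (1 : ℝ)) → ℂ) =ᵐ[mInf] fun θ => MvPolynomial.eval (wv θ) p :=
  Integrable.coeFn_toL1 (integrable_eval p)

lemma norm_iota0 (p : MvPolynomial ℕ ℂ) : ‖iota0 p‖ = pnorm p :=
  L1.norm_of_fun_eq_integral_norm (integrable_eval p)

lemma wv_pow (θ : ℕ → AddCircle (1 : ℝ)) (i k : ℕ) : wv θ i ^ k = fourier (k : ℤ) (θ i) := by
  unfold wv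
  rw [fourier_apply, fourier_apply]
  simp only [one_smul, natCast_zsmul]
  rw [AddCircle.toCircle_nsmul]
  simp

lemma eval_monomial_wv (θ : ℕ → AddCircle (1 : ℝ)) (ν : ℕ →₀ ℕ) :
    MvPolynomial.eval (wv θ) (MvPolynomial.monomial ν (1 : ℂ)) =
      ∏ j ∈ ν.support, fourier (ν j : ℤ) (θ j) := by
  rw [MvPolynomial.eval_monomial, one_mul]
  unfold Finsupp.prod
  apply Finset.prod_congr rfl
  intro i _
  exact wv_pow θ i (ν i)

lemma range_iota0 : LinearMap.range iota0 = Submodule.span ℂ monSet := by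
  apply le_antisymm
  · rintro _ ⟨p, rfl⟩
    rw [p.as_sum, map_sum]
    apply Submodule.sum_mem
    intro ν _
    have : MvPolynomial.monomial ν (p.coeff ν) = p.coeff ν • MvPolynomial.monomial ν (1 : ℂ) := by
      rw [MvPolynomial.smul_monomial, smul_eq_mul, mul_one]
    rw [this, map_smul]
    apply Submodule.smul_mem
    apply Submodule.subset_span
    refine ⟨ν, ?_⟩
    refine (coeFn_iota0 _).trans (Filter.Eventually.of_forall fun θ => ?_)
    exact eval_monomial_wv θ ν
  · rw [Submodule.span_le]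
    rintro g ⟨ν, hg⟩
    refine ⟨MvPolynomial.monomial ν 1, ?_⟩
    apply Lp.ext
    refine (coeFn_iota0 _).trans (Filter.EventuallyEq.trans ?_ hg.symm)
    exact Filter.Eventually.of_forall fun θ => eval_monomial_wv θ ν

/-- polynomials as elements of `H¹`. -/
noncomputable def iota : MvPolynomial ℕ ℂ →ₗ[ℂ] H1 :=
  iota0.codRestrict H1 (fun p => Submodule.le_topologicalClosure _
    (by rw [← range_iota0]; exact LinearMap.mem_range_self _ p))

lemma norm_iota (p : MvPolynomial ℕ ℂ) : ‖iota p‖ = pnorm p := norm_iota0 p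

lemma denseRange_iota : DenseRange iota := by
  intro y
  rw [closure_subtype]
  have hy : (y : Lp ℂ 1 mInf) ∈ H1 := y.2
  have : (Subtype.val '' (Set.range iota)) = ((Submodule.span ℂ monSet : Submodule ℂ (Lp ℂ 1 mInf)) : Set (Lp ℂ 1 mInf)) := by
    rw [← range_iota0, ← Set.range_comp]
    rfl
  rw [this]
  exact hy

/-- Extension of operators from polynomials. -/
theorem exists_extend {Y : Type} [NormedAddCommGroup Y] [NormedSpace ℂ Y] [CompleteSpace Y]
    (S : MvPolynomial ℕ ℂ →ₗ[ℂ] Y) (C : ℝ) (hC : 0 ≤ C) (h : ∀ p, ‖S p‖ ≤ C * pnorm p) :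
    ∃ T : H1 →L[ℂ] Y, (∀ p, T (iota p) = S p) ∧ ‖T‖ ≤ C := by
  have h' : ∀ p, ‖S p‖ ≤ C * ‖iota p‖ := fun p => by rw [norm_iota]; exact h p
  exact ⟨S.extendOfNorm iota, LinearMap.extendOfNorm_eq denseRange_iota ⟨C, h'⟩,
    LinearMap.opNorm_extendOfNorm_le denseRange_iota hC h'⟩

/-- two continuous maps which agree on polynomials agree. -/
theorem ext_iota {Y : Type} [NormedAddCommGroup Y] [NormedSpace ℂ Y] {S T : H1 →L[ℂ] Y}
    (h : ∀ p, S (iota p) = T (iota p)) : S = T := by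
  ext x
  exact congrFun (denseRange_iota.equalizer S.continuous T.continuous (funext h)) x

lemma pnorm_nonneg {σ : Type} (p : MvPolynomial σ ℂ) : 0 ≤ pnorm p :=
  integral_nonneg fun _ => norm_nonneg _

lemma pnorm_add_le (p q : MvPolynomial ℕ ℂ) : pnorm (p + q) ≤ pnorm p + pnorm q := by
  rw [← norm_iota, ← norm_iota, ← norm_iota, map_add]
  exact norm_add_le _ _

lemma pnorm_smul (c : ℂ) (p : MvPolynomial ℕ ℂ) : pnorm (c • p) = ‖c‖ * pnorm p := by
  rw [← norm_iota, ← norm_iota, map_smul, norm_smul]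

/-- Statement S1 (to be proved by helper81 in L1Sum.lean): `ℓ₁(H¹)` is complemented in `H¹`. -/
def L1Complemented : Prop :=
  ∃ (J : lp (fun _ : ℕ => H1) 1 →L[ℂ] H1) (J' : H1 →L[ℂ] lp (fun _ : ℕ => H1) 1),
    ∀ y, J' (J y) = y

end HBasis
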